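import Pool.Agent.K7.H54.HR.Sel1
import Pool.Agent.R421.HF.Rnk
import Pool.Agent.W307.SE.Fin
import Pool.Agent.W405.SE.GoodP

/-!
# Project HR: the bound of the 2-Selmer group by the local count, with primes without a contribution
-/

set_option autoImplicit false
set_option linter.all false

namespace Pool.Agent.K7.H54.HR

open Finset Pool.Agent.W262.RK Pool.Agent.W307.RT Pool.Agent.TH841.PT Pool.Agent.R421.HF
open Pool.Agent.W307.SE (SN)

variable {J : Type} [Fintype J] [DecidableEq J]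

/-- The bound of the 2-Selmer group by the local count. -/
theorem selk5 {cls : J → Fin 4} (hcls : ∀ j, cls j ≠ 3) {ty : J → ℕ → Option Ty} {f : J → ℤ}
    {A B : ℤ} {z y D : ℕ} (hz : 2 ≤ z) (hzy : z < y) (h0 : ∀ j, f j ≠ 0)
    (hA0 : A ≠ 0) (hB0 : B ≠ 0) (hAB : A ≠ B)
    (hun : ∀ p : ℕ, p.Prime → z < p → ∀ j l, (p : ℤ) ∣ f j → (p : ℤ) ∣ f l → j = l)
    (hloc : ∀ p : ℕ, p.Prime → z < p → ∀ j θ, (p : ℤ) ∣ f j → ¬ (p : ℤ) ^ 2 ∣ f j →
      ty j p = some θ → ∃ k : ℤ, ¬ (p : ℤ) ∣ k ∧ LocM (cls j) k p A B ∧ sg0 p k = θ 0)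
    (hneu : ∀ p : ℕ, p.Prime → z < p → ∀ j, (p : ℤ) ∣ f j → ty j p = none →
      NeuM (cls j) p A B)
    (hbad : ∀ p : ℕ, p.Prime → z < p → (p : ℤ) ∣ 2 * A * B * (A - B) → ∃ j, (p : ℤ) ∣ f j)
    (hsz : ∀ j, (f j).natAbs < (y + 1) ^ D) :
    SN A B ≤
      4 ^ (z + Fintype.card J * D + 2) *
        4 ^ (∑ i, (S2 z y (prv ty z f) i).primeFactors.card) *
        (NL (∏ i, S1 z y (prv ty z f) i)
          (LTs (clsI cls) eI (S1 z y (prv ty z f)) ∅) : ℝ) := by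
  classical
  set g := prv ty z f with hg
  set s := S1 z y g with hs
  have hmem : s ∈ Tup (J × Ty) z y := by
    apply Pool.Agent.W571.RT.S1_mem
    rintro p hp hzp i i' hii' ⟨h1, h2⟩
    exact (prv_Gd h0 hun).2 p hp hzp i i' hii' ⟨h1, h2⟩
  have hmd : ∏ i, s i ∣ PP z y := Pool.Agent.W262.RK.Tup_prod_dvd hmem
  have hPSof : ∀ p : ℕ, p.Prime → p ∣ ∏ i, s i → p ∈ PS z y := fun p hp h =>
    (prime_dvd_PP hp).1 (h.trans hmd)
  have hodd2 : ∀ p : ℕ, p.Prime → p ∣ ∏ i, s i → 2 < p := by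
    intro p hp h
    have h1 := (mem_PS.1 (hPSof p hp h)).1.1
    omega
  have hcI : ∀ i : J × Ty, clsI cls i ≠ 3 := fun i => hcls i.1
  have hlocm : Pool.Agent.W307.SE.LOCMP := Pool.Agent.W307.SE.locmp_of Pool.Agent.W407.SE.ratp
  obtain ⟨Nt, hNt⟩ : ∃ Nt : ℕ → Prop, ∀ p, Nt p ↔ (z < p ∧ ∃ j, (p : ℤ) ∣ f j ∧ ty j p = none) :=
    ⟨_, fun p => Iff.rfl⟩
  have hd := seld5 (Pool.Agent.W405.SE.goodp_of Pool.Agent.W407.SE.ratp) (∏ i, s i) (LTs (clsI cls) eI s ∅) A B Nt hA0 hB0 hAB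
    (by
      rw [← Nat.not_even_iff_odd, even_iff_two_dvd]
      intro h
      exact absurd (hodd2 2 Nat.prime_two h) (by norm_num))
    ((PP_squarefree z y).squarefree_of_dvd hmd)
    (fun p hp hpd => ⟨fun i hi => (Pool.Agent.Y474.Z8.LT_xc (hcI i) (eI i) _ _).1,
      fun a1 b1 c1 d1 a2 b2 c2 d2 e1 e2 i hi =>
        (Pool.Agent.Y474.Z8.LT_xc (hcI i) (eI i) _ _).2 a1 b1 c1 d1 a2 b2 c2 d2 (e1 i hi)
          (e2 i hi)⟩)
    (fun p hp hpd x x' hx' hcurve e1 e2 he1 he2 hsq1 hsq2 i hi => by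
      have hpp : p.Prime := Fact.out
      have his := (Pool.Agent.W571.RT.S1_dvd_iff hpp).1 hi
      have hzp := (mem_PS.1 his.1).1.1
      have h2p : 2 < p := hodd2 p hpp hpd
      have h1 := his.2.1
      rw [hg, prv_dvd h0 i hpp hzp] at h1
      have h2 : ¬ (p : ℤ) ^ 2 ∣ f i.1 := by
        intro h3
        apply his.2.2
        rw [hg, prv_pow h0 i hpp hzp two_ne_zero]
        exact ⟨h3, h1.2⟩
      obtain ⟨k, hκ, h3, h4⟩ := hloc p hpp hzp i.1 i.2 h1.1 h2 h1.2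
      have hfin := hlocm (clsI cls i) k p A B (hcI i)
        (by omega) hκ hA0 hB0 hAB h3 x x' hx' hcurve e1 e2 he1 he2 hsq1 hsq2
      have hdec : decide (p ∈ (∅ : Finset ℕ)) = false := by simp
      rw [hdec]
      exact Pool.Agent.Y474.Z8.LT_of_LL (hcI i) h4 hfin)
    (fun p hp hN x x' hx' hcurve e1 e2 he1 he2 hsq1 hsq2 => by
      obtain ⟨hzp, j, hj, hty⟩ := (hNt p).1 hN
      exact neump (by omega) hA0 hB0 hAB (hneu p hp.out hzp j hj hty) x x' hx' hcurve e1 e2 he1 he2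
        hsq1 hsq2)
  have hc := bad5 (ty := ty) hzy h0 hbad hsz Nt
    (fun p hp hzp j hj hty => (hNt p).2 ⟨hzp, j, hj, hty⟩)
  rw [← hg, ← hs] at hc
  have h1 : SN A B ≤
      4 ^ (((2 * A * B * (A - B)).natAbs.primeFactors.filter
        (fun q => ¬ q ∣ ∏ i, s i ∧ ¬ Nt q)).card + 2) *
          (NL (∏ i, s i) (LTs (clsI cls) eI s ∅) : ℝ) := by
    have h2 : (((Pool.Agent.W307.SE.Sel A B).ncard : ℕ) : ℝ) ≤ _ :=
      Nat.cast_le.2 hd.2
    push_cast at h2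
    unfold SN
    convert h2 using 2
  refine h1.trans (mul_le_mul_of_nonneg_right ?_ (Nat.cast_nonneg _))
  rw [← pow_add]
  exact pow_le_pow_right₀ (by norm_num) (by omega)


end Pool.Agent.K7.H54.HR
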