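import Pool.Agent.K7.H54.HR.Mob

/-!
# Project HR: squares modulo a polynomial and the change of the coordinates
-/

set_option autoImplicit false
set_option linter.all false

namespace Pool.Agent.K7.H54.HR

open Finset Polynomial

lemma reflect_pad {b : ℕ} {K : ℚ[X]} (hK : K.natDegree ≤ b) (a : ℕ) :
    reflect (a + b) K = X ^ a * reflect b K := by
  have h1 := reflect_mul (1 : ℚ[X]) K (F := a) (G := b) (by simp) hK
  rw [one_mul] at h1
  rw [h1]
  congr 1
  ext i
  rw [coeff_reflect, coeff_one, coeff_X_pow]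
  by_cases h : i = a
  · subst h
    simp [revAt_le le_rfl]
  · rw [if_neg h, if_neg]
    intro h2
    apply h
    have := revAt_invol (N := a) (i := i)
    rw [h2, revAt_le (Nat.zero_le _), Nat.sub_zero] at this
    exact this.symm

/-- squares and the reflection -/
lemma reflect_sq {g K : ℚ[X]} {n m : ℕ} (hg : g.natDegree ≤ n) (hgn : g.coeff n ≠ 0)
    (hK : K.natDegree ≤ 2 * m) (h : ∃ q : ℚ[X], g ∣ q ^ 2 - K) :
    ∃ q : ℚ[X], reflect n g ∣ q ^ 2 - reflect (2 * m) K := by
  obtain ⟨q, r, hr⟩ := h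
  obtain ⟨N, hN⟩ : ∃ N, N = m + q.natDegree + r.natDegree + n := ⟨_, rfl⟩
  have h1 : reflect (2 * N) (q ^ 2 - K) = reflect n g * reflect (2 * N - n) r := by
    rw [hr, ← reflect_mul g r hg (by omega)]
    congr 1
    omega
  have h2 : reflect (2 * N) (q ^ 2) = reflect N q ^ 2 := by
    rw [two_mul, sq, sq]
    exact reflect_mul q q (by omega) (by omega)
  have h3 : reflect (2 * N) K = (X ^ (N - m)) ^ 2 * reflect (2 * m) K := by
    have h4 := reflect_pad hK (2 * (N - m))
    have h5 : 2 * (N - m) + 2 * m = 2 * N := by omega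
    rw [h5] at h4
    rw [h4, ← pow_mul, mul_comm 2 (N - m)]
  rw [reflect_sub, h2, h3] at h1
  set G := reflect n g with hG
  have hG0 : G.coeff 0 ≠ 0 := by
    rw [hG, coeff_reflect, revAt_le (Nat.zero_le _), Nat.sub_zero]
    exact hgn
  have hcop : IsCoprime G (X ^ (N - m)) := by
    apply IsCoprime.pow_right
    rw [isCoprime_comm]
    exact (irreducible_X.coprime_iff_not_dvd).2 (by rwa [X_dvd_iff])
  obtain ⟨u, v, huv⟩ := hcop
  refine ⟨v * reflect N q, v ^ 2 * reflect (2 * N - n) r -
    reflect (2 * m) K * u * (v * X ^ (N - m) + 1), ?_⟩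
  have h6 : reflect N q ^ 2 = G * reflect (2 * N - n) r + (X ^ (N - m)) ^ 2 * reflect (2 * m) K := by
    linear_combination h1
  rw [mul_pow, h6]
  linear_combination (reflect (2 * m) K * (v * X ^ (N - m) + 1)) * huv

/-- squares and a shift -/
lemma shift_sq {g K : ℚ[X]} (c : ℚ) (h : ∃ q : ℚ[X], g ∣ q ^ 2 - K) :
    ∃ q : ℚ[X], g.comp (X + C c) ∣ q ^ 2 - K.comp (X + C c) := by
  obtain ⟨q, r, hr⟩ := h
  refine ⟨q.comp (X + C c), r.comp (X + C c), ?_⟩
  rw [← mul_comp, ← hr, sub_comp, pow_comp]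

lemma map_mob (c : ℤ) (n : ℕ) (f : ℤ[X]) : (mob c n f).map (Int.castRingHom ℚ) =
    reflect n ((f.map (Int.castRingHom ℚ)).comp (X + C (c : ℚ))) := by
  unfold mob
  have h1 : ∀ g : ℤ[X], (reflect n g).map (Int.castRingHom ℚ) =
      reflect n (g.map (Int.castRingHom ℚ)) := by
    intro g
    ext i
    rw [coeff_map, coeff_reflect, coeff_reflect, coeff_map]
  rw [h1, Polynomial.map_comp]
  simp

/-- squares modulo `f` and the change of the coordinates -/
lemma mob_sq {f k : ℤ[X]} {c : ℤ} {n m : ℕ} (hf : f.natDegree = n) (hf0 : f ≠ 0)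
    (hc : f.eval c ≠ 0) (hk : k.natDegree ≤ 2 * m) :
    (∃ q : ℚ[X], f.map (Int.castRingHom ℚ) ∣ q ^ 2 - k.map (Int.castRingHom ℚ)) ↔
    (∃ q : ℚ[X], (mob c n f).map (Int.castRingHom ℚ) ∣
      q ^ 2 - (mob c (2 * m) k).map (Int.castRingHom ℚ)) := by
  have hinj : Function.Injective (Int.castRingHom ℚ) := Int.cast_injective
  rw [map_mob, map_mob]
  set F := f.map (Int.castRingHom ℚ) with hF
  set K := k.map (Int.castRingHom ℚ) with hK
  have dF : F.natDegree = n := by rw [hF, natDegree_map_eq_of_injective hinj, hf]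
  have dK : K.natDegree ≤ 2 * m := by rw [hK, natDegree_map_eq_of_injective hinj]; exact hk
  have dF' : (F.comp (X + C (c : ℚ))).natDegree = n := by
    rw [natDegree_comp, natDegree_X_add_C, mul_one, dF]
  have dK' : (K.comp (X + C (c : ℚ))).natDegree ≤ 2 * m := by
    rw [natDegree_comp, natDegree_X_add_C, mul_one]
    exact dK
  have hF0 : F.comp (X + C (c : ℚ)) ≠ 0 := by
    intro h
    rw [comp_eq_zero_iff] at h
    rcases h with h | h
    · rw [hF, Polynomial.map_eq_zero_iff hinj] at h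
      exact hf0 h
    · have h1 := congrArg natDegree h.2
      rw [natDegree_X_add_C, natDegree_C] at h1
      exact one_ne_zero h1
  have lF' : (F.comp (X + C (c : ℚ))).coeff n ≠ 0 := by
    rw [← dF']
    exact leadingCoeff_ne_zero.2 hF0
  have hback : ∀ P : ℚ[X], (P.comp (X + C (c : ℚ))).comp (X + C (-(c : ℚ))) = P := by
    intro P
    rw [comp_assoc]
    have : (X + C (c : ℚ)).comp (X + C (-(c : ℚ))) = X := by
      rw [add_comp, X_comp, C_comp, add_assoc, ← C_add]
      simp
    rw [this, comp_X]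
  have hrr : ∀ (N : ℕ) (P : ℚ[X]), reflect N (reflect N P) = P := by
    intro N P
    ext i
    rw [coeff_reflect, coeff_reflect, revAt_invol]
  constructor
  · intro h
    exact reflect_sq dF'.le lF' dK' (shift_sq (c : ℚ) h)
  · intro h
    have h1 : ∀ (N : ℕ) (P : ℚ[X]), (reflect N P).natDegree ≤ max N P.natDegree := by
      intro N P
      exact natDegree_reflect_le
    have h2 := reflect_sq (n := n) (m := m) (g := reflect n (F.comp (X + C (c : ℚ))))
      (K := reflect (2 * m) (K.comp (X + C (c : ℚ)))) ((h1 _ _).trans (by rw [dF']; simp))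
      (by
        rw [coeff_reflect, revAt_le le_rfl, Nat.sub_self, coeff_zero_eq_eval_zero, eval_comp]
        simp only [eval_add, eval_X, eval_C, zero_add]
        rw [hF, eval_intCast_map]
        simpa using hc)
      ((h1 _ _).trans (by rw [max_eq_left dK'])) h
    rw [hrr, hrr] at h2
    have h3 := shift_sq (-(c : ℚ)) h2
    rwa [hback, hback] at h3

end Pool.Agent.K7.H54.HR
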