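import Pool.Agent.K7.H54.HR.MdlR
import Pool.Agent.K7.H54.HR.Sqt
import Pool.Agent.K7.H54.HR.Avg
import Pool.Agent.TH841.TR.Fin

/-!
# Project HR: the average over the coprime pairs
-/

set_option autoImplicit false
set_option linter.all false

namespace Pool.Agent.K7.H54.HR

open Finset Polynomial Pool.Agent.W262.RK Pool.Agent.W307.RT Pool.Agent.TH841.PT
open Pool.Agent.R421.HF
open Pool.Agent.R421.UR
open Pool.Agent.W307.SE (SN SN_nonneg)

section

variable {J : Type} [Fintype J] [DecidableEq J]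

/-- the hypotheses, with a possible point at infinity -/
structure PJ (cls : J → Fin 4) (a : Fin 3 → ℤ) (f : J → ℤ[X]) (n e : J → ℕ) (m : ℕ) : Prop where
  c3 : ∀ j, cls j ≠ 3
  ha : ∀ k, a k ≠ 0
  kind : ∀ j, (Irreducible (f j) ∧ 0 < (f j).natDegree ∧ n j = (f j).natDegree) ∨
    (f j = 1 ∧ n j = 1)
  assoc : ∀ j l, j ≠ l → ¬ Associated (f j) (f l)
  he : ∀ j, 1 ≤ e j
  deg : ∀ k, ∑ l ∈ fc cls k, e l * n l = 2 * m
  rel : uu cls a f e 0 - uu cls a f e 1 = uu cls a f e 2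

/-- the values of the binary forms -/
def Uw (cls : J → Fin 4) (a : Fin 3 → ℤ) (f : J → ℤ[X]) (n e : J → ℕ) (x y : ℤ) (k : Fin 3) : ℤ :=
  FM cls a e (fun l => hv (n l) (f l) x y) k

variable {cls : J → Fin 4} {a : Fin 3 → ℤ} {f : J → ℤ[X]} {n e : J → ℕ} {m : ℕ}

lemma PJ.ndeg (h : PJ cls a f n e m) (j : J) : (f j).natDegree ≤ n j := by
  rcases h.kind j with h1 | h1
  · exact h1.2.2.ge
  · rw [h1.1, natDegree_one]
    exact Nat.zero_le _

lemma PJ.npos (h : PJ cls a f n e m) (j : J) : 0 < n j := by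
  rcases h.kind j with h1 | h1
  · rw [h1.2.2]
    exact h1.2.1
  · rw [h1.2]
    exact one_pos

lemma PJ.ne (h : PJ cls a f n e m) (j : J) : f j ≠ 0 := by
  rcases h.kind j with h1 | h1
  · exact h1.1.ne_zero
  · rw [h1.1]
    exact one_ne_zero

lemma PJ.Uw_eq (h : PJ cls a f n e m) (x y : ℤ) (k : Fin 3) :
    Uw cls a f n e x y k = hv (2 * m) (uu cls a f e k) x y := by
  unfold Uw FM uu
  rw [hv_C_mul, ← h.deg k, hv_prod _ _ _ _ fun i _ => h.ndeg i]

lemma PJ.uu_deg (h : PJ cls a f n e m) (k : Fin 3) : (uu cls a f e k).natDegree ≤ 2 * m := by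
  unfold uu
  refine (natDegree_C_mul_le _ _).trans ((natDegree_prod_le _ _).trans ?_)
  rw [← h.deg k]
  exact sum_le_sum fun i _ => natDegree_pow_le_of_le _ (h.ndeg i)

lemma PJ.kp_deg (h : PJ cls a f n e m) (j : J) : (kp cls a f e j).natDegree ≤ 2 * m :=
  (natDegree_C_mul_le _ _).trans (h.uu_deg _)

/-- a point that is not a root -/
lemma PJ.exists_c (h : PJ cls a f n e m) : ∃ c : ℤ, ∀ j, (f j).eval c ≠ 0 := by
  have h0 : (∏ j, f j) ≠ 0 := prod_ne_zero_iff.2 fun j _ => h.ne j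
  obtain ⟨c, hc⟩ := Infinite.exists_notMem_finset (∏ j, f j).roots.toFinset
  refine ⟨c, fun j hj => hc ?_⟩
  rw [Multiset.mem_toFinset, mem_roots h0, IsRoot.def, eval_prod]
  exact prod_eq_zero (mem_univ j) hj

/-- the new polynomials -/
noncomputable def nf (c : ℤ) (f : J → ℤ[X]) (n : J → ℕ) (j : J) : ℤ[X] := mob c (n j) (f j)

variable {c : ℤ}

lemma nf_deg (h : PJ cls a f n e m) (hc : ∀ j, (f j).eval c ≠ 0) (j : J) :
    (nf c f n j).natDegree = n j := mob_deg (h.ndeg j) (hc j)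

lemma Uv_nf (h : PJ cls a f n e m) (hc : ∀ j, (f j).eval c ≠ 0) (x y : ℤ) (k : Fin 3) :
    Uv cls a (nf c f n) e x y k = Uw cls a f n e (y + c * x) x k := by
  unfold Uv Uw FM fh
  congr 1
  refine prod_congr rfl fun l _ => ?_
  rw [nf_deg h hc]
  unfold nf
  rw [hv_mob (h.ndeg l)]

lemma assoc_back {n n' : ℕ} {P Q : ℤ[X]} (hP : P.natDegree ≤ n) (hQ : Q.natDegree ≤ n')
    (hPc : P.eval c ≠ 0) (hQc : Q.eval c ≠ 0) (h : Associated (mob c n P) (mob c n' Q)) :
    Associated P Q := by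
  obtain ⟨u, hu⟩ := h
  have hud : (u : ℤ[X]).natDegree = 0 := natDegree_eq_zero_of_isUnit u.isUnit
  have hu0 : (u : ℤ[X]) ≠ 0 := u.ne_zero
  have hm0 : mob c n P ≠ 0 := by
    intro h0
    have := mob_coeff (n := n) (f := P) c
    rw [h0, coeff_zero] at this
    exact hPc this.symm
  have hnn : n = n' := by
    have h1 := congrArg natDegree hu
    rw [natDegree_mul hm0 hu0, hud, add_zero, mob_deg hP hPc, mob_deg hQ hQc] at h1
    exact h1
  subst hnn
  have h2 := congrArg (reflect (n + 0)) hu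
  rw [reflect_mul _ _ (mob_deg_le hP c) hud.le, add_zero] at h2
  unfold mob at h2
  rw [reflect_refl, reflect_refl] at h2
  have h3 : reflect 0 (u : ℤ[X]) = u := by
    rw [eq_C_of_natDegree_eq_zero hud]
    ext i
    rw [coeff_reflect]
    by_cases hi : i = 0
    · subst hi
      simp [revAt_le le_rfl]
    · rw [revAt_eq_self_of_lt (Nat.pos_of_ne_zero hi)]
  rw [h3] at h2
  have hback : ∀ R : ℤ[X], (R.comp (X + C c)).comp (X + C (-c)) = R := by
    intro R
    rw [comp_assoc]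
    have : (X + C c).comp (X + C (-c)) = X := by
      rw [add_comp, X_comp, C_comp, add_assoc, ← C_add]
      simp
    rw [this, comp_X]
  have h4 := congrArg (fun R : ℤ[X] => R.comp (X + C (-c))) h2
  simp only [mul_comp, hback] at h4
  refine ⟨u, ?_⟩
  rw [← h4]
  congr 1
  conv_rhs => rw [eq_C_of_natDegree_eq_zero hud, C_comp]
  exact eq_C_of_natDegree_eq_zero hud

lemma nf_irr (h : PJ cls a f n e m) (hc : ∀ j, (f j).eval c ≠ 0) : Irr (nf c f n) := by
  refine ⟨fun j => ?_, fun j => ?_, fun j l hjl hass => ?_⟩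
  · rcases h.kind j with h1 | h1
    · unfold nf mob
      have h2 := irr_reflect (irr_shift h1.1 c) (by rw [natDegree_shift]; exact h1.2.1) (by
        rw [coeff_zero_eq_eval_zero, eval_comp]
        simpa using hc j)
      rw [natDegree_shift] at h2
      rw [h1.2.2]
      exact h2
    · unfold nf mob
      rw [h1.1, h1.2, one_comp]
      have : reflect 1 (1 : ℤ[X]) = X := by
        ext i
        rw [coeff_reflect, coeff_one, coeff_X]
        by_cases hi : i = 1
        · subst hi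
          simp [revAt_le le_rfl]
        · by_cases hi0 : i = 0
          · subst hi0
            simp [revAt_le (Nat.zero_le 1)]
          · rw [revAt_eq_self_of_lt (by omega), if_neg hi0, if_neg (Ne.symm hi)]
      rw [this]
      exact irreducible_X
  · rw [nf_deg h hc]
    exact h.npos j
  · exact h.assoc j l hjl (assoc_back (h.ndeg j) (h.ndeg l) (hc j) (hc l) hass)

lemma PJ.Uw_sub (h : PJ cls a f n e m) (x y : ℤ) :
    Uw cls a f n e x y 0 - Uw cls a f n e x y 1 = Uw cls a f n e x y 2 := by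
  rw [h.Uw_eq, h.Uw_eq, h.Uw_eq, ← hv_sub, h.rel]

lemma nf_HH (h : PJ cls a f n e m) (hc : ∀ j, (f j).eval c ≠ 0) : HH cls a (nf c f n) e m where
  c3 := h.c3
  ha := h.ha
  hf := nf_irr h hc
  he := h.he
  deg := by
    intro k
    rw [← h.deg k]
    exact sum_congr rfl fun l _ => by rw [nf_deg h hc]
  rel := by
    apply Polynomial.funext
    intro T
    rw [eval_sub, ← Uv_one, ← Uv_one, ← Uv_one, Uv_nf h hc, Uv_nf h hc, Uv_nf h hc, h.Uw_sub]

lemma nf_kp (h : PJ cls a f n e m) (hc : ∀ j, (f j).eval c ≠ 0) (j : J) :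
    kp cls a (nf c f n) e j = mob c (2 * m) (kp cls a f e j) := by
  apply Polynomial.funext
  intro T
  have h1 : (mob c (2 * m) (kp cls a f e j)).eval T = hv (2 * m) (kp cls a f e j) (1 + c * T) T := by
    rw [← hv_one (mob_deg_le (h.kp_deg j) c), hv_mob (h.kp_deg j)]
  have h2 : (kp cls a (nf c f n) e j).eval T =
      sgM (cls j) * Uw cls a f n e (1 + c * T) T (cpM (cls j)) := by
    rw [← Uv_nf h hc, Uv_one]
    unfold kp
    rw [eval_mul, eval_C]
  rw [h1, h2, h.Uw_eq]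
  unfold kp
  rw [hv_C_mul]

lemma dd_pos (e : J → ℕ) (sp : J → Bool) (j : J) : 0 < dd e sp j := by
  unfold dd
  split_ifs <;> norm_num

/-- the squares -/
def SqJ (cls : J → Fin 4) (a : Fin 3 → ℤ) (f : J → ℤ[X]) (e : J → ℕ) (m : ℕ) (j : J) : Prop :=
  (f j = 1 ∧ IsSquare (((kp cls a f e j).coeff (2 * m) : ℤ) : ℚ)) ∨
    (f j ≠ 1 ∧ ∃ q : ℚ[X], mQ (f j) ∣ q ^ 2 - mQ (kp cls a f e j))

lemma SqJ_iff (h : PJ cls a f n e m) (hc : ∀ j, (f j).eval c ≠ 0) (j : J) :
    SqJ cls a f e m j ↔ ∃ q : ℚ[X], mQ (nf c f n j) ∣ q ^ 2 - mQ (kp cls a (nf c f n) e j) := by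
  unfold SqJ
  rw [nf_kp h hc]
  rcases h.kind j with h1 | h1
  · have hne : f j ≠ 1 := by
      intro h2
      have := h1.2.1
      rw [h2, natDegree_one] at this
      exact lt_irrefl _ this
    have h2 := mob_sq (f := f j) (k := kp cls a f e j) (c := c) (n := n j) (m := m)
      h1.2.2.symm (h.ne j) (hc j) (h.kp_deg j)
    unfold mQ nf
    rw [← h2]
    simp [hne]
  · have hX : nf c f n j = X := by
      unfold nf mob
      rw [h1.1, h1.2, one_comp]
      ext i
      rw [coeff_reflect, coeff_one, coeff_X]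
      by_cases hi : i = 1
      · subst hi
        simp [revAt_le le_rfl]
      · by_cases hi0 : i = 0
        · subst hi0
          simp [revAt_le (Nat.zero_le 1)]
        · rw [revAt_eq_self_of_lt (by omega), if_neg hi0, if_neg (Ne.symm hi)]
    rw [hX]
    unfold mQ
    rw [Polynomial.map_X]
    have hcf : (mob c (2 * m) (kp cls a f e j)).coeff 0 = (kp cls a f e j).coeff (2 * m) := by
      unfold mob
      rw [coeff_reflect, revAt_le (Nat.zero_le _), Nat.sub_zero]
      rcases (h.kp_deg j).lt_or_eq with h3 | h3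
      · rw [coeff_eq_zero_of_natDegree_lt h3,
          coeff_eq_zero_of_natDegree_lt (by rwa [natDegree_shift])]
      · have h4 : ((kp cls a f e j).comp (X + C c)).leadingCoeff =
            (kp cls a f e j).leadingCoeff := by
          rw [leadingCoeff_comp (by rw [natDegree_X_add_C]; norm_num), leadingCoeff_X_add_C,
            one_pow, mul_one]
        unfold leadingCoeff at h4
        rw [natDegree_shift, h3] at h4
        exact h4
    have key : ∀ q : ℚ[X], X ∣ q ^ 2 - (mob c (2 * m) (kp cls a f e j)).map (Int.castRingHom ℚ) ↔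
        q.coeff 0 ^ 2 = (((kp cls a f e j).coeff (2 * m) : ℤ) : ℚ) := by
      intro q
      rw [X_dvd_iff, coeff_sub, coeff_map, hcf, sq, mul_coeff_zero, sq, sub_eq_zero]
      rfl
    simp only [h1.1, true_and, ne_eq, not_true_eq_false, false_and, or_false, key]
    constructor
    · rintro ⟨r, hr⟩
      exact ⟨C r, by rw [coeff_C_zero, hr, sq]⟩
    · rintro ⟨q, hq⟩
      exact ⟨q.coeff 0, by rw [← hq, sq]⟩

open Classical in
/-- back to the original variables -/
lemma transfer (h : PJ cls a f n e m) (hc : ∀ j, (f j).eval c ≠ 0) {z c' : ℕ} {α C : ℝ}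
    (hC : ∀ T : ℕ, 1 ≤ T → ∀ S : Finset (ℤ × ℤ), S ⊆ Box T →
      (∀ t ∈ S, IsCoprime t.1 t.2 ∧ ∀ j, (fam cls a (nf c f n) e z c').F t.1 t.2 j ≠ 0) →
      ∑ t ∈ S, SN ((fam cls a (nf c f n) e z c').A t.1 t.2)
        ((fam cls a (nf c f n) e z c').B t.1 t.2) ^ α ≤ C * (T : ℝ) ^ 2) (T : ℕ) (hT : 1 ≤ T) :
      ∑ t ∈ (Box T).filter (fun t : ℤ × ℤ => IsCoprime t.1 t.2 ∧
          ∀ j, hv (n j) (f j) t.1 t.2 ≠ 0),
        SN (Uw cls a f n e t.1 t.2 0) (Uw cls a f n e t.1 t.2 1) ^ α ≤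
          C * (1 + c.natAbs : ℕ) ^ 2 * (T : ℝ) ^ 2 := by
  set D := fam cls a (nf c f n) e z c' with hD
  obtain ⟨φ, hφ⟩ : ∃ φ : ℤ × ℤ → ℤ × ℤ, ∀ t, φ t = (t.2, t.1 - c * t.2) := ⟨_, fun t => rfl⟩
  have hφi : Function.Injective φ := by
    intro t t' htt
    rw [hφ, hφ, Prod.mk.injEq] at htt
    refine Prod.ext ?_ htt.1
    have := htt.2
    rw [htt.1] at this
    linarith
  have hkey : ∀ t : ℤ × ℤ, (φ t).2 + c * (φ t).1 = t.1 ∧ (φ t).1 = t.2 := by
    intro t
    rw [hφ]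
    exact ⟨by ring, rfl⟩
  have hval : ∀ (t : ℤ × ℤ) (k : Fin 3), Uv cls a (nf c f n) e (φ t).1 (φ t).2 k =
      Uw cls a f n e t.1 t.2 k := by
    intro t k
    rw [Uv_nf h hc, (hkey t).1, (hkey t).2]
  have h1 := hC ((1 + c.natAbs) * T) (Nat.mul_pos (by omega) hT)
    (((Box T).filter (fun t : ℤ × ℤ => IsCoprime t.1 t.2 ∧
      ∀ j, hv (n j) (f j) t.1 t.2 ≠ 0)).image φ) (by
      intro s hs
      obtain ⟨t, ht, rfl⟩ := mem_image.1 hs
      have h2 := mem_Box.1 (mem_filter.1 ht).1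
      rw [mem_Box, hφ]
      have h3 : (t.1 - c * t.2).natAbs ≤ t.1.natAbs + c.natAbs * t.2.natAbs := by
        rw [← Int.natAbs_mul]
        exact Int.natAbs_sub_le _ _
      have h4 : c.natAbs * t.2.natAbs ≤ c.natAbs * T := Nat.mul_le_mul_left _ h2.2
      constructor
      · exact h2.2.trans (Nat.le_mul_of_pos_left T (by omega))
      · refine h3.trans ((add_le_add h2.1 h4).trans (le_of_eq ?_))
        ring) (by
      intro s hs
      obtain ⟨t, ht, rfl⟩ := mem_image.1 hs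
      have h2 := (mem_filter.1 ht).2
      constructor
      · rw [hφ]
        simp only
        have h3 : IsCoprime t.2 t.1 := h2.1.symm
        have h4 : t.1 - c * t.2 = t.1 + (-c) * t.2 := by ring
        rw [h4]
        exact h3.add_mul_right_right _
      · intro j
        have h3 : D.F (φ t).1 (φ t).2 j = hv (n j) (f j) t.1 t.2 := by
          rw [hD]
          simp only [fam]
          unfold fh
          rw [nf_deg h hc]
          unfold nf
          rw [hv_mob (h.ndeg j), (hkey t).1, (hkey t).2]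
        rw [h3]
        exact h2.2 j)
  rw [sum_image (fun _ _ _ _ h => hφi h)] at h1
  refine (le_of_eq ?_).trans (h1.trans (le_of_eq ?_))
  · refine sum_congr rfl fun t _ => ?_
    rw [← hval t 0, ← hval t 1]
    rfl
  · push_cast
    ring

open Classical in
/-- **the average over the coprime pairs** -/
theorem core (h : PJ cls a f n e m) (sp : J → Bool)
    (hsp : ∀ j, sp j = true ↔ SqJ cls a f e m j)
    (hw : ∀ k : Fin 4, k ≠ 3 → Wc cls (sg1 sp) k < Wo cls (dd e sp) - Wc cls (dd e sp) k) :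
    ∃ α : ℝ, 0 < α ∧ α ≤ 1 ∧ ∃ C : ℝ, 0 ≤ C ∧ ∀ T : ℕ, 1 ≤ T →
      ∑ t ∈ (Box T).filter (fun t : ℤ × ℤ => IsCoprime t.1 t.2 ∧
          ∀ j, hv (n j) (f j) t.1 t.2 ≠ 0),
        SN (Uw cls a f n e t.1 t.2 0) (Uw cls a f n e t.1 t.2 1) ^ α ≤ C * (T : ℝ) ^ 2 := by
  obtain ⟨c, hc⟩ := h.exists_c
  have hH := nf_HH h hc
  obtain ⟨z, hz⟩ := exists_ZZ GDPf.gdp hH.hf h.ha ((∏ j, nf c f n j).natDegree + 1) le_rfl
  have hG := hz z le_rfl
  have hm := mdlR Pool.Agent.TH841.TR.h1l Pool.Agent.TH841.PT.twg hH sp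
    (fun j hj q hq => by
      have h1 : SqJ cls a f e m j := (SqJ_iff h hc j).2 ⟨q, by simpa using hq⟩
      rw [← hsp, hj] at h1
      exact Bool.false_ne_true h1)
    (fun j hj => (SqJ_iff h hc j).1 ((hsp j).1 hj)) hG
  obtain ⟨α, hα0, hα1, C, hC0, hC⟩ := avgS (fam cls a (nf c f n) e z
    ((∏ j, nf c f n j).natDegree + 1)) (fam_ok hH hG) (dd e sp) (sg1 sp) (dd_pos e sp)
    (fun j => by unfold sg1; split_ifs <;> norm_num) hw hm
  exact ⟨α, hα0, hα1, C * (1 + c.natAbs : ℕ) ^ 2, by positivity, transfer h hc hC⟩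

end

end Pool.Agent.K7.H54.HR
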