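import Pool.Agent.K7.H54.HR.Frm

/-!
# Project HR: the family of a pair of binary forms, the hypotheses
-/

set_option autoImplicit false
set_option linter.all false

namespace Pool.Agent.K7.H54.HR

open Finset Polynomial Pool.Agent.W262.RK Pool.Agent.W307.RT Pool.Agent.TH841.PT
open Pool.Agent.R421.HF

open Pool.Agent.H474R2.PG (rho)
open Pool.Agent.R421.HF (NeuM)

section

variable {J : Type} [Fintype J] [DecidableEq J]

variable {cls : J → Fin 4} {a : Fin 3 → ℤ} {f : J → ℤ[X]} {e : J → ℕ} {m z c : ℕ}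

/-- the type of a prime at a pair -/
def tyj (cls : J → Fin 4) (a : Fin 3 → ℤ) (f : J → ℤ[X]) (e : J → ℕ) (j : J) (p : ℕ) (x y : ℤ) :
    Option Ty := tyo (e j) (sg0 p (kv cls a f e j x y))

/-- the roots of a given type -/
def Rtt (cls : J → Fin 4) (a : Fin 3 → ℤ) (f : J → ℤ[X]) (e : J → ℕ) (i : J × Ty) (p : ℕ) :
    Finset ℕ := (range p).filter (fun x : ℕ => (p : ℤ) ∣ (f i.1).eval (x : ℤ) ∧
      tyj cls a f e i.1 p x 1 = some i.2)

/-- the family -/
def fam (cls : J → Fin 4) (a : Fin 3 → ℤ) (f : J → ℤ[X]) (e : J → ℕ) (z c : ℕ) : RFam J where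
  F x y j := fh f x y j
  cls := cls
  A x y := Uv cls a f e x y 0
  B x y := Uv cls a f e x y 1
  κ := 0
  z1 := z
  c := c
  dg := ∑ j, (f j).natDegree
  ty j p x y := tyj cls a f e j p x y
  nr i p := if p.Prime ∧ z < p then (Rtt cls a f e i p).card else 0

lemma tyj_cong (h : HH cls a f e m) {p : ℕ} {x x' y y' : ℤ} (hx : (p : ℤ) ∣ x - x')
    (hy : (p : ℤ) ∣ y - y') (j : J) : tyj cls a f e j p x y = tyj cls a f e j p x' y' := by
  unfold tyj
  rw [sg0_congr (h.kv_cong hx hy j)]

lemma tyj_scale (h : HH cls a f e m) {p : ℕ} (hp : p.Prime) {x y t : ℤ} (hy : ¬ (p : ℤ) ∣ y)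
    (ht : (p : ℤ) ∣ x - t * y) (j : J) : tyj cls a f e j p x y = tyj cls a f e j p t 1 := by
  unfold tyj
  rw [h.kv_scale hp hy ht j, h.kv_scale (t := t) hp
    (fun h1 => (Nat.prime_iff_prime_int.1 hp).not_dvd_one h1) (by simp) j]

/-- the number of the roots on a line -/
lemma card_line (h : HH cls a f e m) {p : ℕ} (hp : p.Prime) {w : ℤ} (N : ℤ)
    (hw : ¬ (p : ℤ) ∣ w) (i : J × Ty) :
    ((range p).filter (fun n : ℕ => (p : ℤ) ∣ fh f ((n : ℤ) - N) w i.1 ∧
      tyj cls a f e i.1 p ((n : ℤ) - N) w = some i.2)).card = (Rtt cls a f e i p).card := by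
  have hp0 : (0 : ℤ) < p := by exact_mod_cast hp.pos
  have hpi := Nat.prime_iff_prime_int.1 hp
  obtain ⟨v, hv⟩ := exists_ratio hp 1 1 hw
  rw [pow_one] at hv
  -- `v` is the inverse of `w`
  have hr : ∀ a : ℤ, (((a % p).toNat : ℕ) : ℤ) = a % p := fun a =>
    Int.toNat_of_nonneg (Int.emod_nonneg a hp0.ne')
  have hr2 : ∀ a : ℤ, (a % p).toNat < p := by
    intro a
    have := Int.emod_lt_of_pos a hp0
    have := hr a
    omega
  have hm : ∀ a : ℤ, (p : ℤ) ∣ a - a % p := fun a =>
    ⟨a / p, by have := Int.emod_add_mul_ediv a p; linarith⟩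
  have key : ∀ x t : ℤ, (p : ℤ) ∣ x - t * w → ((p : ℤ) ∣ fh f x w i.1 ∧
      tyj cls a f e i.1 p x w = some i.2 ↔ (p : ℤ) ∣ (f i.1).eval t ∧
      tyj cls a f e i.1 p t 1 = some i.2) := by
    intro x t hxt
    rw [root_of1 hp hw hxt, tyj_scale h hp hw hxt]
  have key2 : ∀ t t' : ℤ, (p : ℤ) ∣ t - t' → ((p : ℤ) ∣ (f i.1).eval t ∧
      tyj cls a f e i.1 p t 1 = some i.2 ↔ (p : ℤ) ∣ (f i.1).eval t' ∧
      tyj cls a f e i.1 p t' 1 = some i.2) := by
    intro t t' htt
    rw [tyj_cong h htt (by simp : (p : ℤ) ∣ 1 - 1)]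
    refine and_congr ?_ Iff.rfl
    have h1 := htt.trans (Polynomial.sub_dvd_eval_sub t t' (f i.1))
    constructor
    · intro h2
      have := dvd_sub h2 h1
      rwa [sub_sub_cancel] at this
    · intro h2
      have := dvd_add h1 h2
      rwa [sub_add_cancel] at this
  refine card_bij' (fun n _ => ((((n : ℤ) - N) * v) % p).toNat)
    (fun t _ => (((t : ℤ) * w + N) % p).toNat) ?_ ?_ ?_ ?_
  · intro n hn
    obtain ⟨h1, h2⟩ := mem_filter.1 hn
    unfold Rtt
    rw [mem_filter, mem_range, hr]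
    refine ⟨hr2 _, (key2 _ _ (hm _)).1 ((key _ _ ?_).1 h2)⟩
    have : ((n : ℤ) - N) - ((n : ℤ) - N) * v * w = ((n : ℤ) - N) * (1 - v * w) := by ring
    rw [this]
    exact hv.mul_left _
  · intro t ht
    unfold Rtt at ht
    obtain ⟨h1, h2⟩ := mem_filter.1 ht
    rw [mem_filter, mem_range, hr]
    refine ⟨hr2 _, (key _ (t : ℤ) ?_).2 h2⟩
    have h3 := hm ((t : ℤ) * w + N)
    have : ((t : ℤ) * w + N) % p - N - (t : ℤ) * w =
      -(((t : ℤ) * w + N) - ((t : ℤ) * w + N) % p) := by ring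
    rw [this]
    exact h3.neg_right
  · intro n hn
    have h1 := mem_range.1 (mem_filter.1 hn).1
    have h2 := hr (((n : ℤ) - N) * v)
    have h3 := hr ((((((n : ℤ) - N) * v) % p).toNat : ℤ) * w + N)
    have h4 : (((((((((n : ℤ) - N) * v) % p).toNat : ℕ) : ℤ) * w + N) % p).toNat : ℤ) = n := by
      rw [h3, h2]
      have h5 : (p : ℤ) ∣ ((((n : ℤ) - N) * v) % p * w + N) - n := by
        have h6 := hm (((n : ℤ) - N) * v)
        have : ((((n : ℤ) - N) * v) % p * w + N) - n =
            -((((n : ℤ) - N) * v - (((n : ℤ) - N) * v) % p) * w) -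
              ((n : ℤ) - N) * (1 - v * w) := by ring
        rw [this]
        exact dvd_sub ((h6.mul_right w).neg_right) (hv.mul_left _)
      rw [(Int.emod_emod_of_dvd _ dvd_rfl).symm, Int.emod_emod_of_dvd _ dvd_rfl,
        (Int.emod_eq_emod_iff_emod_sub_eq_zero).2 (Int.emod_eq_zero_of_dvd h5),
        Int.emod_eq_of_lt (by positivity) (by exact_mod_cast h1)]
    exact_mod_cast h4
  · intro t ht
    unfold Rtt at ht
    have h1 := mem_range.1 (mem_filter.1 ht).1
    have h2 := hr ((t : ℤ) * w + N)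
    have h3 := hr ((((((t : ℤ) * w + N) % p).toNat : ℤ) - N) * v)
    have h4 : (((((((((t : ℤ) * w + N) % p).toNat : ℕ) : ℤ) - N) * v) % p).toNat : ℤ) = t := by
      rw [h3, h2]
      have h5 : (p : ℤ) ∣ ((((t : ℤ) * w + N) % p - N) * v) - t := by
        have h6 := hm ((t : ℤ) * w + N)
        have : ((((t : ℤ) * w + N) % p - N) * v) - t =
            -((((t : ℤ) * w + N) - ((t : ℤ) * w + N) % p) * v) - (t : ℤ) * (1 - v * w) := by ring
        rw [this]
        exact dvd_sub ((h6.mul_right v).neg_right) (hv.mul_left _)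
      rw [(Int.emod_emod_of_dvd _ dvd_rfl).symm, Int.emod_emod_of_dvd _ dvd_rfl,
        (Int.emod_eq_emod_iff_emod_sub_eq_zero).2 (Int.emod_eq_zero_of_dvd h5),
        Int.emod_eq_of_lt (by positivity) (by exact_mod_cast h1)]
    exact_mod_cast h4

lemma Rtt_sum (hG : Gp a f z c) {p : ℕ} (hp : p.Prime) (hz : z < p) :
    ∑ i : J × Ty, (Rtt cls a f e i p).card ≤ c := by
  have h1 := (hG.good p hp hz).1
  rw [rho_prod hG hp hz] at h1
  rw [Fintype.sum_prod_type]
  refine le_trans (sum_le_sum fun j _ => ?_) h1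
  unfold rho
  have h2 : ∑ θ : Ty, (Rtt cls a f e (j, θ) p).card =
      ((univ : Finset Ty).biUnion fun θ => Rtt cls a f e (j, θ) p).card := by
    rw [card_biUnion]
    intro θ _ θ' _ hne
    rw [Function.onFun, disjoint_left]
    intro x hx hx'
    unfold Rtt at hx hx'
    apply hne
    have e1 := (mem_filter.1 hx).2.2
    have e2 := (mem_filter.1 hx').2.2
    exact Option.some.inj (e1.symm.trans e2)
  rw [h2]
  apply card_le_card
  intro x hx
  obtain ⟨θ, _, hx⟩ := mem_biUnion.1 hx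
  unfold Rtt at hx
  have h3 := mem_filter.1 hx
  exact mem_filter.2 ⟨h3.1, h3.2.1⟩

/-- the valuation of a product with one factor divisible by `p` -/
lemma val_prod {p : ℕ} (hp : p.Prime) {s : Finset J} {j : J} (hj : j ∈ s) {b : ℤ} {x : J → ℤ}
    (hx : ∀ l ∈ s, x l ≠ 0) (hb0 : b ≠ 0) (hb : ¬ (p : ℤ) ∣ b)
    (hl : ∀ l ∈ s, l ≠ j → ¬ (p : ℤ) ∣ x l) :
    padicValInt p (b * ∏ l ∈ s, x l ^ e l) = e j * padicValInt p (x j) := by
  haveI := Fact.mk hp
  have hz : ∀ y : ℤ, ¬ (p : ℤ) ∣ y → padicValInt p y = 0 := fun y hy =>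
    padicValInt.eq_zero_of_not_dvd hy
  have h1 : (∏ l ∈ s, x l ^ e l) = x j ^ e j * ∏ l ∈ s.erase j, x l ^ e l :=
    (mul_prod_erase s (fun l => x l ^ e l) hj).symm
  have h2 : ¬ (p : ℤ) ∣ ∏ l ∈ s.erase j, x l ^ e l := by
    intro hd
    obtain ⟨l, hl1, hl2⟩ := ((Nat.prime_iff_prime_int.1 hp).dvd_finsetProd_iff _).1 hd
    exact hl l (mem_of_mem_erase hl1) (ne_of_mem_erase hl1)
      ((Nat.prime_iff_prime_int.1 hp).dvd_of_dvd_pow hl2)
  have h3 : ∏ l ∈ s.erase j, x l ^ e l ≠ 0 := fun h0 => h2 (by rw [h0]; exact dvd_zero _)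
  have h4 : x j ^ e j ≠ 0 := pow_ne_zero _ (hx j hj)
  rw [h1, padicValInt.mul hb0 (mul_ne_zero h4 h3), padicValInt.mul h4 h3, hz b hb, hz _ h2,
    zero_add, add_zero]
  have h5 : ∀ n : ℕ, padicValInt p (x j ^ n) = n * padicValInt p (x j) := by
    intro n
    induction n with
    | zero => simp
    | succ n ih =>
      rw [pow_succ, padicValInt.mul (pow_ne_zero _ (hx j hj)) (hx j hj), ih]
      ring
  exact h5 _

lemma Uv_ne (ha : ∀ k, a k ≠ 0) {x y : ℤ} (h0 : ∀ j, fh f x y j ≠ 0) (k : Fin 3) :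
    Uv cls a f e x y k ≠ 0 := by
  unfold Uv FM
  exact mul_ne_zero (ha k) (prod_ne_zero_iff.2 fun l _ => pow_ne_zero _ (h0 l))

lemma Uv_ndvd (hG : ZZ a f z c) {p : ℕ} (hp : p.Prime) (hz : z < p) {x y : ℤ}
    (hxy : ¬ ((p : ℤ) ∣ x ∧ (p : ℤ) ∣ y)) {j : J} (hj : (p : ℤ) ∣ fh f x y j) {k : Fin 3}
    (hk : k.castSucc ≠ cls j) : ¬ (p : ℤ) ∣ Uv cls a f e x y k := by
  have hpi := Nat.prime_iff_prime_int.1 hp
  intro hd
  unfold Uv FM at hd
  rcases hpi.dvd_mul.1 hd with h1 | h1
  · exact hG.gp.const p hp hz _ h1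
  · obtain ⟨l, hl1, hl2⟩ := (hpi.dvd_finsetProd_iff _).1 h1
    have h2 := hG.un hp hz hxy hj (hpi.dvd_of_dvd_pow hl2)
    apply hk
    rw [h2]
    exact (mem_filter.1 hl1).2.symm

lemma Uv_dvd {p : ℕ} (he : ∀ j, 1 ≤ e j) {x y : ℤ} {j : J} (hj : (p : ℤ) ∣ fh f x y j)
    {k : Fin 3} (hk : cls j = k.castSucc) : (p : ℤ) ∣ Uv cls a f e x y k := by
  unfold Uv FM
  refine Dvd.dvd.mul_left ?_ _
  refine dvd_trans ?_ (dvd_prod_of_mem _ (mem_filter.2 ⟨mem_univ j, hk⟩))
  exact dvd_pow hj (by have := he j; omega)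

lemma Uv_val (h : HH cls a f e m) (hG : ZZ a f z c) {p : ℕ} (hp : p.Prime) (hz : z < p)
    {x y : ℤ} (hxy : ¬ ((p : ℤ) ∣ x ∧ (p : ℤ) ∣ y)) (h0 : ∀ j, fh f x y j ≠ 0) {j : J}
    (hj : (p : ℤ) ∣ fh f x y j) {k : Fin 3} (hk : cls j = k.castSucc) :
    padicValInt p (Uv cls a f e x y k) = e j * padicValInt p (fh f x y j) := by
  unfold Uv FM
  refine val_prod hp (mem_filter.2 ⟨mem_univ j, hk⟩) (fun l _ => h0 l) (h.ha k)
    (hG.gp.const p hp hz k) ?_
  intro l _ hlj hd
  exact hlj (hG.un hp hz hxy hj hd).symm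

lemma jac_cases {p : ℕ} (hp : p.Prime) {k : ℤ} (hk : ¬ (p : ℤ) ∣ k) :
    jacobiSym k p = 1 ∨ jacobiSym k p = -1 := by
  rcases jacobiSym.trichotomy k p with h1 | h1 | h1
  · exfalso
    haveI := Fact.mk hp
    haveI : NeZero p := ⟨hp.ne_zero⟩
    rw [jacobiSym.eq_zero_iff_not_coprime] at h1
    apply h1
    rw [← Int.isCoprime_iff_gcd_eq_one, isCoprime_comm]
    exact ((Nat.prime_iff_prime_int.1 hp).coprime_iff_not_dvd).2 hk
  · exact Or.inl h1
  · exact Or.inr h1

/-- the local conditions -/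
lemma loc_of (h : HH cls a f e m) (hG : ZZ a f z c) {p : ℕ} (hp : p.Prime) (hz : z < p)
    {x y : ℤ} (hxy : ¬ ((p : ℤ) ∣ x ∧ (p : ℤ) ∣ y)) (h0 : ∀ j, fh f x y j ≠ 0) {j : J}
    (hj : (p : ℤ) ∣ fh f x y j) :
    ∃ (D W : ℤ), ¬ (p : ℤ) ∣ kv cls a f e j x y ∧
      padicValInt p D = e j * padicValInt p (fh f x y j) ∧
      (∀ q : Prop, (jacobiSym (kv cls a f e j x y * kv cls a f e j x y) p = 1 → q →
        (Odd (padicValInt p D) ∨ jacobiSym (kv cls a f e j x y) p = 1) → 
          LocM (cls j) (kv cls a f e j x y) p (Uv cls a f e x y 0) (Uv cls a f e x y 1))) ∧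
      (Even (padicValInt p D) → jacobiSym (kv cls a f e j x y) p ≠ 1 →
        NeuM (cls j) p (Uv cls a f e x y 0) (Uv cls a f e x y 1)) := by
  have hpi := Nat.prime_iff_prime_int.1 hp
  obtain ⟨k, hk⟩ := exists_k (h.c3 j)
  have hsub := h.Uv_sub x y
  have hU := Uv_dvd (cls := cls) (a := a) h.he hj hk
  have hval := Uv_val h hG hp hz hxy h0 hj hk
  have hnd : ∀ l : Fin 3, l ≠ k → ¬ (p : ℤ) ∣ Uv cls a f e x y l := fun l hl =>
    Uv_ndvd hG hp hz hxy hj (fun h1 => hl (Fin.castSucc_injective _ (h1.trans hk)))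
  have hkv : ¬ (p : ℤ) ∣ kv cls a f e j x y := by
    intro hd
    unfold kv at hd
    have hc : cpM (cls j) ≠ k := by
      intro h1
      apply cpM_ne (h.c3 j)
      rw [h1, hk]
    rcases hpi.dvd_mul.1 hd with h1 | h1
    · rcases sgM_cases (cls j) with h2 | h2
      · rw [h2] at h1
        exact hpi.not_dvd_one h1
      · rw [h2, dvd_neg] at h1
        exact hpi.not_dvd_one h1
    · exact hnd _ hc h1
  refine ⟨Uv cls a f e x y k, 0, hkv, hval, fun q h1 _ h2 => ?_, fun h1 h2 => ?_⟩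
  · unfold LocM
    fin_cases k
    · have hk' : cls j = 0 := hk
      have e1 : kv cls a f e j x y = -Uv cls a f e x y 1 := by
        unfold kv sgM cpM
        rw [hk']
        simp
      rw [if_pos hk']
      refine ⟨hU, hnd 1 (by decide), ?_, h2⟩
      rw [← e1]
      exact h1
    · have hk' : cls j = 1 := hk
      have e1 : kv cls a f e j x y = -Uv cls a f e x y 0 := by
        unfold kv sgM cpM
        rw [hk']
        simp
      rw [if_neg (by rw [hk']; decide), if_pos hk']
      refine ⟨hU, hnd 0 (by decide), ?_, h2⟩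
      rw [← e1]
      exact h1
    · have hk' : cls j = 2 := hk
      have e1 : kv cls a f e j x y = Uv cls a f e x y 0 := by
        unfold kv sgM cpM
        rw [hk']
        simp
      rw [if_neg (by rw [hk']; decide), if_neg (by rw [hk']; decide), hsub]
      refine ⟨hU, hnd 0 (by decide), ?_, h2⟩
      rw [e1] at h1
      rw [e1]
      exact h1
  · unfold NeuM
    fin_cases k
    · have hk' : cls j = 0 := hk
      have e1 : kv cls a f e j x y = -Uv cls a f e x y 1 := by
        unfold kv sgM cpM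
        rw [hk']
        simp
      rw [if_pos hk']
      refine ⟨hU, hnd 1 (by decide), h1, ?_⟩
      rw [← e1]
      exact h2
    · have hk' : cls j = 1 := hk
      have e1 : kv cls a f e j x y = -Uv cls a f e x y 0 := by
        unfold kv sgM cpM
        rw [hk']
        simp
      rw [if_neg (by rw [hk']; decide), if_pos hk']
      refine ⟨hU, hnd 0 (by decide), h1, ?_⟩
      rw [← e1]
      exact h2
    · have hk' : cls j = 2 := hk
      have e1 : kv cls a f e j x y = Uv cls a f e x y 0 := by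
        unfold kv sgM cpM
        rw [hk']
        simp
      rw [if_neg (by rw [hk']; decide), if_neg (by rw [hk']; decide), hsub]
      refine ⟨hU, hnd 0 (by decide), h1, ?_⟩
      rw [← e1]
      exact h2

/-- **the family satisfies the hypotheses** -/
theorem fam_ok (h : HH cls a f e m) (hG : ZZ a f z c) : (fam cls a f e z c).OK where
  cls3 := h.c3
  c1 := hG.gp.one
  ne := by
    intro x y h0
    have h1 := fun k => Uv_ne (cls := cls) (e := e) h.ha h0 k
    refine ⟨h1 0, h1 1, fun h2 => h1 2 ?_⟩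
    rw [← h.Uv_sub]
    exact sub_eq_zero.2 h2
  cong := by
    intro p w x x' j hx hd
    simp only [fam, zero_mul, add_zero] at hd ⊢
    have h1 := hv_cong (f j).natDegree (f j) hx (by simp : (p : ℤ) ∣ w - w)
    unfold fh at hd ⊢
    have h2 := dvd_sub hd h1
    rwa [sub_sub_cancel] at h2
  tcong := by
    intro p w x x' j _ _ hx _
    simp only [fam, zero_mul, add_zero]
    exact tyj_cong h hx (by simp) j
  un := fun p hp hz x y hxy j l hj hl => hG.un hp hz hxy hj hl
  ndw := by
    intro p hp hz w x hcop j hd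
    simp only [fam, zero_mul, add_zero] at hd hcop
    exact hG.ndy hp hz hd (Pool.Agent.K7.H54.HR.cop_nd hcop hp)
  hens := by
    intro p hp hz w x x' hw j hx h1 h2
    simp only [fam, zero_mul, add_zero] at h1 h2
    exact hG.hens hp hz hw hx h1 h2
  card := by
    intro p hp hz w N hw i
    have h1 : p.Prime ∧ z < p := ⟨hp, hz⟩
    simp only [fam, zero_mul, add_zero, if_pos h1]
    exact card_line h hp N hw i
  nrs := by
    intro p
    simp only [fam]
    by_cases h1 : p.Prime ∧ z < p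
    · simp only [if_pos h1]
      exact Rtt_sum hG.gp h1.1 h1.2
    · simp only [if_neg h1, sum_const_zero]
      exact Nat.zero_le _
  sz := by
    intro X x y hx hy hX j
    simp only [fam]
    refine (hv_size (f j).natDegree (f j) hx hy).trans ?_
    refine Nat.mul_le_mul (hG.co j) (Nat.pow_le_pow_right hX ?_)
    exact single_le_sum (f := fun j => (f j).natDegree) (fun _ _ => Nat.zero_le _) (mem_univ j)
  bad := by
    intro p hp hz x y hd
    simp only [fam] at hz hd ⊢
    have hpi := Nat.prime_iff_prime_int.1 hp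
    rw [h.Uv_sub] at hd
    have h4 := hG.gp.four
    have h2 : ¬ (p : ℤ) ∣ 2 := by
      intro h5
      have := Int.le_of_dvd (by norm_num) h5
      omega
    have hU : ∀ k, (p : ℤ) ∣ Uv cls a f e x y k → ∃ j, (p : ℤ) ∣ fh f x y j := by
      intro k hk
      unfold Uv FM at hk
      rcases hpi.dvd_mul.1 hk with h1 | h1
      · exact absurd h1 (hG.gp.const p hp hz _)
      · obtain ⟨l, hl1, hl2⟩ := (hpi.dvd_finsetProd_iff _).1 h1
        exact ⟨l, hpi.dvd_of_dvd_pow hl2⟩
    rcases hpi.dvd_mul.1 hd with hd | hd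
    · rcases hpi.dvd_mul.1 hd with hd | hd
      · rcases hpi.dvd_mul.1 hd with hd | hd
        · exact absurd hd h2
        · exact hU _ hd
      · exact hU _ hd
    · exact hU _ hd
  loc := by
    intro p hp hz x y hcop h0 j θ hj hj2 hty
    simp only [fam] at hz h0 hj hj2 hty ⊢
    have hxy := cop_nd hcop hp
    obtain ⟨D, _, h1, h2, h3, _⟩ := loc_of h hG hp hz hxy h0 hj
    have h5 := jac_cases hp h1
    have hkk : jacobiSym (kv cls a f e j x y * kv cls a f e j x y) p = 1 := by
      rw [jacobiSym.mul_left]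
      rcases h5 with h5 | h5 <;> rw [h5] <;> norm_num
    haveI := Fact.mk hp
    have hv1 : padicValInt p (fh f x y j) = 1 := by
      have h6 : 1 ≤ padicValInt p (fh f x y j) := by
        have := (padicValInt_dvd_iff (p := p) 1 (fh f x y j)).1 (by simpa using hj)
        exact this.resolve_left (h0 j)
      have h7 : ¬ 2 ≤ padicValInt p (fh f x y j) := fun h8 =>
        hj2 ((padicValInt_dvd_iff (p := p) 2 (fh f x y j)).2 (Or.inr h8))
      omega
    refine ⟨kv cls a f e j x y, h1, h3 True hkk trivial ?_, ?_⟩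
    · rw [h2, hv1, mul_one]
      by_cases ho : Odd (e j)
      · exact Or.inl ho
      · right
        unfold tyj tyo at hty
        rw [if_neg ho] at hty
        rcases h5 with h5 | h5
        · exact h5
        · exfalso
          have : sg0 p (kv cls a f e j x y) = true := by
            unfold sg0
            rw [h5]
            simp
          rw [this] at hty
          simp at hty
    · unfold tyj tyo at hty
      by_cases ho : Odd (e j)
      · rw [if_pos ho] at hty
        rw [← Option.some.inj hty]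
        simp [tyb]
      · rw [if_neg ho] at hty
        by_cases hs : sg0 p (kv cls a f e j x y) = false
        · rw [if_pos hs] at hty
          rw [← Option.some.inj hty, hs]
          simp [tyb]
        · rw [if_neg hs] at hty
          simp at hty
  neu := by
    intro p hp hz x y hcop h0 j hj hty
    simp only [fam] at hz h0 hj hty ⊢
    have hxy := cop_nd hcop hp
    obtain ⟨D, _, h1, h2, _, h4⟩ := loc_of h hG hp hz hxy h0 hj
    unfold tyj tyo at hty
    by_cases ho : Odd (e j)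
    · rw [if_pos ho] at hty
      simp at hty
    · rw [if_neg ho] at hty
      by_cases hs : sg0 p (kv cls a f e j x y) = false
      · rw [if_pos hs] at hty
        simp at hty
      · apply h4
        · rw [h2]
          exact (Nat.not_odd_iff_even.1 ho).mul_right _
        · intro h5
          apply hs
          unfold sg0
          rw [h5]
          simp

end

end Pool.Agent.K7.H54.HR
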