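import Pool.Agent.K7.H54.HR.Hv
import Pool.Agent.K7.H54.HR.Fam
import Pool.Agent.TH841.PT.Bas3

/-!
# Project HR: the family of a pair of binary forms of the same even degree
-/

set_option autoImplicit false
set_option linter.all false

namespace Pool.Agent.K7.H54.HR

open Finset Polynomial Pool.Agent.W262.RK Pool.Agent.W307.RT Pool.Agent.TH841.PT
open Pool.Agent.R421.HF

open Pool.Agent.H474R2.PG (rho)
open Pool.Agent.R421.HF (NeuM)

/-- the type with the bits `s` -/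
def tyb (s : Bool) : Ty := fun _ => s

/-- the type of a prime: `s` is the sign, `e` the exponent -/
def tyo (e : ℕ) (s : Bool) : Option Ty :=
  if Odd e then some (tyb s) else if s = false then some (tyb false) else none

section

variable {J : Type} [Fintype J] [DecidableEq J]

/-- `u_k = a_k ∏ f_l ^ e_l` -/
noncomputable def uu (cls : J → Fin 4) (a : Fin 3 → ℤ) (f : J → ℤ[X]) (e : J → ℕ) (k : Fin 3) :
    ℤ[X] := C (a k) * ∏ l ∈ fc cls k, f l ^ e l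

/-- the values of the forms -/
def fh (f : J → ℤ[X]) (x y : ℤ) (j : J) : ℤ := hv (f j).natDegree (f j) x y

/-- the values of `u_k` -/
def Uv (cls : J → Fin 4) (a : Fin 3 → ℤ) (f : J → ℤ[X]) (e : J → ℕ) (x y : ℤ) (k : Fin 3) : ℤ :=
  FM cls a e (fh f x y) k

/-- the polynomial of the tangent directions -/
noncomputable def kp (cls : J → Fin 4) (a : Fin 3 → ℤ) (f : J → ℤ[X]) (e : J → ℕ) (j : J) :
    ℤ[X] := C (sgM (cls j)) * uu cls a f e (cpM (cls j))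

/-- its values -/
def kv (cls : J → Fin 4) (a : Fin 3 → ℤ) (f : J → ℤ[X]) (e : J → ℕ) (j : J) (x y : ℤ) : ℤ :=
  sgM (cls j) * Uv cls a f e x y (cpM (cls j))

/-- the hypotheses -/
structure HH (cls : J → Fin 4) (a : Fin 3 → ℤ) (f : J → ℤ[X]) (e : J → ℕ) (m : ℕ) : Prop where
  c3 : ∀ j, cls j ≠ 3
  ha : ∀ k, a k ≠ 0
  hf : Irr f
  he : ∀ j, 1 ≤ e j
  deg : ∀ k, ∑ l ∈ fc cls k, e l * (f l).natDegree = 2 * m
  rel : uu cls a f e 0 - uu cls a f e 1 = uu cls a f e 2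

variable {cls : J → Fin 4} {a : Fin 3 → ℤ} {f : J → ℤ[X]} {e : J → ℕ} {m : ℕ}

lemma HH.Uv_eq (h : HH cls a f e m) (x y : ℤ) (k : Fin 3) :
    Uv cls a f e x y k = hv (2 * m) (uu cls a f e k) x y := by
  unfold Uv FM fh uu
  rw [hv_C_mul, ← h.deg k, hv_prod _ _ _ _ fun i _ => le_rfl]

lemma HH.Uv_sub (h : HH cls a f e m) (x y : ℤ) :
    Uv cls a f e x y 0 - Uv cls a f e x y 1 = Uv cls a f e x y 2 := by
  rw [h.Uv_eq, h.Uv_eq, h.Uv_eq, ← hv_sub, h.rel]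

lemma HH.uu_deg (h : HH cls a f e m) (k : Fin 3) : (uu cls a f e k).natDegree ≤ 2 * m := by
  unfold uu
  refine (natDegree_C_mul_le _ _).trans ((natDegree_prod_le _ _).trans ?_)
  rw [← h.deg k]
  exact sum_le_sum fun i _ => natDegree_pow_le

lemma HH.kp_deg (h : HH cls a f e m) (j : J) : (kp cls a f e j).natDegree ≤ 2 * m :=
  (natDegree_C_mul_le _ _).trans (h.uu_deg _)

lemma HH.kv_eq (h : HH cls a f e m) (j : J) (x y : ℤ) :
    kv cls a f e j x y = hv (2 * m) (kp cls a f e j) x y := by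
  unfold kv kp
  rw [hv_C_mul, h.Uv_eq]

lemma cpM_ne {c : Fin 4} (hc : c ≠ 3) : (cpM c).castSucc ≠ c := by
  revert hc
  unfold cpM
  revert c
  decide

lemma sgM_cases (c : Fin 4) : sgM c = 1 ∨ sgM c = -1 := by
  unfold sgM
  split_ifs <;> simp

lemma exists_k {c : Fin 4} (hc : c ≠ 3) : ∃ k : Fin 3, c = k.castSucc := by
  revert hc
  revert c
  decide

/-- the lower bound for `z` -/
structure ZZ (a : Fin 3 → ℤ) (f : J → ℤ[X]) (z c : ℕ) : Prop where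
  gp : Gp a f z c
  lc : ∀ j, ∀ p : ℕ, p.Prime → z < p → ¬ (p : ℤ) ∣ (f j).leadingCoeff
  co : ∀ j, ∑ i ∈ range ((f j).natDegree + 1), ((f j).coeff i).natAbs ≤ z

lemma exists_ZZ (hgd : GDP) (hf : Irr f) (ha : ∀ k, a k ≠ 0)
    (c : ℕ) (hc : (∏ j, f j).natDegree + 1 ≤ c) : ∃ z0 : ℕ, ∀ z, z0 ≤ z → ZZ a f z c := by
  obtain ⟨z0, hz0⟩ := exists_Gp hgd hf ha c hc
  refine ⟨z0 + ∑ j, ∑ i ∈ range ((f j).natDegree + 1), ((f j).coeff i).natAbs, fun z hz => ?_⟩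
  have hco : ∀ j, ∑ i ∈ range ((f j).natDegree + 1), ((f j).coeff i).natAbs ≤ z := by
    intro j
    have := single_le_sum (f := fun j => ∑ i ∈ range ((f j).natDegree + 1), ((f j).coeff i).natAbs)
      (fun _ _ => Nat.zero_le _) (mem_univ j)
    omega
  refine ⟨hz0 z (by omega), ?_, hco⟩
  intro j p hp hzp hd
  have h0 : (f j).leadingCoeff ≠ 0 := leadingCoeff_ne_zero.2 (hf.irr j).ne_zero
  have h1 := Nat.le_of_dvd (Int.natAbs_pos.2 h0) (Int.natCast_dvd.1 hd)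
  have h2 : ((f j).coeff (f j).natDegree).natAbs ≤
      ∑ i ∈ range ((f j).natDegree + 1), ((f j).coeff i).natAbs :=
    single_le_sum (f := fun i => ((f j).coeff i).natAbs) (fun _ _ => Nat.zero_le _)
      (mem_range.2 (Nat.lt_add_one (f j).natDegree))
  have h3 := hco j
  have h4 : p ≤ ((f j).coeff (f j).natDegree).natAbs := h1
  omega

variable {z c : ℕ}

/-- a prime that divides a value does not divide the second variable -/
lemma ZZ.ndy (h : ZZ a f z c) {p : ℕ} (hp : p.Prime) (hz : z < p) {x y : ℤ} {j : J}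
    (hd : (p : ℤ) ∣ fh f x y j) (hxy : ¬ ((p : ℤ) ∣ x ∧ (p : ℤ) ∣ y)) : ¬ (p : ℤ) ∣ y := by
  intro hy
  have hpi := Nat.prime_iff_prime_int.1 hp
  have h1 : (p : ℤ) ∣ hv (f j).natDegree (f j) x y - hv (f j).natDegree (f j) x 0 :=
    hv_cong _ _ (by simp) (by simpa using hy)
  have h2 : (p : ℤ) ∣ hv (f j).natDegree (f j) x 0 := by
    have h3 := dvd_sub hd h1
    unfold fh at h3
    rwa [sub_sub_cancel] at h3
  rw [hv_zero] at h2
  rcases hpi.dvd_mul.1 h2 with h3 | h3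
  · exact h.lc j p hp hz h3
  · exact hxy ⟨hpi.dvd_of_dvd_pow h3, hy⟩

/-- the root of a value -/
lemma root_of {p : ℕ} (hp : p.Prime) {x y t : ℤ} (hy : ¬ (p : ℤ) ∣ y) (k : ℕ)
    (ht : (p : ℤ) ^ k ∣ x - t * y) (j : J) :
    (p : ℤ) ^ k ∣ fh f x y j ↔ (p : ℤ) ^ k ∣ (f j).eval t := by
  have hpi := Nat.prime_iff_prime_int.1 hp
  have h1 := hv_red (f := f j) (n := (f j).natDegree) le_rfl ht
  have hcop : IsCoprime ((p : ℤ) ^ k) (y ^ (f j).natDegree) :=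
    ((hpi.coprime_iff_not_dvd).2 hy).pow
  unfold fh
  constructor
  · intro h2
    have h3 := dvd_sub h2 h1
    rw [sub_sub_cancel] at h3
    exact hcop.dvd_of_dvd_mul_left h3
  · intro h2
    have h3 := dvd_add h1 (h2.mul_left (y ^ (f j).natDegree))
    rwa [sub_add_cancel] at h3

lemma root_of1 {p : ℕ} (hp : p.Prime) {x y t : ℤ} (hy : ¬ (p : ℤ) ∣ y)
    (ht : (p : ℤ) ∣ x - t * y) (j : J) : (p : ℤ) ∣ fh f x y j ↔ (p : ℤ) ∣ (f j).eval t := by
  have := root_of (f := f) hp hy 1 (by rwa [pow_one]) j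
  rwa [pow_one] at this

lemma ZZ.un (h : ZZ a f z c) {p : ℕ} (hp : p.Prime) (hz : z < p) {x y : ℤ}
    (hxy : ¬ ((p : ℤ) ∣ x ∧ (p : ℤ) ∣ y)) {j l : J} (hj : (p : ℤ) ∣ fh f x y j)
    (hl : (p : ℤ) ∣ fh f x y l) : j = l := by
  have hy := h.ndy hp hz hj hxy
  obtain ⟨t, ht⟩ := exists_ratio hp 1 x hy
  rw [pow_one] at ht
  by_contra hne
  exact h.gp.pair p hp hz j l hne t ⟨(root_of1 hp hy ht j).1 hj, (root_of1 hp hy ht l).1 hl⟩

lemma ZZ.simple (h : ZZ a f z c) {p : ℕ} (hp : p.Prime) (hz : z < p) {t : ℤ} {j : J}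
    (hd : (p : ℤ) ∣ (f j).eval t) : ¬ (p : ℤ) ∣ (f j).derivative.eval t := by
  intro h1
  refine (h.gp.good p hp hz).2 t ((dvd_prod_iff hp _ _ _).2 ⟨j, mem_univ _, hd⟩) ?_
  rw [derivative_prod_finset, eval_finsetSum]
  refine dvd_sum fun i _ => ?_
  rw [eval_mul]
  by_cases hij : i = j
  · subst hij
    exact dvd_mul_of_dvd_right h1 _
  · refine dvd_mul_of_dvd_left ?_ _
    rw [dvd_prod_iff hp]
    exact ⟨j, mem_erase.2 ⟨fun h' => hij h'.symm, mem_univ _⟩, hd⟩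

lemma ZZ.hens (h : ZZ a f z c) {p : ℕ} (hp : p.Prime) (hz : z < p) {w x x' : ℤ}
    (hw : ¬ (p : ℤ) ∣ w) {j : J} (hxx : (p : ℤ) ∣ x - x') (h1 : (p : ℤ) ^ 2 ∣ fh f x w j)
    (h2 : (p : ℤ) ^ 2 ∣ fh f x' w j) : (p : ℤ) ^ 2 ∣ x - x' := by
  have hpi := Nat.prime_iff_prime_int.1 hp
  obtain ⟨t, ht⟩ := exists_ratio hp 2 x hw
  obtain ⟨t', ht'⟩ := exists_ratio hp 2 x' hw
  have e1 := (root_of hp hw 2 ht j).1 h1
  have e2 := (root_of hp hw 2 ht' j).1 h2
  have hp2 : (p : ℤ) ∣ (p : ℤ) ^ 2 := dvd_pow_self _ two_ne_zero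
  have e3 : (p : ℤ) ∣ (t' - t) * w := by
    have h5 : (t' - t) * w = (x - t * w) - (x' - t' * w) - (x - x') := by ring
    rw [h5]
    exact dvd_sub (dvd_sub (hp2.trans ht) (hp2.trans ht')) hxx
  have e4 : (p : ℤ) ∣ t' - t := (hpi.dvd_mul.1 e3).resolve_right hw
  obtain ⟨k, hk⟩ := Polynomial.binomExpansion (f j) t (t' - t)
  have e5 : t + (t' - t) = t' := by ring
  rw [e5] at hk
  have e6 : (p : ℤ) ^ 2 ∣ (t' - t) * ((f j).derivative.eval t + k * (t' - t)) := by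
    have : (t' - t) * ((f j).derivative.eval t + k * (t' - t)) =
        (f j).eval t' - (f j).eval t := by rw [hk]; ring
    rw [this]
    exact dvd_sub e2 e1
  have e7 : ¬ (p : ℤ) ∣ (f j).derivative.eval t + k * (t' - t) := by
    intro h5
    apply h.simple hp hz (hp2.trans e1)
    exact (dvd_add_left (e4.mul_left k)).1 h5
  have hcop : IsCoprime ((p : ℤ) ^ 2) ((f j).derivative.eval t + k * (t' - t)) :=
    ((hpi.coprime_iff_not_dvd).2 e7).pow_left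
  have e8 : (p : ℤ) ^ 2 ∣ t' - t := hcop.dvd_of_dvd_mul_right e6
  have h5 : x - x' = (x - t * w) - (x' - t' * w) - (t' - t) * w := by ring
  rw [h5]
  exact dvd_sub (dvd_sub ht ht') (e8.mul_right w)

lemma jac_congr {p : ℕ} {x y : ℤ} (h : (p : ℤ) ∣ x - y) : jacobiSym x p = jacobiSym y p := by
  rw [jacobiSym.mod_left x, jacobiSym.mod_left y]
  congr 1
  exact (Int.emod_emod_of_dvd _ dvd_rfl).symm.trans (by
    have := (Int.emod_emod_of_dvd x (dvd_refl (p : ℤ)))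
    rw [this]
    exact (Int.emod_eq_emod_iff_emod_sub_eq_zero).2 (Int.emod_eq_zero_of_dvd h))

lemma sg0_congr {p : ℕ} {x y : ℤ} (h : (p : ℤ) ∣ x - y) : sg0 p x = sg0 p y := by
  unfold sg0
  rw [jac_congr h]

lemma HH.kv_cong (h : HH cls a f e m) {p x x' y y' : ℤ} (hx : p ∣ x - x') (hy : p ∣ y - y')
    (j : J) : p ∣ kv cls a f e j x y - kv cls a f e j x' y' := by
  rw [h.kv_eq, h.kv_eq]
  exact hv_cong _ _ hx hy

/-- the sign at a point of the line -/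
lemma HH.kv_scale (h : HH cls a f e m) {p : ℕ} (hp : p.Prime) {x y t : ℤ} (hy : ¬ (p : ℤ) ∣ y)
    (ht : (p : ℤ) ∣ x - t * y) (j : J) :
    sg0 p (kv cls a f e j x y) = sg0 p ((kp cls a f e j).eval t) := by
  have h1 := hv_red (f := kp cls a f e j) (n := 2 * m) (h.kp_deg j) ht
  rw [h.kv_eq, sg0_congr h1]
  unfold sg0
  have h2 : jacobiSym (y ^ (2 * m)) p = 1 := by
    rw [pow_mul, jacobiSym.pow_left]
    have h3 : jacobiSym (y ^ 2) p = 1 := by
      rw [jacobiSym.pow_left, jacobiSym.sq_one]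
      rw [← Int.isCoprime_iff_gcd_eq_one, isCoprime_comm]
      exact ((Nat.prime_iff_prime_int.1 hp).coprime_iff_not_dvd).2 hy
    rw [h3, one_pow]
  rw [jacobiSym.mul_left, h2, one_mul]

lemma Uv_one (x : ℤ) (k : Fin 3) : Uv cls a f e x 1 k = (uu cls a f e k).eval x := by
  unfold Uv FM fh uu
  rw [eval_mul, eval_C, eval_prod]
  congr 1
  refine prod_congr rfl fun l _ => ?_
  rw [hv_one le_rfl, eval_pow]

end

end Pool.Agent.K7.H54.HR
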