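import Pool.Agent.K7.H54.HR.Hv

/-!
# Project HR: the change of the coordinates
-/

set_option autoImplicit false
set_option linter.all false

namespace Pool.Agent.K7.H54.HR

open Finset Polynomial

lemma reflect_refl (N : ℕ) (f : ℤ[X]) : reflect N (reflect N f) = f := by
  ext i
  rw [coeff_reflect, coeff_reflect, revAt_invol]

lemma hv_reflect (n : ℕ) (g : ℤ[X]) (x y : ℤ) : hv n (reflect n g) x y = hv n g y x := by
  unfold hv
  rw [← sum_range_reflect]
  refine sum_congr rfl fun i hi => ?_
  have h1 : i ≤ n := Nat.lt_succ_iff.1 (mem_range.1 hi)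
  have h2 : n + 1 - 1 - i = n - i := by omega
  rw [h2, coeff_reflect, revAt_le (Nat.sub_le _ _)]
  have h3 : n - (n - i) = i := by omega
  rw [h3]
  ring

lemma natDegree_shift (f : ℤ[X]) (c : ℤ) : (f.comp (X + C c)).natDegree = f.natDegree := by
  rw [natDegree_comp, natDegree_X_add_C, mul_one]

lemma hv_shift {n : ℕ} {f : ℤ[X]} (hf : f.natDegree ≤ n) (c x y : ℤ) :
    hv n (f.comp (X + C c)) x y = hv n f (x + c * y) y := by
  have hf' : (f.comp (X + C c)).natDegree ≤ n := by rwa [natDegree_shift]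
  by_cases hy : y = 0
  · subst hy
    rw [mul_zero, add_zero, hv_zero, hv_zero]
    congr 1
    rcases hf.lt_or_eq with h | h
    · rw [coeff_eq_zero_of_natDegree_lt h, coeff_eq_zero_of_natDegree_lt (by rwa [natDegree_shift])]
    · have h1 : (f.comp (X + C c)).leadingCoeff = f.leadingCoeff := by
        rw [leadingCoeff_comp (by rw [natDegree_X_add_C]; norm_num), leadingCoeff_X_add_C, one_pow,
          mul_one]
      unfold leadingCoeff at h1
      rw [natDegree_shift, h] at h1
      exact h1
  · have h1 := hv_rat hf' x hy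
    have h2 := hv_rat hf (x + c * y) hy
    have hy' : (y : ℚ) ≠ 0 := by exact_mod_cast hy
    have : ((hv n (f.comp (X + C c)) x y : ℤ) : ℚ) = ((hv n f (x + c * y) y : ℤ) : ℚ) := by
      rw [h1, h2, Polynomial.map_comp, eval_comp]
      congr 2
      rw [Polynomial.map_add, map_X, Polynomial.map_C, eval_add, eval_X, eval_C]
      push_cast
      rw [add_div, mul_div_assoc, div_self hy', mul_one]
      rfl
    exact_mod_cast this

/-- the polynomial in the new coordinate -/
noncomputable def mob (c : ℤ) (n : ℕ) (f : ℤ[X]) : ℤ[X] := reflect n (f.comp (X + C c))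

lemma hv_mob {n : ℕ} {f : ℤ[X]} (hf : f.natDegree ≤ n) (c x y : ℤ) :
    hv n (mob c n f) x y = hv n f (y + c * x) x := by
  unfold mob
  rw [hv_reflect, hv_shift hf]

lemma mob_coeff {n : ℕ} {f : ℤ[X]} (c : ℤ) : (mob c n f).coeff n = f.eval c := by
  unfold mob
  rw [coeff_reflect, revAt_le le_rfl, Nat.sub_self, coeff_zero_eq_eval_zero, eval_comp]
  simp

lemma mob_deg_le {n : ℕ} {f : ℤ[X]} (hf : f.natDegree ≤ n) (c : ℤ) :
    (mob c n f).natDegree ≤ n := by
  unfold mob
  rw [natDegree_le_iff_coeff_eq_zero]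
  intro N hN
  rw [coeff_reflect, revAt_eq_self_of_lt hN]
  apply coeff_eq_zero_of_natDegree_lt
  rw [natDegree_shift]
  omega

lemma mob_deg {n : ℕ} {f : ℤ[X]} (hf : f.natDegree ≤ n) {c : ℤ} (hc : f.eval c ≠ 0) :
    (mob c n f).natDegree = n :=
  natDegree_eq_of_le_of_coeff_ne_zero (mob_deg_le hf c) (by rwa [mob_coeff])

/-- the reverse of an irreducible polynomial -/
lemma irr_reflect {g : ℤ[X]} (hg : Irreducible g) (hd : 0 < g.natDegree) (h0 : g.coeff 0 ≠ 0) :
    Irreducible (reflect g.natDegree g) := by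
  have hr : reflect g.natDegree g = g.reverse := rfl
  have htr : ∀ p : ℤ[X], p.coeff 0 ≠ 0 → p.reverse.natDegree = p.natDegree := by
    intro p hp
    rw [reverse_natDegree, natTrailingDegree_eq_zero.2 (Or.inr hp), Nat.sub_zero]
  have hdr : g.reverse.natDegree = g.natDegree := htr g h0
  have hrr : g.reverse.reverse = g := by
    change reflect g.reverse.natDegree g.reverse = g
    rw [hdr]
    exact reflect_refl _ _
  have hr0 : g.reverse.coeff 0 ≠ 0 := by
    rw [coeff_zero_reverse]
    exact leadingCoeff_ne_zero.2 hg.ne_zero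
  rw [hr]
  refine ⟨fun hu => ?_, fun A B hAB => ?_⟩
  · have := natDegree_eq_zero_of_isUnit hu
    omega
  · have h1 : g = A.reverse * B.reverse := by rw [← reverse_mul_of_domain, ← hAB, hrr]
    have hA0 : A.coeff 0 ≠ 0 := by
      intro h
      apply hr0
      rw [hAB, mul_coeff_zero, h, zero_mul]
    have hB0 : B.coeff 0 ≠ 0 := by
      intro h
      apply hr0
      rw [hAB, mul_coeff_zero, h, mul_zero]
    have hun : ∀ P : ℤ[X], P.coeff 0 ≠ 0 → IsUnit P.reverse → IsUnit P := by
      intro P hP hu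
      have h2 := natDegree_eq_zero_of_isUnit hu
      rw [htr P hP] at h2
      rw [eq_C_of_natDegree_eq_zero h2] at hu ⊢
      rwa [reverse_C] at hu
    rcases hg.isUnit_or_isUnit h1 with h2 | h2
    · exact Or.inl (hun A hA0 h2)
    · exact Or.inr (hun B hB0 h2)

lemma irr_shift {f : ℤ[X]} (hf : Irreducible f) (c : ℤ) : Irreducible (f.comp (X + C c)) := by
  have h1 : f.comp (X + C c) = algEquivAevalXAddC c f := by
    simp [algEquivAevalXAddC, comp, aeval_def, eval₂_eq_eval_map]
  rw [h1]
  exact (MulEquiv.irreducible_iff (algEquivAevalXAddC c)).2 hf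

end Pool.Agent.K7.H54.HR
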