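import Pool.Agent.K7.H54.HR.Core
import Pool.Agent.TH841.PT.Fam3
import Pool.Agent.R421.UR.PenA

/-!
# Project HR: the rational parameters
-/

set_option autoImplicit false
set_option linter.all false

namespace Pool.Agent.K7.H54.HR

open Finset Polynomial Pool.Agent.W262.RK Pool.Agent.W307.RT Pool.Agent.TH841.PT
open Pool.Agent.R421.HF
open Pool.Agent.R421.UR
open Pool.Agent.W307.SE (SN SN_nonneg)
open Pool.Agent.TH841.SH.D (ShaTor HasDiv rk)

section

variable {n : Fin 3 → ℕ}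

/-- `u_k = a_k ∏ f_{k,i} ^ e_{k,i}` -/
noncomputable def uf (a : Fin 3 → ℤ) (f : ∀ k : Fin 3, Fin (n k) → ℤ[X])
    (e : ∀ k : Fin 3, Fin (n k) → ℕ) (k : Fin 3) : ℤ[X] := C (a k) * ∏ i, f k i ^ e k i

/-- the tangent directions -/
noncomputable def vf (a : Fin 3 → ℤ) (f : ∀ k : Fin 3, Fin (n k) → ℤ[X])
    (e : ∀ k : Fin 3, Fin (n k) → ℕ) : Fin 3 → ℤ[X] :=
  ![-uf a f e 1, -uf a f e 0, uf a f e 0]

/-- `v` is a square modulo `f`, over the rationals -/
def SqMd (f v : ℤ[X]) : Prop := ∃ q : ℚ[X], f.map (Int.castRingHom ℚ) ∣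
  (q ^ 2 - v.map (Int.castRingHom ℚ))

open Classical in
/-- the first weight -/
noncomputable def sW (a : Fin 3 → ℤ) (f : ∀ k : Fin 3, Fin (n k) → ℤ[X])
    (e : ∀ k : Fin 3, Fin (n k) → ℕ) (m : ℕ) (k : Fin 3) : ℝ :=
  ∑ i, (if SqMd (f k i) (vf a f e k) then (1 : ℝ) else 1 / 2) +
    (if (uf a f e k).natDegree < 2 * m then
      (if IsSquare (((vf a f e k).coeff (2 * m) : ℤ) : ℚ) then (1 : ℝ) else 1 / 2) else 0)

open Classical in
/-- the second weight -/
noncomputable def dW (a : Fin 3 → ℤ) (f : ∀ k : Fin 3, Fin (n k) → ℤ[X])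
    (e : ∀ k : Fin 3, Fin (n k) → ℕ) (m : ℕ) (k : Fin 3) : ℝ :=
  ∑ i, (if Odd (e k i) ∨ SqMd (f k i) (vf a f e k) then (1 : ℝ) else 1 / 2) +
    (if (uf a f e k).natDegree < 2 * m then
      (if Odd (uf a f e k).natDegree ∨ IsSquare (((vf a f e k).coeff (2 * m) : ℤ) : ℚ) then (1 : ℝ)
        else 1 / 2) else 0)

/-- the points of bad reduction -/
abbrev JT (n : Fin 3 → ℕ) (P : Fin 3 → Prop) : Type :=
  (Σ k : Fin 3, Fin (n k)) ⊕ {k : Fin 3 // P k}

/-- the classes -/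
def clT (n : Fin 3 → ℕ) (P : Fin 3 → Prop) : JT n P → Fin 4 :=
  Sum.elim (fun x => x.1.castSucc) (fun k => k.1.castSucc)

lemma prod_fc {M : Type} [CommMonoid M] {P : Fin 3 → Prop} [DecidablePred P]
    (g : JT n P → M) (k : Fin 3) :
    ∏ l ∈ fc (clT n P) k, g l =
      (∏ i, g (Sum.inl ⟨k, i⟩)) * (if h : P k then g (Sum.inr ⟨k, h⟩) else 1) := by
  unfold fc
  rw [prod_filter, Fintype.prod_sum_type, Fintype.prod_sigma]
  congr 1
  · rw [Finset.prod_eq_single k]
    · refine prod_congr rfl fun i _ => ?_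
      rw [if_pos]
      rfl
    · intro k' _ hk'
      refine prod_eq_one fun i _ => ?_
      rw [if_neg]
      intro h
      exact hk' (Fin.castSucc_injective _ h)
    · intro h
      exact absurd (mem_univ k) h
  · split_ifs with h
    · rw [Finset.prod_eq_single ⟨k, h⟩]
      · rw [if_pos]
        rfl
      · intro k' _ hk'
        rw [if_neg]
        intro h2
        exact hk' (Subtype.ext (Fin.castSucc_injective _ h2))
      · intro h2
        exact absurd (mem_univ _) h2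
    · refine prod_eq_one fun k' _ => ?_
      rw [if_neg]
      intro h2
      have h3 : k'.1 = k := Fin.castSucc_injective _ h2
      exact h (h3 ▸ k'.2)

lemma sum_fc {M : Type} [AddCommMonoid M] {P : Fin 3 → Prop} [DecidablePred P]
    (g : JT n P → M) (k : Fin 3) :
    ∑ l ∈ fc (clT n P) k, g l =
      (∑ i, g (Sum.inl ⟨k, i⟩)) + (if h : P k then g (Sum.inr ⟨k, h⟩) else 0) := by
  unfold fc
  rw [sum_filter, Fintype.sum_sum_type, Fintype.sum_sigma]
  congr 1
  · rw [Finset.sum_eq_single k]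
    · refine sum_congr rfl fun i _ => ?_
      rw [if_pos]
      rfl
    · intro k' _ hk'
      refine sum_eq_zero fun i _ => ?_
      rw [if_neg]
      intro h
      exact hk' (Fin.castSucc_injective _ h)
    · intro h
      exact absurd (mem_univ k) h
  · split_ifs with h
    · rw [Finset.sum_eq_single ⟨k, h⟩]
      · rw [if_pos]
        rfl
      · intro k' _ hk'
        rw [if_neg]
        intro h2
        exact hk' (Subtype.ext (Fin.castSucc_injective _ h2))
      · intro h2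
        exact absurd (mem_univ _) h2
    · refine sum_eq_zero fun k' _ => ?_
      rw [if_neg]
      intro h2
      have h3 : k'.1 = k := Fin.castSucc_injective _ h2
      exact h (h3 ▸ k'.2)

variable {a : Fin 3 → ℤ} {f : ∀ k : Fin 3, Fin (n k) → ℤ[X]} {e : ∀ k : Fin 3, Fin (n k) → ℕ}
  {m : ℕ}

/-- the point at infinity is bad of the class `k` -/
abbrev PI (a : Fin 3 → ℤ) (f : ∀ k : Fin 3, Fin (n k) → ℤ[X])
    (e : ∀ k : Fin 3, Fin (n k) → ℕ) (m : ℕ) (k : Fin 3) : Prop := (uf a f e k).natDegree < 2 * m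

/-- the polynomials -/
noncomputable def fT (P : Fin 3 → Prop) (f : ∀ k : Fin 3, Fin (n k) → ℤ[X]) : JT n P → ℤ[X] :=
  Sum.elim (fun x => f x.1 x.2) (fun _ => 1)

/-- the degrees -/
noncomputable def nT (P : Fin 3 → Prop) (f : ∀ k : Fin 3, Fin (n k) → ℤ[X]) : JT n P → ℕ :=
  Sum.elim (fun x => (f x.1 x.2).natDegree) (fun _ => 1)

/-- the exponents -/
noncomputable def eT (a : Fin 3 → ℤ) (f : ∀ k : Fin 3, Fin (n k) → ℤ[X])
    (e : ∀ k : Fin 3, Fin (n k) → ℕ) (m : ℕ) : JT n (PI a f e m) → ℕ :=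
  Sum.elim (fun x => e x.1 x.2) (fun k => 2 * m - (uf a f e k.1).natDegree)

/-- the hypotheses -/
structure HY (a : Fin 3 → ℤ) (f : ∀ k : Fin 3, Fin (n k) → ℤ[X])
    (e : ∀ k : Fin 3, Fin (n k) → ℕ) (m : ℕ) : Prop where
  ha : ∀ k, a k ≠ 0
  hf : ∀ k i, Irreducible (f k i) ∧ 0 < (f k i).natDegree
  hf' : ∀ k i l j, (⟨k, i⟩ : Σ k : Fin 3, Fin (n k)) ≠ ⟨l, j⟩ → ¬ Associated (f k i) (f l j)
  he : ∀ k i, 1 ≤ e k i
  hu : uf a f e 0 - uf a f e 1 = uf a f e 2
  hm : ∀ k, (uf a f e k).natDegree ≤ 2 * m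
  hm' : ∃ k, (uf a f e k).natDegree = 2 * m

lemma HY.uniq (h : HY a f e m) {k l : Fin 3} (hk : PI a f e m k) (hl : PI a f e m l) : k = l := by
  by_contra hkl
  obtain ⟨j, hj⟩ := h.hm'
  have h0 := h.hu
  have hsub : ∀ p q : ℤ[X], p.natDegree < 2 * m → q.natDegree < 2 * m →
      (p - q).natDegree < 2 * m := fun p q h1 h2 =>
    (natDegree_sub_le p q).trans_lt (max_lt h1 h2)
  have hadd : ∀ p q : ℤ[X], p.natDegree < 2 * m → q.natDegree < 2 * m →
      (p + q).natDegree < 2 * m := fun p q h1 h2 =>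
    (natDegree_add_le p q).trans_lt (max_lt h1 h2)
  have F01 : PI a f e m 0 → PI a f e m 1 → PI a f e m 2 := by
    intro h1 h2
    have := hsub _ _ h1 h2
    rw [h0] at this
    exact this
  have F02 : PI a f e m 0 → PI a f e m 2 → PI a f e m 1 := by
    intro h1 h2
    have := hsub _ _ h1 h2
    rw [← h0, sub_sub_cancel] at this
    exact this
  have F12 : PI a f e m 1 → PI a f e m 2 → PI a f e m 0 := by
    intro h1 h2
    have := hadd _ _ h1 h2
    rw [← h0, add_sub_cancel] at this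
    exact this
  have key : PI a f e m j := by
    fin_cases k <;> fin_cases l <;> fin_cases j <;>
      first
        | exact absurd rfl hkl
        | exact hk
        | exact hl
        | exact F01 hk hl
        | exact F01 hl hk
        | exact F02 hk hl
        | exact F02 hl hk
        | exact F12 hk hl
        | exact F12 hl hk
  exact absurd hj key.ne

lemma HY.deg (h : HY a f e m) (k : Fin 3) :
    (uf a f e k).natDegree = ∑ i, e k i * (f k i).natDegree := by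
  unfold uf
  rw [natDegree_C_mul (h.ha k), natDegree_prod _ _ fun i _ => pow_ne_zero _ (h.hf k i).1.ne_zero]
  exact sum_congr rfl fun i _ => natDegree_pow _ _

lemma uu_eq (k : Fin 3) :
    uu (clT n (PI a f e m)) a (fT (PI a f e m) f) (eT a f e m) k = uf a f e k := by
  unfold uu
  rw [prod_fc]
  unfold fT eT uf
  simp

lemma cl3 {P : Fin 3 → Prop} (j : JT n P) : clT n P j ≠ 3 := by
  have h : ∀ k : Fin 3, k.castSucc ≠ (3 : Fin 4) := by decide
  rcases j with x | k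
  · exact h x.1
  · exact h k.1

lemma HY.pj (h : HY a f e m) :
    PJ (clT n (PI a f e m)) a (fT (PI a f e m) f) (nT (PI a f e m) f) (eT a f e m) m where
  c3 := cl3
  ha := h.ha
  kind := by
    rintro (x | k)
    · exact Or.inl ⟨(h.hf x.1 x.2).1, (h.hf x.1 x.2).2, rfl⟩
    · exact Or.inr ⟨rfl, rfl⟩
  assoc := by
    rintro (x | k) (y | l) hne
    · exact h.hf' x.1 x.2 y.1 y.2 fun h2 => hne (congrArg Sum.inl h2)
    · intro h2
      exact (h.hf x.1 x.2).1.not_isUnit (associated_one_iff_isUnit.1 h2)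
    · intro h2
      exact (h.hf y.1 y.2).1.not_isUnit (associated_one_iff_isUnit.1 h2.symm)
    · exact absurd (congrArg Sum.inr (Subtype.ext (h.uniq k.2 l.2))) hne
  he := by
    rintro (x | k)
    · exact h.he x.1 x.2
    · have := k.2
      change 1 ≤ 2 * m - (uf a f e k.1).natDegree
      unfold PI at this
      omega
  deg := by
    intro k
    rw [sum_fc]
    have e1 : ∀ i : Fin (n k), eT a f e m (Sum.inl ⟨k, i⟩) *
        nT (PI a f e m) f (Sum.inl ⟨k, i⟩) = e k i * (f k i).natDegree := fun i => rfl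
    simp only [e1]
    rw [← h.deg k]
    have e2 : ∀ hk : PI a f e m k, eT a f e m (Sum.inr ⟨k, hk⟩) *
        nT (PI a f e m) f (Sum.inr ⟨k, hk⟩) = 2 * m - (uf a f e k).natDegree := fun hk =>
      mul_one _
    split_ifs with hk
    · rw [e2 hk]
      unfold PI at hk
      omega
    · have := h.hm k
      unfold PI at hk
      omega
  rel := by
    rw [uu_eq, uu_eq, uu_eq]
    exact h.hu

lemma kp_eq (j : JT n (PI a f e m)) {k : Fin 3} (hj : clT n (PI a f e m) j = k.castSucc) :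
    kp (clT n (PI a f e m)) a (fT (PI a f e m) f) (eT a f e m) j = vf a f e k := by
  unfold kp
  rw [hj, uu_eq]
  revert k
  intro k _
  fin_cases k
  · simp [sgM, cpM, vf]
  · simp [sgM, cpM, vf]
  · simp [sgM, cpM, vf]

lemma HY.sq_inl (h : HY a f e m) (k : Fin 3) (i : Fin (n k)) :
    SqJ (clT n (PI a f e m)) a (fT (PI a f e m) f) (eT a f e m) m (Sum.inl ⟨k, i⟩) ↔
      SqMd (f k i) (vf a f e k) := by
  unfold SqJ
  rw [kp_eq (Sum.inl ⟨k, i⟩) (k := k) rfl]
  have h1 : fT (PI a f e m) f (Sum.inl ⟨k, i⟩) = f k i := rfl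
  have h2 : f k i ≠ 1 := by
    intro h3
    have := (h.hf k i).2
    rw [h3, natDegree_one] at this
    exact lt_irrefl _ this
  rw [h1]
  unfold SqMd mQ
  simp [h2]

lemma sq_inr (k : Fin 3) (hk : PI a f e m k) :
    SqJ (clT n (PI a f e m)) a (fT (PI a f e m) f) (eT a f e m) m (Sum.inr ⟨k, hk⟩) ↔
      IsSquare (((vf a f e k).coeff (2 * m) : ℤ) : ℚ) := by
  unfold SqJ
  rw [kp_eq (Sum.inr ⟨k, hk⟩) (k := k) rfl]
  have h1 : fT (PI a f e m) f (Sum.inr ⟨k, hk⟩) = 1 := rfl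
  rw [h1]
  simp

open Classical in
/-- the places of split reduction -/
noncomputable def spT (a : Fin 3 → ℤ) (f : ∀ k : Fin 3, Fin (n k) → ℤ[X])
    (e : ∀ k : Fin 3, Fin (n k) → ℕ) (m : ℕ) (j : JT n (PI a f e m)) : Bool :=
  decide (SqJ (clT n (PI a f e m)) a (fT (PI a f e m) f) (eT a f e m) m j)

lemma Wo_eq {J : Type} [Fintype J] [DecidableEq J] (cls : J → Fin 4) (w : J → ℝ) :
    Wo cls w = Wc cls w 0 + Wc cls w 1 + Wc cls w 2 := by
  unfold Wo Wc
  rw [sum_filter, sum_filter, sum_filter, sum_filter, ← sum_add_distrib, ← sum_add_distrib]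
  refine sum_congr rfl fun j _ => ?_
  generalize cls j = c
  fin_cases c <;> simp

lemma HY.Wc_s (h : HY a f e m) (k : Fin 3) :
    Wc (clT n (PI a f e m)) (sg1 (spT a f e m)) k.castSucc = sW a f e m k := by
  classical
  have h1 : Wc (clT n (PI a f e m)) (sg1 (spT a f e m)) k.castSucc =
      ∑ j ∈ fc (clT n (PI a f e m)) k, sg1 (spT a f e m) j := rfl
  rw [h1, sum_fc]
  unfold sW
  congr 1
  · refine sum_congr rfl fun i _ => ?_
    unfold sg1 spT
    simp only [decide_eq_true_eq, h.sq_inl]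
  · by_cases hk : PI a f e m k
    · rw [dif_pos hk, if_pos hk]
      unfold sg1 spT
      simp only [decide_eq_true_eq, sq_inr]
    · rw [dif_neg hk, if_neg hk]

lemma HY.Wc_d (h : HY a f e m) (k : Fin 3) :
    Wc (clT n (PI a f e m)) (dd (eT a f e m) (spT a f e m)) k.castSucc = dW a f e m k := by
  classical
  have h1 : Wc (clT n (PI a f e m)) (dd (eT a f e m) (spT a f e m)) k.castSucc =
      ∑ j ∈ fc (clT n (PI a f e m)) k, dd (eT a f e m) (spT a f e m) j := rfl
  rw [h1, sum_fc]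
  unfold dW
  congr 1
  · refine sum_congr rfl fun i _ => ?_
    unfold dd spT
    simp only [decide_eq_true_eq, h.sq_inl]
    rfl
  · by_cases hk : PI a f e m k
    · rw [dif_pos hk, if_pos hk]
      unfold dd spT
      simp only [decide_eq_true_eq, sq_inr]
      have h2 : Odd (eT a f e m (Sum.inr ⟨k, hk⟩)) ↔ Odd (uf a f e k).natDegree := by
        change Odd (2 * m - (uf a f e k).natDegree) ↔ _
        unfold PI at hk
        rw [Nat.odd_sub hk.le]
        have h3 : ¬ Odd (2 * m) := by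
          rw [Nat.not_odd_iff_even]
          exact even_two_mul m
        have h4 : Even (2 * m) := even_two_mul m
        constructor
        · intro h5
          by_contra h6
          rw [Nat.not_odd_iff_even] at h6
          exact h3 (h5.2 h6)
        · intro h5
          constructor
          · intro h6
            exact absurd h6 h3
          · intro h6
            exact absurd h5 (Nat.not_odd_iff_even.2 h6)
      simp only [h2]
    · rw [dif_neg hk, if_neg hk]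

/-- the value at a rational number -/
noncomputable def vl (g : ℤ[X]) (t : ℚ) : ℚ := (g.map (Int.castRingHom ℚ)).eval t

/-- the curve `y² = x (x - A) (x - B)` over `ℚ` -/
def Er (A B : ℚ) : WeierstrassCurve ℚ := ⟨0, -(A + B), 0, A * B, 0⟩

/-- the fibre at `t = c / d` in lowest terms: `y² = x (x - d ^ (2 m) u₀(t)) (x - d ^ (2 m) u₁(t))` -/
noncomputable def Ft (a : Fin 3 → ℤ) (f : ∀ k : Fin 3, Fin (n k) → ℤ[X])
    (e : ∀ k : Fin 3, Fin (n k) → ℕ) (m : ℕ) (t : ℚ) : WeierstrassCurve ℚ :=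
  Er ((t.den : ℚ) ^ (2 * m) * vl (uf a f e 0) t) ((t.den : ℚ) ^ (2 * m) * vl (uf a f e 1) t)

lemma hv_t {d : ℕ} {g : ℤ[X]} (hg : g.natDegree ≤ d) (t : ℚ) :
    ((hv d g t.num (t.den : ℤ) : ℤ) : ℚ) = (t.den : ℚ) ^ d * vl g t := by
  have h1 : ((t.den : ℤ)) ≠ 0 := by exact_mod_cast t.den_nz
  rw [hv_rat hg _ h1]
  unfold vl
  congr 2
  rw [Int.cast_natCast, Rat.num_div_den]

lemma HY.bd (h : HY a f e m) (t : ℚ) (ht : ∀ k, vl (uf a f e k) t ≠ 0) :
    Pool.Agent.TH841.SH.Bd (Ft a f e m t)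
      (SN (Uw (clT n (PI a f e m)) a (fT (PI a f e m) f) (nT (PI a f e m) f)
        (eT a f e m) t.num (t.den : ℤ) 0) (Uw (clT n (PI a f e m)) a (fT (PI a f e m) f)
        (nT (PI a f e m) f) (eT a f e m) t.num (t.den : ℤ) 1)) := by
  have hU : ∀ k, ((Uw (clT n (PI a f e m)) a (fT (PI a f e m) f) (nT (PI a f e m) f)
      (eT a f e m) t.num (t.den : ℤ) k : ℤ) : ℚ) = (t.den : ℚ) ^ (2 * m) * vl (uf a f e k) t := by
    intro k
    rw [h.pj.Uw_eq, uu_eq, hv_t (h.hm k)]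
  have hd : (t.den : ℚ) ≠ 0 := by exact_mod_cast t.den_nz
  have hne : ∀ k, Uw (clT n (PI a f e m)) a (fT (PI a f e m) f) (nT (PI a f e m) f)
      (eT a f e m) t.num (t.den : ℤ) k ≠ 0 := by
    intro k h0
    have h1 := hU k
    rw [h0, Int.cast_zero] at h1
    exact mul_ne_zero (pow_ne_zero _ hd) (ht k) h1.symm
  have h1 := bd_EQ (hne 0) (hne 1) (fun h2 => by
    apply hne 2
    rw [← h.pj.Uw_sub, h2, sub_self])
  have h2 : EQ (Uw (clT n (PI a f e m)) a (fT (PI a f e m) f) (nT (PI a f e m) f)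
        (eT a f e m) t.num (t.den : ℤ) 0) (Uw (clT n (PI a f e m)) a (fT (PI a f e m) f)
        (nT (PI a f e m) f) (eT a f e m) t.num (t.den : ℤ) 1) = Ft a f e m t := by
    unfold EQ Ft Er
    rw [hU, hU]
  rw [h2] at h1
  exact h1

open Classical in
lemma HY.img (h : HY a f e m) (T : ℕ) (S : Finset ℚ)
    (hS : ∀ t ∈ S, t.num.natAbs ≤ T ∧ t.den ≤ T ∧ ∀ k, vl (uf a f e k) t ≠ 0) (φ : ℚ → ℤ × ℤ)
    (hφ : ∀ t, φ t = (t.num, (t.den : ℤ))) :
    S.image φ ⊆ (Box T).filter (fun t : ℤ × ℤ => IsCoprime t.1 t.2 ∧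
      ∀ j, hv (nT (PI a f e m) f j) (fT (PI a f e m) f j) t.1 t.2 ≠ 0) := by
  intro s hs'
  obtain ⟨t, ht, rfl⟩ := mem_image.1 hs'
  obtain ⟨h3, h4, h5⟩ := hS t ht
  have hd : (t.den : ℚ) ≠ 0 := by exact_mod_cast t.den_nz
  rw [hφ, mem_filter, mem_Box]
  refine ⟨⟨h3, by simpa using h4⟩, ?_, ?_⟩
  · exact Int.isCoprime_iff_gcd_eq_one.2 t.reduced
  · rintro (x | k)
    · intro h6
      have h7 := hv_t (d := (f x.1 x.2).natDegree) (g := f x.1 x.2) le_rfl t
      have h8 : hv (f x.1 x.2).natDegree (f x.1 x.2) t.num (t.den : ℤ) = 0 := h6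
      rw [h8, Int.cast_zero] at h7
      have h9 : vl (f x.1 x.2) t = 0 :=
        (mul_eq_zero.1 h7.symm).resolve_left (pow_ne_zero _ hd)
      apply h5 x.1
      unfold vl uf
      rw [Polynomial.map_mul, Polynomial.map_prod, eval_mul, eval_prod]
      refine mul_eq_zero_of_right _ (prod_eq_zero (mem_univ x.2) ?_)
      rw [Polynomial.map_pow, eval_pow]
      unfold vl at h9
      rw [h9]
      exact zero_pow (by have := h.he x.1 x.2; omega)
    · have h6 : hv 1 1 t.num (t.den : ℤ) = (t.den : ℤ) := by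
        unfold hv
        rw [sum_range_succ, sum_range_one]
        simp [coeff_one]
      change hv 1 1 t.num (t.den : ℤ) ≠ 0
      rw [h6]
      exact_mod_cast t.den_nz

/-- **the average over the rational parameters** -/
theorem mainS (h : HY a f e m)
    (hs : ∀ k, sW a f e m k + dW a f e m k < dW a f e m 0 + dW a f e m 1 + dW a f e m 2) :
    ∃ α : ℝ, 0 < α ∧ α ≤ 1 ∧ ∃ C : ℝ, 0 ≤ C ∧ ∀ T : ℕ, 1 ≤ T → ∀ S : Finset ℚ,
      (∀ t ∈ S, t.num.natAbs ≤ T ∧ t.den ≤ T ∧ ∀ k, vl (uf a f e k) t ≠ 0) →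
      ∑ t ∈ S, SN (Uw (clT n (PI a f e m)) a (fT (PI a f e m) f) (nT (PI a f e m) f)
        (eT a f e m) t.num (t.den : ℤ) 0) (Uw (clT n (PI a f e m)) a (fT (PI a f e m) f)
        (nT (PI a f e m) f) (eT a f e m) t.num (t.den : ℤ) 1) ^ α ≤ C * (T : ℝ) ^ 2 := by
  classical
  have hsp : ∀ j, spT a f e m j = true ↔
      SqJ (clT n (PI a f e m)) a (fT (PI a f e m) f) (eT a f e m) m j := by
    intro j
    unfold spT
    exact decide_eq_true_iff
  have hw : ∀ k : Fin 4, k ≠ 3 → Wc (clT n (PI a f e m)) (sg1 (spT a f e m)) k <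
      Wo (clT n (PI a f e m)) (dd (eT a f e m) (spT a f e m)) -
        Wc (clT n (PI a f e m)) (dd (eT a f e m) (spT a f e m)) k := by
    intro k hk
    obtain ⟨l, rfl⟩ : ∃ l : Fin 3, l.castSucc = k := by
      revert k
      decide
    rw [Wo_eq]
    have e0 := h.Wc_d 0
    have e1 := h.Wc_d 1
    have e2 := h.Wc_d 2
    have e3 := h.Wc_d l
    have e4 := h.Wc_s l
    have e5 := hs l
    have c0 : (Fin.castSucc (0 : Fin 3)) = (0 : Fin 4) := rfl
    have c1 : (Fin.castSucc (1 : Fin 3)) = (1 : Fin 4) := rfl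
    have c2 : (Fin.castSucc (2 : Fin 3)) = (2 : Fin 4) := rfl
    rw [c0] at e0
    rw [c1] at e1
    rw [c2] at e2
    rw [e0, e1, e2, e3, e4]
    linarith
  obtain ⟨α, hα0, hα1, C, hC0, hC⟩ := core h.pj (spT a f e m) hsp hw
  refine ⟨α, hα0, hα1, C, hC0, fun T hT S hS => ?_⟩
  obtain ⟨φ, hφ⟩ : ∃ φ : ℚ → ℤ × ℤ, ∀ t, φ t = (t.num, (t.den : ℤ)) := ⟨_, fun t => rfl⟩
  have hφi : Function.Injective φ := by
    intro t t' htt
    rw [hφ, hφ, Prod.mk.injEq] at htt
    exact Rat.ext htt.1 (by exact_mod_cast htt.2)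
  have h1 := hC T hT
  refine le_trans ?_ h1
  have h2 := h.img T S hS φ hφ
  have h3 := sum_le_sum_of_subset_of_nonneg (f := fun t : ℤ × ℤ =>
    SN (Uw (clT n (PI a f e m)) a (fT (PI a f e m) f) (nT (PI a f e m) f)
        (eT a f e m) t.1 t.2 0) (Uw (clT n (PI a f e m)) a (fT (PI a f e m) f)
        (nT (PI a f e m) f) (eT a f e m) t.1 t.2 1) ^ α) h2
    fun t _ _ => Real.rpow_nonneg (SN_nonneg _ _) _
  refine le_trans (le_of_eq ?_) h3
  rw [sum_image fun _ _ _ _ hh => hφi hh]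
  refine sum_congr rfl fun t _ => ?_
  simp only [hφ]

open Classical in
/-- **ranks and Tate-Shafarevich groups over the rational parameters** -/
theorem mainQ (h : HY a f e m)
    (hs : ∀ k, sW a f e m k + dW a f e m k < dW a f e m 0 + dW a f e m 1 + dW a f e m 2) :
    ∃ α : ℝ, 0 < α ∧ ∃ C : ℝ, ∀ T : ℕ, 1 ≤ T → ∀ S : Finset ℚ,
      (∀ t ∈ S, t.num.natAbs ≤ T ∧ t.den ≤ T ∧ ∀ k, vl (uf a f e k) t ≠ 0) →
      (∀ t ∈ S, ∀ k : ℕ, Finite (ShaTor (Ft a f e m t) (2 ^ k))) ∧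
      (∀ k : ℕ, 1 ≤ k → ∑ t ∈ S, ((2 : ℝ) ^ rk (Ft a f e m t) *
        (Nat.card (ShaTor (Ft a f e m t) (2 ^ k)) : ℝ) ^ ((1 : ℝ) / k)) ^ α ≤ C * (T : ℝ) ^ 2) ∧
      ∀ r q : ℕ, ((S.filter (fun t => r ≤ rk (Ft a f e m t) ∧
        HasDiv (Ft a f e m t) q)).card : ℝ) ≤ C * (T : ℝ) ^ 2 / (2 : ℝ) ^ (α * (r + q)) := by
  obtain ⟨α, hα0, hα1, C, hC0, hC⟩ := mainS h hs
  refine ⟨α, hα0, C, fun T hT S hS => ?_⟩
  exact familyA S (fun t => Ft a f e m t) _ _ hα0.le
    (fun t ht => h.bd t (hS t ht).2.2) (hC T hT S hS)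

end

end Pool.Agent.K7.H54.HR
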