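import Pool.Agent.K7.H54.HR.Two0
import Pool.Agent.TH841.PT.Mak3

/-!
# Project HR: sums of the symbols at the roots of a polynomial, the lower bound
-/

set_option autoImplicit false
set_option linter.all false

namespace Pool.Agent.K7.H54.HR

open Finset Polynomial Pool.Agent.W262.RK Pool.Agent.TH841.PT

open Pool.Agent.H474R2.PG (rho)

/-- **the lower bound of the sums of the symbols** -/
theorem low_sum (f g : ℤ[X]) (hf : Irreducible f) (hd : 0 < f.natDegree) (hg : ¬ mQ f ∣ mQ g)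
    {z0 : ℕ} (hz0 : ∀ p : ℕ, p.Prime → z0 < p → ∀ t : ℤ, (p : ℤ) ∣ f.eval t →
      ¬ (p : ℤ) ∣ g.eval t) :
    ∃ z1 : ℕ, ∀ z, z1 ≤ z → ∃ C : ℝ, ∀ y, z < y → -C ≤ Sp (fun p => rhoc f g p) z y := by
  obtain ⟨H, hH, hHd, B, hB⟩ := exists_H f g hf hd hg
  refine ⟨z0 + B + 3, fun z hz => ?_⟩
  obtain ⟨C1, hC1, h1⟩ := mert hH hHd (z := z) (by omega)
  obtain ⟨C2, hC2, h2⟩ := mert hf hd (z := z) (by omega)
  refine ⟨C1 + C2, fun y hy => ?_⟩
  have e1 := (abs_le.1 (h1 y hy)).1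
  have e2 := (abs_le.1 (h2 y hy)).2
  have h3 : Sp (fun p => rho H p) z y ≤ Sp (fun p => rho f p) z y +
      Sp (fun p => rhoc f g p) z y := by
    unfold Sp
    rw [← sum_add_distrib]
    refine sum_le_sum fun p hp => ?_
    have hp' := mem_filter.1 hp
    have hzp := (mem_Ioc.1 hp'.1).1
    rw [← add_div]
    apply div_le_div_of_nonneg_right _ (Nat.cast_nonneg p)
    have h4 := hB p hp'.2 (by omega) (hz0 p hp'.2 (by omega))
    have h5 : ((rho H p : ℤ) : ℝ) ≤ ((∑ x ∈ (Finset.range p).filter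
        (fun x : ℕ => (p : ℤ) ∣ f.eval (x : ℤ)), (1 + jacobiSym (g.eval (x : ℤ)) p) : ℤ) : ℝ) := by
      exact_mod_cast h4
    push_cast at h5
    rw [sum_add_distrib, sum_const, nsmul_eq_mul, mul_one] at h5
    unfold rho rhoc Jr
    exact h5
  linarith

end Pool.Agent.K7.H54.HR
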