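import Pool.Agent.K7.H54.HR.Frm2
import Pool.Agent.K7.H54.HR.Two
import Pool.Agent.R421.UR.MakA

/-!
# Project HR: the sums over the primes
-/

set_option autoImplicit false
set_option linter.all false

namespace Pool.Agent.K7.H54.HR

open Finset Polynomial Pool.Agent.W262.RK Pool.Agent.W307.RT Pool.Agent.TH841.PT
open Pool.Agent.R421.HF
open Pool.Agent.R421.UR

open Pool.Agent.H474R2.PG (rho)

section

variable {J : Type} [Fintype J] [DecidableEq J]

variable {cls : J → Fin 4} {a : Fin 3 → ℤ} {f : J → ℤ[X]} {e : J → ℕ} {m z c : ℕ}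

/-- the density of the primes with a type -/
noncomputable def dd (e : J → ℕ) (sp : J → Bool) (j : J) : ℝ :=
  if Odd (e j) ∨ sp j = true then 1 else 1 / 2

/-- the coefficient of `rho` -/
noncomputable def cA (n : ℕ) (φ : Bool → ℝ) : ℝ :=
  if Odd n then (φ false + φ true) / 2 else φ false / 2

/-- the coefficient of `rhoc` -/
noncomputable def cB (n : ℕ) (φ : Bool → ℝ) : ℝ :=
  if Odd n then (φ false - φ true) / 2 else φ false / 2

lemma kp_ndvd (h : HH cls a f e m) (hG : ZZ a f z c) {p : ℕ} (hp : p.Prime) (hz : z < p)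
    {t : ℤ} {j : J} (hj : (p : ℤ) ∣ (f j).eval t) : ¬ (p : ℤ) ∣ (kp cls a f e j).eval t := by
  have hpi := Nat.prime_iff_prime_int.1 hp
  intro hd
  unfold kp at hd
  rw [eval_mul, eval_C] at hd
  rcases hpi.dvd_mul.1 hd with h1 | h1
  · rcases sgM_cases (cls j) with h2 | h2
    · rw [h2] at h1
      exact hpi.not_dvd_one h1
    · rw [h2, dvd_neg] at h1
      exact hpi.not_dvd_one h1
  · unfold uu at h1
    rw [eval_mul, eval_C, eval_prod] at h1
    rcases hpi.dvd_mul.1 h1 with h1 | h1
    · exact hG.gp.const p hp hz _ h1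
    · obtain ⟨l, hl1, hl2⟩ := (hpi.dvd_finsetProd_iff _).1 h1
      rw [eval_pow] at hl2
      refine hG.gp.pair p hp hz j l ?_ t ⟨hj, hpi.dvd_of_dvd_pow hl2⟩
      rintro rfl
      exact cpM_ne (h.c3 j) (mem_filter.1 hl1).2.symm

/-- the sums over the types -/
lemma sum_ty (h : HH cls a f e m) (hG : ZZ a f z c) (j : J) {p : ℕ} (hp : p.Prime) (hz : z < p)
    (φ : Bool → ℝ) :
    ∑ θ : Ty, φ (θ 0) * (fam cls a f e z c).g (j, θ) p =
      cA (e j) φ * rho (f j) p + cB (e j) φ * rhoc (f j) (kp cls a f e j) p := by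
  classical
  set R := (range p).filter (fun x : ℕ => (p : ℤ) ∣ (f j).eval (x : ℤ)) with hR
  have h1 : ∀ θ : Ty, φ (θ 0) * (fam cls a f e z c).g (j, θ) p =
      ∑ x ∈ R.filter (fun x : ℕ => tyj cls a f e j p x 1 = some θ), φ (θ 0) := by
    intro θ
    unfold RFam.g
    simp only [fam]
    rw [if_pos ⟨hp, hz⟩, sum_const, nsmul_eq_mul, mul_comm]
    unfold Rtt
    rw [hR, filter_filter]
  rw [sum_congr rfl fun θ _ => h1 θ]
  have h2 : ∀ θ : Ty, ∑ x ∈ R.filter (fun x : ℕ => tyj cls a f e j p x 1 = some θ), φ (θ 0) =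
      ∑ x ∈ R, if tyj cls a f e j p x 1 = some θ then φ (θ 0) else 0 := fun θ => sum_filter _ _
  rw [sum_congr rfl fun θ _ => h2 θ, sum_comm]
  unfold rho rhoc
  rw [← hR, Finset.cast_card, mul_sum, mul_sum, ← sum_add_distrib]
  refine sum_congr rfl fun x hx => ?_
  have hxd := (mem_filter.1 hx).2
  have hnd := kp_ndvd h hG hp hz hxd
  have hkv : kv cls a f e j x 1 = (kp cls a f e j).eval (x : ℤ) := by
    rw [h.kv_eq, hv_one (h.kp_deg j)]
  have hJ : Jr ((kp cls a f e j).eval (x : ℤ)) p =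
      if sg0 p ((kp cls a f e j).eval (x : ℤ)) = true then -1 else 1 := by
    rw [← Pool.Agent.W762.RK2.sg_sg0 hp hnd]
    rfl
  rw [hJ]
  unfold tyj tyo cA cB
  rw [hkv]
  by_cases ho : Odd (e j)
  · simp only [if_pos ho]
    rw [sum_eq_single (tyb (sg0 p ((kp cls a f e j).eval (x : ℤ))))]
    · rw [if_pos rfl]
      cases hs : sg0 p ((kp cls a f e j).eval (x : ℤ)) <;> simp [tyb] <;> ring
    · intro θ _ hne
      rw [if_neg]
      intro h3
      exact hne (Option.some.inj h3).symm
    · intro h3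
      exact absurd (mem_univ _) h3
  · simp only [if_neg ho]
    cases hs : sg0 p ((kp cls a f e j).eval (x : ℤ))
    · simp only [if_true]
      rw [sum_eq_single (tyb false)]
      · rw [if_pos rfl]
        simp [tyb]
      · intro θ _ hne
        rw [if_neg]
        intro h3
        exact hne (Option.some.inj h3).symm
      · intro h3
        exact absurd (mem_univ _) h3
    · simp

/-- the symbols at the roots if `k` is a square modulo `f` -/
lemma rhoc_sq {g k : ℤ[X]} (hg : g.IsPrimitive) {q : ℚ[X]} (hq : mQ g ∣ q ^ 2 - mQ k) {z : ℕ}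
    (hnd : ∀ p : ℕ, p.Prime → z < p → ∀ t : ℤ, (p : ℤ) ∣ g.eval t → ¬ (p : ℤ) ∣ k.eval t) :
    ∃ z1 : ℕ, ∀ p : ℕ, p.Prime → z1 < p → rhoc g k p = rho g p := by
  obtain ⟨N, q', hN0, hmap⟩ := clr q
  have hdv : g ∣ q' ^ 2 - C (N ^ 2) * k := by
    rw [IsPrimitive.Int.dvd_iff_map_cast_dvd_map_cast _ _ hg]
    have : (q' ^ 2 - C (N ^ 2) * k).map (Int.castRingHom ℚ) = C ((N : ℚ) ^ 2) * (q ^ 2 - mQ k) := by
      have h1 : q'.map (Int.castRingHom ℚ) = C (N : ℚ) * q := hmap
      rw [Polynomial.map_sub, Polynomial.map_pow, Polynomial.map_mul, h1, Polynomial.map_C]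
      unfold mQ
      simp only [eq_intCast, Int.cast_pow, map_pow]
      ring
    rw [this]
    exact hq.mul_left _
  refine ⟨z + N.natAbs, fun p hp hz => ?_⟩
  unfold rhoc rho
  rw [Finset.cast_card]
  refine sum_congr rfl fun x hx => ?_
  have hxd := (mem_filter.1 hx).2
  have hpi := Nat.prime_iff_prime_int.1 hp
  have hk := hnd p hp (by omega) _ hxd
  have hNp : ¬ (p : ℤ) ∣ N := by
    intro hd
    have := Nat.le_of_dvd (Int.natAbs_pos.2 hN0) (Int.natCast_dvd.1 hd)
    omega
  have h1 : (p : ℤ) ∣ q'.eval (x : ℤ) ^ 2 - N ^ 2 * k.eval (x : ℤ) := by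
    obtain ⟨r, hr⟩ := hdv
    have := congrArg (Polynomial.eval (x : ℤ)) hr
    rw [eval_sub, eval_pow, eval_mul, eval_mul, eval_C] at this
    rw [this]
    exact hxd.mul_right _
  have h2 : ¬ (p : ℤ) ∣ q'.eval (x : ℤ) := by
    intro hd
    have h3 : (p : ℤ) ∣ N ^ 2 * k.eval (x : ℤ) := by
      have h5 : (p : ℤ) ∣ q'.eval (x : ℤ) ^ 2 := dvd_pow hd two_ne_zero
      have := dvd_sub h5 h1
      rwa [sub_sub_cancel] at this
    rcases hpi.dvd_mul.1 h3 with h4 | h4
    · exact hNp (hpi.dvd_of_dvd_pow h4)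
    · exact hk h4
  have hsq : ∀ b : ℤ, ¬ (p : ℤ) ∣ b → jacobiSym (b ^ 2) p = 1 := by
    intro b hb
    rw [jacobiSym.pow_left, jacobiSym.sq_one]
    rw [← Int.isCoprime_iff_gcd_eq_one, isCoprime_comm]
    exact (hpi.coprime_iff_not_dvd).2 hb
  have h3 := jac_congr h1
  rw [jacobiSym.mul_left, hsq _ h2, hsq _ hNp, one_mul] at h3
  unfold Jr
  rw [← h3]
  norm_num

/-- the sums over the types and the primes -/
lemma Sp_ty (h : HH cls a f e m) (hG : ZZ a f z c) (j : J) (φ : Bool → ℝ) {z' y : ℕ}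
    (hz : z ≤ z') (F : ℕ → ℝ) :
    ∑ p ∈ PS z' y, (∑ θ : Ty, φ (θ 0) * (fam cls a f e z c).g (j, θ) p) * F p / (p : ℝ) =
      cA (e j) φ * ∑ p ∈ PS z' y, (rho (f j) p : ℝ) * F p / (p : ℝ) +
      cB (e j) φ * ∑ p ∈ PS z' y, rhoc (f j) (kp cls a f e j) p * F p / (p : ℝ) := by
  rw [mul_sum, mul_sum, ← sum_add_distrib]
  refine sum_congr rfl fun p hp => ?_
  have hp' := mem_filter.1 hp
  have hzp := (mem_Ioc.1 hp'.1).1
  rw [sum_ty h hG j hp'.2 (by omega) φ]
  ring

lemma Sp_ty1 (h : HH cls a f e m) (hG : ZZ a f z c) (j : J) (φ : Bool → ℝ) {z' y : ℕ}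
    (hz : z ≤ z') :
    Sp (fun p => ∑ θ : Ty, φ (θ 0) * (fam cls a f e z c).g (j, θ) p) z' y =
      cA (e j) φ * Sp (fun p => rho (f j) p) z' y +
      cB (e j) φ * Sp (fun p => rhoc (f j) (kp cls a f e j) p) z' y := by
  have := Sp_ty h hG j φ (y := y) hz (fun _ => 1)
  unfold Sp
  simpa only [mul_one] using this

lemma mul_finprod_ndvd (hf : Irr f) {j : J} {b : ℤ} (hb : b ≠ 0) {s : Finset J} (hs : j ∉ s) :
    ¬ mQ (f j) ∣ mQ (C b * ∏ l ∈ s, f l ^ e l) := by
  unfold mQ
  rw [Polynomial.map_mul, Polynomial.map_prod, Polynomial.map_C]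
  intro hd
  have hp := (hf.irrQ j).prime
  rcases hp.dvd_or_dvd hd with h1 | h1
  · have h2 : IsUnit (C ((Int.castRingHom ℚ) b) : ℚ[X]) := by
      rw [isUnit_C, isUnit_iff_ne_zero]
      simpa using hb
    exact (hf.irrQ j).not_isUnit (isUnit_of_dvd_unit h1 h2)
  · obtain ⟨l, hl, h2⟩ := (hp.dvd_finsetProd_iff _).1 h1
    rw [Polynomial.map_pow] at h2
    exact hf.ndvd (fun h' => hs (by rw [h']; exact hl)) (hp.dvd_of_dvd_pow h2)

lemma HH.ndvd (h : HH cls a f e m) (j : J) : ¬ mQ (f j) ∣ mQ (kp cls a f e j) := by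
  have h1 : kp cls a f e j = C (sgM (cls j) * a (cpM (cls j))) *
      ∏ l ∈ fc cls (cpM (cls j)), f l ^ e l := by
    unfold kp uu
    rw [C_mul]
    ring
  rw [h1]
  apply mul_finprod_ndvd h.hf
  · apply mul_ne_zero _ (h.ha _)
    rcases sgM_cases (cls j) with h2 | h2 <;> rw [h2] <;> norm_num
  · intro hj
    exact cpM_ne (h.c3 j) (mem_filter.1 hj).2.symm

/-- **the hypotheses of the model** -/
theorem mdlR (hh1 : Pool.Agent.TH841.TR.H1L) (htw : TWG) (h : HH cls a f e m) (sp : J → Bool)
    (hsp1 : ∀ j, sp j = false → NSqg (f j) (kp cls a f e j) 1)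
    (hsp2 : ∀ j, sp j = true → ∃ q : ℚ[X], mQ (f j) ∣ q ^ 2 - mQ (kp cls a f e j))
    (hG : ZZ a f z c) :
    ∃ z0 : ℕ, ∀ z', z0 ≤ z' → ∃ C0 E0 : ℝ,
      Mdl cls (fam cls a f e z c).g (dd e sp) (sg1 sp) c z' C0 E0 := by
  classical
  have hf := h.hf
  have hnd : ∀ j, ∀ p : ℕ, p.Prime → z < p → ∀ t : ℤ, (p : ℤ) ∣ (f j).eval t →
      ¬ (p : ℤ) ∣ (kp cls a f e j).eval t := fun j p hp hz t ht => kp_ndvd h hG hp hz ht
  -- the twisted sums
  choose E1 t1 hE1 ht1 using fun j : J => htw (f j) (hf.irr j) (hf.deg j) (kp cls a f e j)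
    (h.ndvd j)
  choose E2 t2 hE2 ht2 using fun j : J => htw (f j) (hf.irr j) (hf.deg j) 1 (by
    rw [Polynomial.map_one]
    exact fun hd => (hf.irrQ j).not_isUnit (isUnit_of_dvd_one hd))
  -- the upper bounds
  have hup : ∀ j : J, ∃ z0 : ℕ, ∀ z, z0 ≤ z → ∃ C : ℝ, sp j = false → ∀ y : ℕ, z < y →
      Sp (fun p => rhoc (f j) (kp cls a f e j) p) z y ≤ C := by
    intro j
    by_cases hj : sp j = false
    · obtain ⟨z0, hz0⟩ := hh1 (f j) (hf.irr j) (hf.deg j) (kp cls a f e j) (h.ndvd j) (hsp1 j hj)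
      exact ⟨z0, fun z hz => (hz0 z hz).imp fun C hC _ => hC⟩
    · exact ⟨0, fun z _ => ⟨0, fun h => absurd h hj⟩⟩
  choose t3 ht3 using hup
  -- the lower bounds
  choose t4 ht4 using fun j : J => low_sum (f j) (kp cls a f e j) (hf.irr j) (hf.deg j)
    (h.ndvd j) (hnd j)
  -- the split factors
  have hsq : ∀ j : J, ∃ z0 : ℕ, sp j = true → ∀ p : ℕ, p.Prime → z0 < p →
      rhoc (f j) (kp cls a f e j) p = rho (f j) p := by
    intro j
    by_cases hj : sp j = true
    · obtain ⟨q, hq⟩ := hsp2 j hj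
      obtain ⟨z0, hz0⟩ := rhoc_sq (hf.prim j) hq (hnd j)
      exact ⟨z0, fun _ => hz0⟩
    · exact ⟨0, fun h => absurd h hj⟩
  choose t5 ht5 using hsq
  refine ⟨z + univ.sup t1 + univ.sup t2 + univ.sup t3 + univ.sup t4 + univ.sup t5 +
    (2 * c + 2 + Fintype.card (I4 cls) * (8 * c)), fun z' hz' => ?_⟩
  have l1 : ∀ j, t1 j ≤ z' := fun j => (le_sup (f := t1) (mem_univ j)).trans (by omega)
  have l2 : ∀ j, t2 j ≤ z' := fun j => (le_sup (f := t2) (mem_univ j)).trans (by omega)
  have l3 : ∀ j, t3 j ≤ z' := fun j => (le_sup (f := t3) (mem_univ j)).trans (by omega)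
  have l4 : ∀ j, t4 j ≤ z' := fun j => (le_sup (f := t4) (mem_univ j)).trans (by omega)
  have l5 : ∀ j, t5 j ≤ z' := fun j => (le_sup (f := t5) (mem_univ j)).trans (by omega)
  have hzz : z ≤ z' := by omega
  choose C1 hC1 using fun j : J => ht1 j z' (l1 j)
  choose C2 hC2 using fun j : J => ht2 j z' (l2 j)
  choose C3 hC3 using fun j : J => ht3 j z' (l3 j)
  choose C4 hC4 using fun j : J => ht4 j z' (l4 j)
  have hz4 := hG.gp.four
  choose Cm hCm0 hCm using fun j : J => mert (hf.irr j) (hf.deg j) (z := z') (by omega)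
  -- the constants
  set K0 : ℝ := ∑ j, (|C1 j| + |C2 j| + |C3 j| + |C4 j| + Cm j) with hK0
  have hK : ∀ j, |C1 j| + |C2 j| + |C3 j| + |C4 j| + Cm j ≤ K0 := fun j =>
    single_le_sum (f := fun j => |C1 j| + |C2 j| + |C3 j| + |C4 j| + Cm j)
      (fun j _ => by have := hCm0 j; positivity) (mem_univ j)
  have hKj : ∀ j, |C1 j| ≤ K0 ∧ |C2 j| ≤ K0 ∧ |C3 j| + Cm j ≤ K0 ∧ |C4 j| + Cm j ≤ K0 ∧
      Cm j ≤ K0 := by
    intro j
    have h0 := hK j
    have h1 := abs_nonneg (C1 j)
    have h2 := abs_nonneg (C2 j)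
    have h3 := abs_nonneg (C3 j)
    have h4 := abs_nonneg (C4 j)
    have h5 := hCm0 j
    refine ⟨by linarith, by linarith, by linarith, by linarith, by linarith⟩
  have hK00 : 0 ≤ K0 := sum_nonneg fun j _ => by have := hCm0 j; positivity
  set L0 : ℝ := ∑ j, (E1 j + E2 j) with hL0
  have hL : ∀ j, E1 j ≤ L0 ∧ E2 j ≤ L0 := by
    intro j
    have h1 := single_le_sum (f := fun j => E1 j + E2 j)
      (fun j _ => add_nonneg (hE1 j) (hE2 j)) (mem_univ j)
    have h2 := hE1 j
    have h3 := hE2 j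
    constructor <;> linarith
  have hL00 : 0 ≤ L0 := sum_nonneg fun j _ => add_nonneg (hE1 j) (hE2 j)
  -- the sums over the types
  set g := (fam cls a f e z c).g with hg
  have hS : ∀ (j : J) (φ : Bool → ℝ) (y : ℕ),
      Sp (fun p => ∑ θ : Ty, φ (θ 0) * g (j, θ) p) z' y =
        cA (e j) φ * Sp (fun p => rho (f j) p) z' y +
        cB (e j) φ * Sp (fun p => rhoc (f j) (kp cls a f e j) p) z' y := fun j φ y =>
    Sp_ty1 h hG j φ hzz
  have hrs : ∀ (j : J) (y : ℕ), Sp (rs g j) z' y =
      cA (e j) (fun _ => 1) * Sp (fun p => rho (f j) p) z' y +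
        cB (e j) (fun _ => 1) * Sp (fun p => rhoc (f j) (kp cls a f e j) p) z' y := by
    intro j y
    rw [← hS]
    congr 1
    funext p
    unfold rs
    simp only [one_mul]
  have hrsp : ∀ (j : J) (y : ℕ), Sp (rsp g j) z' y =
      1 / 2 * Sp (fun p => rho (f j) p) z' y +
        1 / 2 * Sp (fun p => rhoc (f j) (kp cls a f e j) p) z' y := by
    intro j y
    have h1 := hS j (fun b => if b = false then 1 else 0) y
    have h2 : cA (e j) (fun b => if b = false then (1 : ℝ) else 0) = 1 / 2 := by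
      unfold cA
      split_ifs <;> simp
    have h3 : cB (e j) (fun b => if b = false then (1 : ℝ) else 0) = 1 / 2 := by
      unfold cB
      split_ifs <;> simp
    rw [h2, h3] at h1
    rw [← h1]
    congr 1
    funext p
    unfold rsp
    refine sum_congr rfl fun θ _ => ?_
    split_ifs <;> simp
  have hmert : ∀ j y, z' < y → Sp (fun p => rho (f j) p) z' y ≤ Real.log (Real.log y) + Cm j ∧
      Real.log (Real.log y) - Cm j ≤ Sp (fun p => rho (f j) p) z' y := by
    intro j y hy
    have h1 := abs_le.1 (hCm j y hy)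
    constructor <;> linarith [h1.1, h1.2]
  have hspl : ∀ j y, sp j = true → Sp (fun p => rhoc (f j) (kp cls a f e j) p) z' y =
      Sp (fun p => rho (f j) p) z' y := by
    intro j y hj
    unfold Sp
    refine sum_congr rfl fun p hp => ?_
    have hp' := mem_filter.1 hp
    have hzp := (mem_Ioc.1 hp'.1).1
    have := l5 j
    beta_reduce
    rw [ht5 j hj p hp'.2 (by omega)]
  refine ⟨K0, L0, ?_⟩
  exact
    { g0 := fun i p => RFam.g_nonneg _ i p
      gc := by
        intro j p
        have h1 := (fam_ok h hG).nrs p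
        have h2 : rs g j p = ((∑ θ : Ty, (fam cls a f e z c).nr (j, θ) p : ℕ) : ℝ) := by
          unfold rs
          rw [hg]
          unfold RFam.g
          push_cast
          rfl
        rw [h2]
        have h3 : ∑ θ : Ty, (fam cls a f e z c).nr (j, θ) p ≤ c := by
          refine le_trans ?_ h1
          rw [Fintype.sum_prod_type]
          exact single_le_sum (f := fun j => ∑ θ : Ty, (fam cls a f e z c).nr (j, θ) p)
            (fun _ _ => Nat.zero_le _) (mem_univ j)
        exact_mod_cast h3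
      c1 := hG.gp.one
      hz := by omega
      hE := hL00
      hC := hK00
      lo := by
        intro j y hy
        rw [hrs]
        obtain ⟨m1, m2⟩ := hmert j y hy
        obtain ⟨k1, k2, k3, k4, k5⟩ := hKj j
        unfold dd cA cB
        by_cases ho : Odd (e j)
        · rw [if_pos ho, if_pos ho, if_pos (Or.inl ho)]
          linarith
        · rw [if_neg ho, if_neg ho]
          by_cases hs : sp j = true
          · rw [if_pos (Or.inr hs), hspl j y hs]
            linarith
          · rw [if_neg (by tauto)]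
            have h4 := hC4 j y hy
            have h5 := le_abs_self (C4 j)
            have h6 := hCm0 j
            have h7 := abs_nonneg (C4 j)
            linarith
      up := by
        intro j y hy
        rw [hrs]
        obtain ⟨m1, m2⟩ := hmert j y hy
        obtain ⟨k1, k2, k3, k4, k5⟩ := hKj j
        unfold dd cA cB
        by_cases ho : Odd (e j)
        · rw [if_pos ho, if_pos ho, if_pos (Or.inl ho)]
          linarith
        · rw [if_neg ho, if_neg ho]
          by_cases hs : sp j = true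
          · rw [if_pos (Or.inr hs), hspl j y hs]
            linarith
          · rw [if_neg (by tauto)]
            have h4 := hC3 j (by simpa using hs) y hy
            have h5 := le_abs_self (C3 j)
            have h6 := hCm0 j
            have h7 := abs_nonneg (C3 j)
            linarith
      spl := by
        intro j y _ hy
        rw [hrsp]
        obtain ⟨m1, m2⟩ := hmert j y hy
        obtain ⟨k1, k2, k3, k4, k5⟩ := hKj j
        unfold sg1
        by_cases hs : sp j = true
        · rw [if_pos hs, hspl j y hs]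
          linarith
        · rw [if_neg hs]
          have h4 := hC3 j (by simpa using hs) y hy
          have h5 := le_abs_self (C3 j)
          have h6 := hCm0 j
          have h7 := abs_nonneg (C3 j)
          linarith
      H2 := by
        intro i y r b hy hr hsq hpr
        have hc3 := h.c3 i.1.1
        have hJ1 : ∀ p : ℕ, Jr 1 p = 1 := by
          intro p
          unfold Jr
          rw [jacobiSym.one_left]
          norm_num
        have hkm : κm cls i = 1 := by
          unfold κm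
          split_ifs <;> rfl
        obtain ⟨φ, hφ1, hφ2⟩ : ∃ φ : Bool → ℝ, (∀ p, acf cls g i p =
            w4 cls i * ∑ θ : Ty, φ (θ 0) * g (i.1.1, θ) p) ∧
            ((∀ x, φ x = 1) ∨ (∀ x, φ x = if x = true then -1 else 1)) := by
          by_cases hl : i.1.2.1 = (false, false) ∨ i.1.2.2 = (false, false)
          · refine ⟨fun _ => 1, fun p => ?_, Or.inl fun _ => rfl⟩
            unfold acf
            rw [hkm, hJ1, one_mul, mul_sum]
            refine sum_congr rfl fun θ _ => ?_
            have : bit4 cls (fun _ => θ) i = false := by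
              unfold bit4
              rw [if_pos hl]
            rw [this]
            simp
          · refine ⟨fun x => if x = true then -1 else 1, fun p => ?_, Or.inr fun _ => rfl⟩
            unfold acf
            rw [hkm, hJ1, one_mul, mul_sum]
            refine sum_congr rfl fun θ _ => ?_
            have : bit4 cls (fun _ => θ) i = θ 0 := by
              unfold bit4
              rw [if_neg hl, if_neg hc3]
            rw [this]
        have hsum : ∑ p ∈ PS z' y, acf cls g i p * (Jr p r * x4 b p) / (p : ℝ) =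
            w4 cls i * (cA (e i.1.1) φ * ∑ p ∈ PS z' y,
              (rho (f i.1.1) p : ℝ) * (Jr p r * x4 b p) / (p : ℝ) +
            cB (e i.1.1) φ * ∑ p ∈ PS z' y,
              rhoc (f i.1.1) (kp cls a f e i.1.1) p * (Jr p r * x4 b p) / (p : ℝ)) := by
          rw [← Sp_ty h hG i.1.1 φ hzz, mul_sum]
          refine sum_congr rfl fun p _ => ?_
          rw [hφ1]
          ring
        have hlr := Pool.Agent.TH841.PT.loglog_nonneg (by omega : 2 ≤ z') hr hpr
        have b1 : ∑ p ∈ PS z' y, (rho (f i.1.1) p : ℝ) * (Jr p r * x4 b p) / (p : ℝ) ≤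
            L0 * Real.log (Real.log r) + K0 := by
          have h1 := hC2 i.1.1 y r b hy hr hsq hpr
          have h2 : ∑ p ∈ PS z' y, (rho (f i.1.1) p : ℝ) * (Jr p r * x4 b p) / (p : ℝ) =
              ∑ p ∈ PS z' y, rhoc (f i.1.1) 1 p * (Jr p r * x4 b p) / (p : ℝ) := by
            refine sum_congr rfl fun p _ => ?_
            congr 2
            unfold rhoc rho
            simp [hJ1]
          rw [h2]
          have h3 := mul_le_mul_of_nonneg_right (hL i.1.1).2 hlr
          linarith [le_abs_self (C2 i.1.1), (hKj i.1.1).2.1]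
        have b2 : ∑ p ∈ PS z' y, rhoc (f i.1.1) (kp cls a f e i.1.1) p *
            (Jr p r * x4 b p) / (p : ℝ) ≤ L0 * Real.log (Real.log r) + K0 := by
          have h1 := hC1 i.1.1 y r b hy hr hsq hpr
          have h3 := mul_le_mul_of_nonneg_right (hL i.1.1).1 hlr
          linarith [le_abs_self (C1 i.1.1), (hKj i.1.1).1]
        have hB : 0 ≤ L0 * Real.log (Real.log r) + K0 := by positivity
        have hAB : 0 ≤ cA (e i.1.1) φ ∧ 0 ≤ cB (e i.1.1) φ ∧
            cA (e i.1.1) φ + cB (e i.1.1) φ ≤ 1 := by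
          unfold cA cB
          rcases hφ2 with h1 | h1
          · rw [h1, h1]
            split_ifs <;> norm_num
          · have f0 : φ false = 1 := by rw [h1]; simp
            have f1 : φ true = -1 := by rw [h1]; simp
            rw [f0, f1]
            split_ifs <;> norm_num
        rw [hsum]
        obtain ⟨a1, a2, a3⟩ := hAB
        have h5 := mul_le_mul_of_nonneg_left b1 a1
        have h6 := mul_le_mul_of_nonneg_left b2 a2
        have h7 : (cA (e i.1.1) φ + cB (e i.1.1) φ) * (L0 * Real.log (Real.log r) + K0) ≤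
            1 * (L0 * Real.log (Real.log r) + K0) := mul_le_mul_of_nonneg_right a3 hB
        have h8 : cA (e i.1.1) φ * ∑ p ∈ PS z' y,
              (rho (f i.1.1) p : ℝ) * (Jr p r * x4 b p) / (p : ℝ) +
            cB (e i.1.1) φ * ∑ p ∈ PS z' y,
              rhoc (f i.1.1) (kp cls a f e i.1.1) p * (Jr p r * x4 b p) / (p : ℝ) ≤
            L0 * Real.log (Real.log r) + K0 := by linarith
        have h9 := mul_le_mul_of_nonneg_left h8 (Pool.Agent.TH841.PT.w4_pos cls i).le
        have h10 := mul_le_mul_of_nonneg_right (Pool.Agent.TH841.PT.w4_le cls i) hB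
        linarith }

end

end Pool.Agent.K7.H54.HR
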