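import Pool.Agent.K7.H54.HR.MdlR
import Pool.Agent.K7.H54.HR.Avg
import Pool.Agent.TH841.TR.Fin2

/-!
# Project HR: the average of the order of the 2-Selmer group, odd exponents
-/

set_option autoImplicit false
set_option linter.all false

namespace Pool.Agent.K7.H54.HR

open Finset Polynomial Pool.Agent.W262.RK Pool.Agent.W307.RT Pool.Agent.TH841.PT
open Pool.Agent.R421.HF
open Pool.Agent.R421.UR

open Pool.Agent.H474R2.PG (rho)

section

variable {J : Type} [Fintype J] [DecidableEq J]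

variable {cls : J → Fin 4} {a : Fin 3 → ℤ} {f : J → ℤ[X]} {e : J → ℕ} {m z c : ℕ}

lemma fs_eq (h3 : ∀ j, cls j ≠ 3) (k : Fin 3) : fs cls k = fc cls k := by
  unfold fs fc
  refine filter_congr fun l _ => ?_
  constructor
  · rintro (h | h)
    · exact h
    · exact absurd h (h3 l)
  · exact Or.inl

/-- the square root of the quotient -/
noncomputable def rt2 (cls : J → Fin 4) (f : J → ℤ[X]) (e : J → ℕ) (k : Fin 3) : ℤ[X] :=
  ∏ l ∈ fc cls k, f l ^ ((e l - 1) / 2)

lemma kp_kpol (h3 : ∀ j, cls j ≠ 3) (ho : ∀ j, Odd (e j)) (j : J) (k : Fin 3) :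
    kp cls a f e j = kpol cls a f j k * rt2 cls f e (cpM (cls j)) ^ 2 := by
  unfold kp uu kpol rt2
  rw [if_neg (h3 j), fs_eq h3, ← prod_pow]
  have e1 : sg4 (cls j) = sgM (cls j) := rfl
  have e2 : cp4 (cls j) = cpM (cls j) := rfl
  have e3 : ∏ l ∈ fc cls (cpM (cls j)), f l ^ e l = (∏ l ∈ fc cls (cpM (cls j)), f l) *
      ∏ l ∈ fc cls (cpM (cls j)), (f l ^ ((e l - 1) / 2)) ^ 2 := by
    rw [← prod_mul_distrib]
    refine prod_congr rfl fun l _ => ?_
    rw [← pow_mul, ← pow_succ']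
    congr 1
    obtain ⟨b, hb⟩ := ho l
    omega
  rw [e1, e2, C_mul, e3]
  ring

lemma sg0_sq {p : ℕ} (hp : p.Prime) {k r : ℤ} (h : ¬ (p : ℤ) ∣ k * r ^ 2) :
    sg0 p (k * r ^ 2) = sg0 p k := by
  have hr : ¬ (p : ℤ) ∣ r := fun h2 => h (dvd_mul_of_dvd_right (dvd_pow h2 two_ne_zero) _)
  have : Fact p.Prime := ⟨hp⟩
  unfold sg0
  rw [jacobiSym.mul_left, jacobiSym.pow_left, jacobiSym.sq_one, mul_one]
  rw [Int.gcd_comm, ← Int.isCoprime_iff_gcd_eq_one]
  exact (Prime.coprime_iff_not_dvd (Nat.prime_iff_prime_int.1 hp)).2 hr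

lemma g_rT (h : HH cls a f e m) (hG : ZZ a f z c) (ho : ∀ j, Odd (e j)) (i : J × Ty) {p z' : ℕ}
    (hp : p.Prime) (hz : z < p) (hz' : z' < p) :
    (fam cls a f e z c).g i p = rT cls a f z' i p := by
  unfold RFam.g rT
  simp only [fam]
  rw [if_pos ⟨hp, hz⟩, if_pos ⟨hp, hz'⟩]
  congr 2
  unfold Rtt
  refine filter_congr fun x _ => ?_
  refine and_congr_right fun hx => ?_
  have hnd := kp_ndvd h hG hp hz hx
  have hkv : kv cls a f e i.1 x 1 = (kp cls a f e i.1).eval (x : ℤ) := by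
    rw [h.kv_eq, hv_one (h.kp_deg i.1)]
  have h1 : tyj cls a f e i.1 p x 1 = some (Pool.Agent.TH841.PT.ty cls a f p x i.1) := by
    unfold tyj tyo
    rw [if_pos (ho _), hkv]
    congr 1
    funext k
    unfold tyb Pool.Agent.TH841.PT.ty
    rw [← kpol_eval]
    rw [kp_kpol h.c3 ho i.1 k, eval_mul, eval_pow] at hnd ⊢
    exact sg0_sq hp hnd
  rw [h1]
  constructor
  · intro h2
    exact Option.some.inj h2
  · intro h2
    rw [h2]

lemma NBA_one (cls : J → Fin 4) (ee : J → Fin 3 → Bool) (s : J → ℕ) :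
    NBA 1 cls ee s = NBT cls ee s := by
  unfold NBA NBT
  simp only [Real.rpow_one]

/-- **the sum over the tuples for odd exponents** -/
theorem makO (h : HH cls a f e m) (ho : ∀ j, Odd (e j)) (sp : J → Bool)
    (htri : Pool.Agent.TH841.TR.Tri cls sp)
    (hsp : ∀ j, sp j = false → ∀ q : ℚ[X], ¬ mQ (f j) ∣ q ^ 2 - mQ (kp cls a f e j))
    (hc : (∏ j, f j).natDegree + 1 ≤ c) (hG : ZZ a f z c) :
    MK (fam cls a f e z c) 1 := by
  have hk := Pool.Agent.TH841.TR.mk Pool.Agent.TH841.TR.EULf.eul Pool.Agent.TH841.TR.COMBf.combx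
    cls a f sp h.ha h.hf htri (fun j _ hj q hq => by
      apply hsp j hj (q * (rt2 cls f e (cpM (cls j))).map (Int.castRingHom ℚ))
      unfold mQ
      rw [kp_kpol h.c3 ho j 0, Polynomial.map_mul, Polynomial.map_pow]
      have e1 : (q * (rt2 cls f e (cpM (cls j))).map (Int.castRingHom ℚ)) ^ 2 -
          (kpol cls a f j 0).map (Int.castRingHom ℚ) *
            (rt2 cls f e (cpM (cls j))).map (Int.castRingHom ℚ) ^ 2 =
          (q ^ 2 - C ((1 : ℤ) : ℚ) * (kpol cls a f j 0).map (Int.castRingHom ℚ)) *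
            (rt2 cls f e (cpM (cls j))).map (Int.castRingHom ℚ) ^ 2 := by
        rw [Int.cast_one, C_1]
        ring
      rw [e1]
      exact hq.mul_right _) c hc
  obtain ⟨z0, hz0⟩ := hk
  refine ⟨z0 + z, fun z' hz' => ?_⟩
  obtain ⟨hGp, C, hC⟩ := hz0 z' (by omega)
  refine ⟨C, fun y hy => ?_⟩
  have h1 := hC y hy
  have h2 : ∑ j, Sp (rs (fam cls a f e z c).g j) z' y = Sp (fun p => rho (∏ j, f j) p) z' y := by
    unfold Sp
    rw [sum_comm]
    refine sum_congr rfl fun p hp => ?_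
    have hp' := mem_filter.1 hp
    have hpz := (mem_Ioc.1 hp'.1).1
    rw [← sum_div]
    congr 1
    beta_reduce
    rw [rho_prod hGp hp'.2 hpz]
    push_cast
    refine sum_congr rfl fun j _ => ?_
    rw [← rs_rT (cls := cls) (a := a) (f := f) hp'.2 hpz j]
    unfold rs
    exact sum_congr rfl fun θ _ => g_rT h hG ho (j, θ) hp'.2 (by omega) hpz
  rw [h2]
  refine le_trans (le_of_eq ?_) h1
  refine sum_congr rfl fun s hs => ?_
  have h3 : clsI (fam cls a f e z c).cls = clsI cls := rfl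
  have h4 : (fam cls a f e z c).c = c := rfl
  rw [h3, h4, NBA_one]
  congr 1
  refine prod_congr rfl fun i _ => ?_
  unfold gp
  refine prod_congr rfl fun p hp => ?_
  have h5 := Pool.Agent.W372.RK2.mem_Tup'.1 hs
  have h6 : p ∈ PS z' y := by
    have h7 : p ∣ PP z' y :=
        (Nat.dvd_of_mem_primeFactors hp).trans (Nat.dvd_of_mem_divisors (h5.1 i))
    exact (prime_dvd_PP (Nat.prime_of_mem_primeFactors hp)).1 h7
  have h8 := mem_PS.1 h6
  rw [g_rT h hG ho i h8.2 (by omega) h8.1.1]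

end

end Pool.Agent.K7.H54.HR
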