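import Pool.Agent.K7.H54.HR.Fin
import Pool.Agent.K7.H54.HR.MakO

/-!
# Project HR: the average of the order of the 2-Selmer group over the rational parameters
-/

set_option autoImplicit false
set_option linter.all false

namespace Pool.Agent.K7.H54.HR

open Finset Polynomial Pool.Agent.W262.RK Pool.Agent.W307.RT Pool.Agent.TH841.PT
open Pool.Agent.R421.HF
open Pool.Agent.R421.UR
open Pool.Agent.W307.SE (SN SN_nonneg)
open Pool.Agent.TH841.SH.D (ShaTor HasDiv rk)

section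

variable {J : Type} [Fintype J] [DecidableEq J]

variable {cls : J → Fin 4} {a : Fin 3 → ℤ} {f : J → ℤ[X]} {n e : J → ℕ} {m : ℕ}

open Classical in
/-- **the average over the coprime pairs** -/
theorem coreO (h : PJ cls a f n e m) (ho : ∀ j, Odd (e j)) (sp : J → Bool)
    (hsp : ∀ j, sp j = true ↔ SqJ cls a f e m j) (htri : Pool.Agent.TH841.TR.Tri cls sp) :
    ∃ C : ℝ, 0 ≤ C ∧ ∀ T : ℕ, 1 ≤ T →
      ∑ t ∈ (Box T).filter (fun t : ℤ × ℤ => IsCoprime t.1 t.2 ∧
          ∀ j, hv (n j) (f j) t.1 t.2 ≠ 0),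
        SN (Uw cls a f n e t.1 t.2 0) (Uw cls a f n e t.1 t.2 1) ≤ C * (T : ℝ) ^ 2 := by
  obtain ⟨c, hc⟩ := h.exists_c
  have hH := nf_HH h hc
  obtain ⟨z, hz⟩ := exists_ZZ GDPf.gdp hH.hf h.ha ((∏ j, nf c f n j).natDegree + 1) le_rfl
  have hG := hz z le_rfl
  have hm := makO hH ho sp htri
    (fun j hj q hq => by
      have h1 : SqJ cls a f e m j := (SqJ_iff h hc j).2 ⟨q, hq⟩
      rw [← hsp, hj] at h1
      exact Bool.false_ne_true h1) le_rfl hG
  obtain ⟨C, hC0, hC⟩ := avgT (fam cls a (nf c f n) e z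
    ((∏ j, nf c f n j).natDegree + 1)) (fam_ok hH hG) one_pos le_rfl hm
  refine ⟨C * (1 + c.natAbs : ℕ) ^ 2, by positivity, fun T hT => ?_⟩
  have h1 := transfer h hc hC T hT
  simp only [Real.rpow_one] at h1
  exact h1

end

section

variable {n : Fin 3 → ℕ}

open Classical in
/-- the number of the places of bad reduction of the class `k` -/
noncomputable def nB (a : Fin 3 → ℤ) (f : ∀ k : Fin 3, Fin (n k) → ℤ[X])
    (e : ∀ k : Fin 3, Fin (n k) → ℕ) (m : ℕ) (k : Fin 3) : ℕ :=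
  n k + (if (uf a f e k).natDegree < 2 * m then 1 else 0)

open Classical in
/-- the number of the places of split reduction of the class `k` -/
noncomputable def sB (a : Fin 3 → ℤ) (f : ∀ k : Fin 3, Fin (n k) → ℤ[X])
    (e : ∀ k : Fin 3, Fin (n k) → ℕ) (m : ℕ) (k : Fin 3) : ℕ :=
  (univ.filter (fun i => SqMd (f k i) (vf a f e k))).card +
    (if (uf a f e k).natDegree < 2 * m ∧ IsSquare (((vf a f e k).coeff (2 * m) : ℤ) : ℚ) then 1
      else 0)

variable {a : Fin 3 → ℤ} {f : ∀ k : Fin 3, Fin (n k) → ℤ[X]} {e : ∀ k : Fin 3, Fin (n k) → ℕ}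
  {m : ℕ}

lemma card_nB (k : Fin 3) :
    (univ.filter (fun j => clT n (PI a f e m) j = k.castSucc)).card = nB a f e m k := by
  classical
  have h1 : (univ.filter (fun j => clT n (PI a f e m) j = k.castSucc)).card =
      ∑ j ∈ fc (clT n (PI a f e m)) k, 1 := by
    rw [sum_const, smul_eq_mul, mul_one]
    rfl
  rw [h1, sum_fc]
  unfold nB
  rw [sum_const, card_univ, Fintype.card_fin, smul_eq_mul, mul_one]
  congr 1

lemma HY.card_sB (h : HY a f e m) (k : Fin 3) :
    (univ.filter (fun j => clT n (PI a f e m) j = k.castSucc ∧ spT a f e m j = true)).card =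
      sB a f e m k := by
  classical
  have h1 : (univ.filter (fun j => clT n (PI a f e m) j = k.castSucc ∧
      spT a f e m j = true)).card =
      ∑ j ∈ fc (clT n (PI a f e m)) k, (if spT a f e m j = true then 1 else 0) := by
    rw [← filter_filter, card_eq_sum_ones, sum_filter]
    rfl
  rw [h1, sum_fc]
  unfold sB
  rw [card_eq_sum_ones, sum_filter]
  congr 1
  · refine sum_congr rfl fun i _ => ?_
    unfold spT
    simp only [decide_eq_true_eq, h.sq_inl]
  · by_cases hk : PI a f e m k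
    · rw [dif_pos hk]
      unfold spT
      simp only [decide_eq_true_eq, sq_inr]
      by_cases hs : IsSquare (((vf a f e k).coeff (2 * m) : ℤ) : ℚ)
      · rw [if_pos hs, if_pos ⟨hk, hs⟩]
      · rw [if_neg hs, if_neg (fun h2 => hs h2.2)]
    · rw [dif_neg hk, if_neg (fun h2 => hk h2.1)]

/-- **the average over the rational parameters** -/
theorem mainSO (h : HY a f e m) (ho : ∀ k i, Odd (e k i))
    (ho' : ∀ k, (uf a f e k).natDegree < 2 * m → Odd (uf a f e k).natDegree)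
    (hs : ∀ k, 2 * nB a f e m k + sB a f e m k ≤ nB a f e m 0 + nB a f e m 1 + nB a f e m 2) :
    ∃ C : ℝ, 0 ≤ C ∧ ∀ T : ℕ, 1 ≤ T → ∀ S : Finset ℚ,
      (∀ t ∈ S, t.num.natAbs ≤ T ∧ t.den ≤ T ∧ ∀ k, vl (uf a f e k) t ≠ 0) →
      ∑ t ∈ S, SN (Uw (clT n (PI a f e m)) a (fT (PI a f e m) f) (nT (PI a f e m) f)
        (eT a f e m) t.num (t.den : ℤ) 0) (Uw (clT n (PI a f e m)) a (fT (PI a f e m) f)
        (nT (PI a f e m) f) (eT a f e m) t.num (t.den : ℤ) 1) ≤ C * (T : ℝ) ^ 2 := by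
  classical
  have hsp : ∀ j, spT a f e m j = true ↔
      SqJ (clT n (PI a f e m)) a (fT (PI a f e m) f) (eT a f e m) m j := by
    intro j
    unfold spT
    exact decide_eq_true_iff
  have hodd : ∀ j, Odd (eT a f e m j) := by
    rintro (x | k)
    · exact ho x.1 x.2
    · have h1 := ho' k.1 k.2
      have h2 := k.2
      change Odd (2 * m - (uf a f e k.1).natDegree)
      unfold PI at h2
      obtain ⟨b, hb⟩ := h1
      exact ⟨m - b - 1, by omega⟩
  have htri : Pool.Agent.TH841.TR.Tri (clT n (PI a f e m)) (spT a f e m) := by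
    intro k hk
    obtain ⟨l, rfl⟩ : ∃ l : Fin 3, l.castSucc = k := by
      revert k
      decide
    have h1 : (univ.filter (fun j => clT n (PI a f e m) j ≠ 3)).card =
        nB a f e m 0 + nB a f e m 1 + nB a f e m 2 := by
      rw [← card_nB, ← card_nB, ← card_nB, card_eq_sum_ones, card_eq_sum_ones, card_eq_sum_ones,
        card_eq_sum_ones, sum_filter, sum_filter, sum_filter, sum_filter, ← sum_add_distrib,
        ← sum_add_distrib]
      refine sum_congr rfl fun j _ => ?_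
      have c0 : (Fin.castSucc (0 : Fin 3)) = (0 : Fin 4) := rfl
      have c1 : (Fin.castSucc (1 : Fin 3)) = (1 : Fin 4) := rfl
      have c2 : (Fin.castSucc (2 : Fin 3)) = (2 : Fin 4) := rfl
      rw [c0, c1, c2]
      generalize clT n (PI a f e m) j = c
      fin_cases c <;> simp
    rw [h1, card_nB, h.card_sB]
    exact hs l
  obtain ⟨C, hC0, hC⟩ := coreO h.pj hodd (spT a f e m) hsp htri
  refine ⟨C, hC0, fun T hT S hS => ?_⟩
  obtain ⟨φ, hφ⟩ : ∃ φ : ℚ → ℤ × ℤ, ∀ t, φ t = (t.num, (t.den : ℤ)) := ⟨_, fun t => rfl⟩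
  have hφi : Function.Injective φ := by
    intro t t' htt
    rw [hφ, hφ, Prod.mk.injEq] at htt
    exact Rat.ext htt.1 (by exact_mod_cast htt.2)
  have h1 := hC T hT
  refine le_trans ?_ h1
  have h2 := h.img T S hS φ hφ
  have h3 := sum_le_sum_of_subset_of_nonneg (f := fun t : ℤ × ℤ =>
    SN (Uw (clT n (PI a f e m)) a (fT (PI a f e m) f) (nT (PI a f e m) f)
        (eT a f e m) t.1 t.2 0) (Uw (clT n (PI a f e m)) a (fT (PI a f e m) f)
        (nT (PI a f e m) f) (eT a f e m) t.1 t.2 1)) h2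
    fun t _ _ => SN_nonneg _ _
  refine le_trans (le_of_eq ?_) h3
  rw [sum_image fun _ _ _ _ hh => hφi hh]
  refine sum_congr rfl fun t _ => ?_
  simp only [hφ]

open Classical in
/-- **ranks and Tate-Shafarevich groups over the rational parameters** -/
theorem mainQO (h : HY a f e m) (ho : ∀ k i, Odd (e k i))
    (ho' : ∀ k, (uf a f e k).natDegree < 2 * m → Odd (uf a f e k).natDegree)
    (hs : ∀ k, 2 * nB a f e m k + sB a f e m k ≤ nB a f e m 0 + nB a f e m 1 + nB a f e m 2) :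
    ∃ C : ℝ, ∀ T : ℕ, 1 ≤ T → ∀ S : Finset ℚ,
      (∀ t ∈ S, t.num.natAbs ≤ T ∧ t.den ≤ T ∧ ∀ k, vl (uf a f e k) t ≠ 0) →
      (∀ t ∈ S, ∀ k : ℕ, Finite (ShaTor (Ft a f e m t) (2 ^ k))) ∧
      (∀ k : ℕ, 1 ≤ k → ∑ t ∈ S, (2 : ℝ) ^ rk (Ft a f e m t) *
        (Nat.card (ShaTor (Ft a f e m t) (2 ^ k)) : ℝ) ^ ((1 : ℝ) / k) ≤ C * (T : ℝ) ^ 2) ∧
      ∀ r q : ℕ, ((S.filter (fun t => r ≤ rk (Ft a f e m t) ∧
        HasDiv (Ft a f e m t) q)).card : ℝ) ≤ C * (T : ℝ) ^ 2 / 2 ^ (r + q) := by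
  obtain ⟨C, hC0, hC⟩ := mainSO h ho ho' hs
  refine ⟨C, fun T hT S hS => ?_⟩
  have h1 := familyA S (fun t => Ft a f e m t) _ _ (zero_le_one' ℝ)
    (fun t ht => h.bd t (hS t ht).2.2) (by simpa only [Real.rpow_one] using hC T hT S hS)
  simp only [Real.rpow_one] at h1
  refine ⟨h1.1, h1.2.1, fun r q => (h1.2.2 r q).trans (le_of_eq ?_)⟩
  rw [one_mul, ← Nat.cast_add, Real.rpow_natCast]

end

end Pool.Agent.K7.H54.HR
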