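import Mathlib

/-!
# Project HR: the values of the homogenization of a polynomial
-/

set_option autoImplicit false
set_option linter.all false

namespace Pool.Agent.K7.H54.HR

open Finset Polynomial

/-- the value at `(x, y)` of the homogenization of degree `n` of `f` -/
def hv (n : ℕ) (f : ℤ[X]) (x y : ℤ) : ℤ := ∑ i ∈ range (n + 1), f.coeff i * x ^ i * y ^ (n - i)

lemma hv_scale {n : ℕ} {f : ℤ[X]} (hf : f.natDegree ≤ n) (x y : ℤ) :
    hv n f (x * y) y = y ^ n * f.eval x := by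
  unfold hv
  rw [eval_eq_sum_range' (Nat.lt_succ_of_le hf), mul_sum]
  refine sum_congr rfl fun i hi => ?_
  have h1 : i ≤ n := Nat.lt_succ_iff.1 (mem_range.1 hi)
  have h2 : y ^ n = y ^ i * y ^ (n - i) := by rw [← pow_add]; congr 1; omega
  rw [mul_pow, h2]
  ring

lemma hv_one {n : ℕ} {f : ℤ[X]} (hf : f.natDegree ≤ n) (x : ℤ) : hv n f x 1 = f.eval x := by
  have := hv_scale hf x 1
  rwa [mul_one, one_pow, one_mul] at this

lemma hv_zero (n : ℕ) (f : ℤ[X]) (x : ℤ) : hv n f x 0 = f.coeff n * x ^ n := by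
  unfold hv
  rw [sum_eq_single n]
  · simp
  · intro i hi hne
    have h1 : i ≤ n := Nat.lt_succ_iff.1 (mem_range.1 hi)
    rw [zero_pow (by omega), mul_zero]
  · intro h
    exact absurd (mem_range.2 (Nat.lt_succ_self n)) h

lemma hv_rat {n : ℕ} {f : ℤ[X]} (hf : f.natDegree ≤ n) (x : ℤ) {y : ℤ} (hy : y ≠ 0) :
    ((hv n f x y : ℤ) : ℚ) = (y : ℚ) ^ n * (f.map (Int.castRingHom ℚ)).eval ((x : ℚ) / y) := by
  have hy' : (y : ℚ) ≠ 0 := by exact_mod_cast hy
  unfold hv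
  rw [eval_eq_sum_range' (n := n + 1) (Nat.lt_succ_of_le (natDegree_map_le.trans hf)), mul_sum]
  push_cast
  refine sum_congr rfl fun i hi => ?_
  have h1 : i ≤ n := Nat.lt_succ_iff.1 (mem_range.1 hi)
  have h2 : (y : ℚ) ^ n = (y : ℚ) ^ i * (y : ℚ) ^ (n - i) := by rw [← pow_add]; congr 1; omega
  rw [coeff_map, div_pow, h2]
  simp only [eq_intCast]
  field_simp

lemma hv_sub (n : ℕ) (f g : ℤ[X]) (x y : ℤ) : hv n (f - g) x y = hv n f x y - hv n g x y := by
  unfold hv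
  rw [← sum_sub_distrib]
  refine sum_congr rfl fun i _ => ?_
  rw [coeff_sub]
  ring

lemma hv_C_mul (n : ℕ) (a : ℤ) (f : ℤ[X]) (x y : ℤ) : hv n (C a * f) x y = a * hv n f x y := by
  unfold hv
  rw [mul_sum]
  refine sum_congr rfl fun i _ => ?_
  rw [coeff_C_mul]
  ring

lemma hv_mul {n m : ℕ} {f g : ℤ[X]} (hf : f.natDegree ≤ n) (hg : g.natDegree ≤ m) (x y : ℤ) :
    hv (n + m) (f * g) x y = hv n f x y * hv m g x y := by
  by_cases hy : y = 0
  · subst hy
    rw [hv_zero, hv_zero, hv_zero, coeff_mul_add_eq_of_natDegree_le hf hg]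
    ring
  · have h1 := hv_rat (n := n + m) (f := f * g) (natDegree_mul_le.trans (add_le_add hf hg)) x hy
    have h2 := hv_rat hf x hy
    have h3 := hv_rat hg x hy
    have : ((hv (n + m) (f * g) x y : ℤ) : ℚ) = ((hv n f x y * hv m g x y : ℤ) : ℚ) := by
      push_cast
      rw [h1, h2, h3, Polynomial.map_mul, eval_mul]
      ring
    exact_mod_cast this

lemma hv_pow {n : ℕ} {f : ℤ[X]} (hf : f.natDegree ≤ n) (e : ℕ) (x y : ℤ) :
    hv (e * n) (f ^ e) x y = hv n f x y ^ e := by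
  induction e with
  | zero =>
    rw [pow_zero, pow_zero, zero_mul]
    unfold hv
    simp
  | succ e ih =>
    rw [pow_succ, pow_succ, add_mul, one_mul, hv_mul (natDegree_pow_le_of_le e hf) hf, ih]

lemma hv_prod {ι : Type} (s : Finset ι) (n e : ι → ℕ) (f : ι → ℤ[X])
    (hf : ∀ i ∈ s, (f i).natDegree ≤ n i) (x y : ℤ) :
    hv (∑ i ∈ s, e i * n i) (∏ i ∈ s, f i ^ e i) x y = ∏ i ∈ s, hv (n i) (f i) x y ^ e i := by
  classical
  induction s using Finset.induction_on with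
  | empty =>
    rw [prod_empty, prod_empty, sum_empty]
    unfold hv
    simp
  | insert a s ha ih =>
    rw [prod_insert ha, prod_insert ha, sum_insert ha, hv_mul, hv_pow (hf a (mem_insert_self _ _)),
      ih fun i hi => hf i (mem_insert_of_mem hi)]
    · exact natDegree_pow_le_of_le _ (hf a (mem_insert_self _ _))
    · refine (natDegree_prod_le _ _).trans (sum_le_sum fun i hi => ?_)
      exact natDegree_pow_le_of_le _ (hf i (mem_insert_of_mem hi))

/-- congruences -/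
lemma hv_cong (n : ℕ) (f : ℤ[X]) {m x x' y y' : ℤ} (hx : m ∣ x - x') (hy : m ∣ y - y') :
    m ∣ hv n f x y - hv n f x' y' := by
  unfold hv
  have hx' : x ≡ x' [ZMOD m] := (Int.modEq_iff_dvd.2 (by rw [← neg_sub]; exact hx.neg_right))
  have hy' : y ≡ y' [ZMOD m] := (Int.modEq_iff_dvd.2 (by rw [← neg_sub]; exact hy.neg_right))
  have h : (∑ i ∈ range (n + 1), f.coeff i * x ^ i * y ^ (n - i)) ≡
      (∑ i ∈ range (n + 1), f.coeff i * x' ^ i * y' ^ (n - i)) [ZMOD m] := by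
    refine Int.ModEq.sum fun i _ => ?_
    exact ((Int.ModEq.refl _).mul (hx'.pow _)).mul (hy'.pow _)
  exact (Int.modEq_iff_dvd.1 h.symm)

/-- the size -/
lemma hv_size (n : ℕ) (f : ℤ[X]) {x y : ℤ} {T : ℕ} (hx : x.natAbs ≤ T) (hy : y.natAbs ≤ T) :
    (hv n f x y).natAbs ≤ (∑ i ∈ range (n + 1), (f.coeff i).natAbs) * T ^ n := by
  unfold hv
  refine (Int.natAbs_sum_le _ _).trans ?_
  rw [sum_mul]
  refine sum_le_sum fun i hi => ?_
  have h1 : i ≤ n := Nat.lt_succ_iff.1 (mem_range.1 hi)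
  rw [Int.natAbs_mul, Int.natAbs_mul, Int.natAbs_pow, Int.natAbs_pow, mul_assoc]
  apply Nat.mul_le_mul_left
  have h2 : T ^ n = T ^ i * T ^ (n - i) := by rw [← pow_add]; congr 1; omega
  rw [h2]
  exact Nat.mul_le_mul (Nat.pow_le_pow_left hx _) (Nat.pow_le_pow_left hy _)

/-- a solution of `x ≡ t y` modulo `p ^ k` -/
lemma exists_ratio {p : ℕ} (hp : p.Prime) (k : ℕ) (x : ℤ) {y : ℤ} (hy : ¬ (p : ℤ) ∣ y) :
    ∃ t : ℤ, (p : ℤ) ^ k ∣ x - t * y := by
  have h1 : IsCoprime ((p : ℤ) ^ k) y := by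
    apply IsCoprime.pow_left
    exact (Prime.coprime_iff_not_dvd (Nat.prime_iff_prime_int.1 hp)).2 hy
  obtain ⟨u, v, huv⟩ := h1
  refine ⟨x * v, x * u, ?_⟩
  linear_combination x * huv.symm

/-- reduction to the values of the polynomial -/
lemma hv_red {n : ℕ} {f : ℤ[X]} (hf : f.natDegree ≤ n) {m x y t : ℤ} (h : m ∣ x - t * y) :
    m ∣ hv n f x y - y ^ n * f.eval t := by
  rw [← hv_scale hf]
  exact hv_cong n f h (by simp)

end Pool.Agent.K7.H54.HR
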