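import Mathlib
import Pool.Agent.W307.SE.Locp
import Pool.Agent.W612.SE.Seld
import Pool.Agent.W407.SE.Ratp
import Pool.Agent.R421.HF.Neu

/-!
# Project HR: the 2-Selmer group, with primes without a contribution
-/

set_option autoImplicit false
set_option linter.all false

namespace Pool.Agent.K7.H54.HR

open Finset Pool.Agent.W262.RK Pool.Agent.W307.SE Pool.Agent.W214.RK2 Pool.Agent.W599.RK
open Pool.Agent.W612.SE Pool.Agent.R421.HF

section

variable {p : ℕ} [hp : Fact p.Prime]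

lemma neuM_mul {c : Fin 4} {A B D : ℤ} (hA0 : A ≠ 0) (hB0 : B ≠ 0) (hAB : A ≠ B)
    (hD : ¬ (p : ℤ) ∣ D) (hDj : jacobiSym D p = 1) (h : NeuM c p A B) :
    NeuM c p (A * D) (B * D) := by
  unfold NeuM at h ⊢
  by_cases c0 : c = 0
  · rw [if_pos c0] at h ⊢
    obtain ⟨h1, h2, h3, h4⟩ := h
    refine ⟨h1.mul_right _, nd_mul h2 hD, ?_, ?_⟩
    · rw [val_mulD hA0 hD]
      exact h3
    · rw [show -(B * D) = -B * D by ring, jac_mulD hDj]
      exact h4
  · rw [if_neg c0] at h ⊢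
    by_cases c1 : c = 1
    · rw [if_pos c1] at h ⊢
      obtain ⟨h1, h2, h3, h4⟩ := h
      refine ⟨h1.mul_right _, nd_mul h2 hD, ?_, ?_⟩
      · rw [val_mulD hB0 hD]
        exact h3
      · rw [show -(A * D) = -A * D by ring, jac_mulD hDj]
        exact h4
    · rw [if_neg c1] at h ⊢
      obtain ⟨h1, h2, h3, h4⟩ := h
      have e : A * D - B * D = (A - B) * D := by ring
      refine ⟨?_, nd_mul h2 hD, ?_, ?_⟩
      · rw [e]
        exact h1.mul_right _
      · rw [e, val_mulD (sub_ne_zero.2 hAB) hD]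
        exact h3
      · rw [jac_mulD hDj]
        exact h4

/-- a squarefree integer that is a square times an element of even valuation is prime to `p` -/
lemma nd_of_even {x : ℚ} (hx : x ≠ 0) (hev : Even (padicValRat p x)) {e : ℤ} (he : Squarefree e)
    (hs : IsSquare (((x : ℚ) : ℚ_[p]) * (e : ℚ_[p]))) : ¬ (p : ℤ) ∣ e := by
  rw [← even_val e he p hp.out]
  obtain ⟨w, hw⟩ := hs
  have he0 : (e : ℚ) ≠ 0 := by exact_mod_cast he.ne_zero
  have hxe : x * (e : ℚ) ≠ 0 := mul_ne_zero hx he0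
  have h1 : ((x * (e : ℚ) : ℚ) : ℚ_[p]) = w * w := by
    push_cast
    exact hw
  have hw0 : w ≠ 0 := by
    rintro rfl
    rw [mul_zero] at h1
    exact hxe (by exact_mod_cast h1)
  have h2 : padicValRat p (x * (e : ℚ)) = 2 * w.valuation := by
    have h3 : (((x * (e : ℚ) : ℚ) : ℚ_[p])).valuation = padicValRat p (x * (e : ℚ)) :=
      Padic.valuation_ratCast _
    rw [← h3, h1, Padic.valuation_mul hw0 hw0]
    ring
  rw [padicValRat.mul hx he0] at h2
  have h4 : padicValRat p (e : ℚ) = 2 * w.valuation - padicValRat p x := by linarith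
  rw [h4]
  exact (even_two_mul _).sub hev

/-- the Selmer classes are unramified at the primes without a contribution -/
theorem neump (hp2 : p ≠ 2) {c : Fin 4} {A B : ℤ} (hA0 : A ≠ 0) (hB0 : B ≠ 0) (hAB : A ≠ B)
    (h : NeuM c p A B) (x y : ℚ_[p]) (hy : y ≠ 0) (hxy : y ^ 2 = x * (x - A) * (x - B))
    (e1 e2 : ℤ) (he1 : Squarefree e1) (he2 : Squarefree e2) (s1 : IsSquare (x * e1))
    (s2 : IsSquare ((x - A) * e2)) : ¬ (p : ℤ) ∣ e1 ∧ ¬ (p : ℤ) ∣ e2 := by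
  obtain ⟨D, x', y', hD, hDj, hy', hxy', t1, t2⟩ :=
    Pool.Agent.W407.SE.ratp p A B x y hp2 hy hxy
  have hD0 : D ≠ 0 := by
    rintro rfl
    exact hD (dvd_zero _)
  have hy2 : y ^ 2 ≠ 0 := pow_ne_zero 2 hy
  rw [hxy] at hy2
  have hx : x ≠ 0 := left_ne_zero_of_mul (left_ne_zero_of_mul hy2)
  have hxA : x - A ≠ 0 := right_ne_zero_of_mul (left_ne_zero_of_mul hy2)
  have hy2' : y' ^ 2 ≠ 0 := pow_ne_zero 2 hy'
  rw [hxy'] at hy2'
  have hx' : x' ≠ 0 := left_ne_zero_of_mul (left_ne_zero_of_mul hy2')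
  have hxA' : x' - (A * D : ℤ) ≠ 0 := right_ne_zero_of_mul (left_ne_zero_of_mul hy2')
  obtain ⟨v1, v2⟩ := neum hp2 (mul_ne_zero hA0 hD0) (mul_ne_zero hB0 hD0)
    (fun h => hAB (mul_right_cancel₀ hD0 h)) (neuM_mul hA0 hB0 hAB hD hDj h) x' y' hy' hxy'
  exact ⟨nd_of_even hx' v1 he1 (sq_tr hx t1 s1), nd_of_even hxA' v2 he2 (sq_tr hxA t2 s2)⟩

end

open Classical in
/-- the 2-Selmer group and the local count, with primes without a contribution -/
theorem seld5 (hgood : Pool.Agent.W307.SE.GOODP) (m : ℕ)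
    (L : ℕ → Bool → Bool → Bool → Bool → Prop) (A B : ℤ) (Nt : ℕ → Prop)
    (hA : A ≠ 0) (hB : B ≠ 0) (hAB : A ≠ B) (hodd : Odd m) (hm : Squarefree m)
    (hL : ∀ p, p.Prime → p ∣ m → XC (L p))
    (hloc : ∀ (p : ℕ) [Fact p.Prime], p ∣ m → ∀ x y : ℚ_[p], y ≠ 0 →
      y ^ 2 = x * (x - A) * (x - B) →
      ∀ e1 e2 : ℤ, Squarefree e1 → Squarefree e2 → IsSquare (x * e1) → IsSquare ((x - A) * e2) →
      L p (dv p e1) (dv p e2) (sgn p e1) (sgn p e2))
    (hneu : ∀ (p : ℕ) [Fact p.Prime], Nt p → ∀ x y : ℚ_[p], y ≠ 0 →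
      y ^ 2 = x * (x - A) * (x - B) →
      ∀ e1 e2 : ℤ, Squarefree e1 → Squarefree e2 → IsSquare (x * e1) → IsSquare ((x - A) * e2) →
      ¬ (p : ℤ) ∣ e1 ∧ ¬ (p : ℤ) ∣ e2) :
    (Sel A B).Finite ∧ (Sel A B).ncard ≤
      4 ^ (((2 * A * B * (A - B)).natAbs.primeFactors.filter
        (fun q => ¬ q ∣ m ∧ ¬ Nt q)).card + 2) * NL m L := by
  set OP : Finset ℕ := (2 * A * B * (A - B)).natAbs.primeFactors.filter
    (fun q => ¬ q ∣ m ∧ ¬ Nt q) with hOPdef
  have hD0 : 2 * A * B * (A - B) ≠ 0 :=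
    mul_ne_zero (mul_ne_zero (mul_ne_zero two_ne_zero hA) hB) (sub_ne_zero.mpr hAB)
  have hOP : ∀ q : ℕ, q.Prime → (q : ℤ) ∣ 2 * A * B * (A - B) → ¬ q ∣ m → ¬ Nt q →
      q ∈ OP := by
    intro q hq hqd hqs hqn
    rw [hOPdef, Finset.mem_filter, Nat.mem_primeFactors]
    exact ⟨⟨hq, Int.natCast_dvd.mp hqd, Int.natAbs_ne_zero.mpr hD0⟩, hqs, hqn⟩
  set F : Finset (ℕ × ℕ) := (m.divisors ×ˢ m.divisors).filter (fun d : ℕ × ℕ =>
    ∀ p ∈ m.primeFactors, L p (dv p d.1) (dv p d.2) (sgn p d.1) (sgn p d.2)) with hF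
  have hFcard : F.card = NL m L := by
    unfold NL
    rw [hF]
  -- comparison of two pairs with the same outer data
  have hcmp : ∀ d d' : ℤ × ℤ, d ∈ Sel A B → d' ∈ Sel A B → outs OP d = outs OP d' →
      (0 < d.1 ↔ 0 < d'.1) ∧ (0 < d.2 ↔ 0 < d'.2) ∧
      (∀ q : ℕ, q.Prime → ¬ q ∣ m →
        ((q : ℤ) ∣ d.1 ↔ (q : ℤ) ∣ d'.1) ∧ ((q : ℤ) ∣ d.2 ↔ (q : ℤ) ∣ d'.2)) := by
    intro d d' hd hd' ho
    have h1 : decide (0 < d.1) = decide (0 < d'.1) := congrArg Prod.fst ho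
    have h23 := congrArg Prod.snd ho
    have h2 : decide (0 < d.2) = decide (0 < d'.2) := congrArg Prod.fst h23
    have h3 := congrArg Prod.snd h23
    refine ⟨decide_eq_decide.mp h1, decide_eq_decide.mp h2, fun q hq hqm => ?_⟩
    by_cases hN : Nt q
    · have : Fact q.Prime := ⟨hq⟩
      obtain ⟨x, y, hy, hxy, s1, s2⟩ := hd.2.2.2 q
      obtain ⟨x', y', hy', hxy', s1', s2'⟩ := hd'.2.2.2 q
      obtain ⟨a1, a2⟩ := hneu q hN x y hy hxy d.1 d.2 hd.1 hd.2.1 s1 s2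
      obtain ⟨b1, b2⟩ := hneu q hN x' y' hy' hxy' d'.1 d'.2 hd'.1 hd'.2.1 s1' s2'
      exact ⟨⟨fun h => absurd h a1, fun h => absurd h b1⟩,
        ⟨fun h => absurd h a2, fun h => absurd h b2⟩⟩
    by_cases hD : (q : ℤ) ∣ 2 * A * B * (A - B)
    · have h4 := congrFun h3 ⟨q, hOP q hq hD hqm hN⟩
      have h5 : decide ((q : ℤ) ∣ d.1) = decide ((q : ℤ) ∣ d'.1) := congrArg Prod.fst h4
      have h6 : decide ((q : ℤ) ∣ d.2) = decide ((q : ℤ) ∣ d'.2) := congrArg Prod.snd h4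
      exact ⟨decide_eq_decide.mp h5, decide_eq_decide.mp h6⟩
    · have : Fact q.Prime := ⟨hq⟩
      obtain ⟨a1, a2⟩ := hgood q A B d.1 d.2 hD hd.1 hd.2.1 (hd.2.2.2 q)
      obtain ⟨b1, b2⟩ := hgood q A B d'.1 d'.2 hD hd'.1 hd'.2.1 (hd'.2.2.2 q)
      exact ⟨⟨fun h => absurd h a1, fun h => absurd h b1⟩,
        ⟨fun h => absurd h a2, fun h => absurd h b2⟩⟩
  -- the local data
  have hdat : ∀ a b : ℤ, Squarefree a → Squarefree b → (0 < a ↔ 0 < b) →
      (∀ q : ℕ, q.Prime → ¬ q ∣ m → ((q : ℤ) ∣ a ↔ (q : ℤ) ∣ b)) →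
      ∀ p : ℕ, p.Prime → dv p (dd m a b) = xor (dv p a) (dv p b) ∧
        sgn p (dd m a b) = xor (sgn p a) (sgn p b) := by
    intro a b ha hb hs hv p hp
    have h1 := dd_sq m hm (a : ℚ) (b : ℚ) (by exact_mod_cast ha.ne_zero)
      (by exact_mod_cast hb.ne_zero) (by exact_mod_cast hs) (by
        intro q hq hqm
        rw [even_val a ha q hq, even_val b hb q hq, hv q hq hqm])
    have h2 : IsSquare (a * b * ((dd m a b : ℕ) : ℤ)) := by
      rw [← Rat.isSquare_intCast_iff]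
      push_cast
      exact h1
    exact key p hp a b _ ha hb
      (Int.squarefree_natCast.mpr (hm.squarefree_of_dvd (dd_dvd m hm a b))) h2
  have hFmem : ∀ d d' : ℤ × ℤ, d ∈ Sel A B → d' ∈ Sel A B → outs OP d = outs OP d' →
      (dd m d.1 d'.1, dd m d.2 d'.2) ∈ F := by
    intro d d' hd hd' ho
    obtain ⟨c1, c2, c3⟩ := hcmp d d' hd hd' ho
    rw [hF, Finset.mem_filter, Finset.mem_product]
    refine ⟨⟨Nat.mem_divisors.mpr ⟨dd_dvd m hm _ _, hm.ne_zero⟩,
      Nat.mem_divisors.mpr ⟨dd_dvd m hm _ _, hm.ne_zero⟩⟩, fun p hp => ?_⟩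
    rw [Nat.mem_primeFactors] at hp
    have : Fact p.Prime := ⟨hp.1⟩
    obtain ⟨x, y, hy, hxy, s1, s2⟩ := hd.2.2.2 p
    obtain ⟨x', y', hy', hxy', s1', s2'⟩ := hd'.2.2.2 p
    have l1 := hloc p hp.2.1 x y hy hxy d.1 d.2 hd.1 hd.2.1 s1 s2
    have l2 := hloc p hp.2.1 x' y' hy' hxy' d'.1 d'.2 hd'.1 hd'.2.1 s1' s2'
    obtain ⟨k1, k2⟩ := hdat d.1 d'.1 hd.1 hd'.1 c1 (fun q hq hqm => (c3 q hq hqm).1) p hp.1
    obtain ⟨k3, k4⟩ := hdat d.2 d'.2 hd.2.1 hd'.2.1 c2 (fun q hq hqm => (c3 q hq hqm).2) p hp.1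
    show L p (dv p (dd m d.1 d'.1)) (dv p (dd m d.2 d'.2))
      (sgn p (dd m d.1 d'.1)) (sgn p (dd m d.2 d'.2))
    rw [k1, k2, k3, k4]
    exact (hL p hp.1 hp.2.1).2 _ _ _ _ _ _ _ _ l1 l2
  -- the counting map
  by_cases hne : (Sel A B).Nonempty
  · have : Nonempty (Sel A B) := hne.to_subtype
    obtain ⟨rep, hrep⟩ : ∃ rep : Out OP → Sel A B, ∀ d : Sel A B,
        outs OP (rep (outs OP d.1)).1 = outs OP d.1 :=
      ⟨Function.invFun (fun d : Sel A B => outs OP d.1), fun d =>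
        Function.invFun_eq (f := fun d : Sel A B => outs OP d.1) ⟨d, rfl⟩⟩
    obtain ⟨kk, hkk⟩ : ∃ kk : Sel A B → Out OP × (ℕ × ℕ), ∀ d : Sel A B,
        kk d = (outs OP d.1, (dd m d.1.1 (rep (outs OP d.1)).1.1,
          dd m d.1.2 (rep (outs OP d.1)).1.2)) := ⟨_, fun d => rfl⟩
    have hmem : ∀ d : Sel A B, kk d ∈ (Finset.univ : Finset (Out OP)) ×ˢ F := by
      intro d
      rw [hkk, Finset.mem_product]
      exact ⟨Finset.mem_univ _, hFmem d.1 _ d.2 (rep _).2 (hrep d).symm⟩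
    have hinj : Function.Injective kk := by
      intro d e hde
      rw [hkk, hkk] at hde
      have h1 : outs OP d.1 = outs OP e.1 := congrArg Prod.fst hde
      have h2 := congrArg (fun z => z.2.1) hde
      have h3 := congrArg (fun z => z.2.2) hde
      simp only at h2 h3
      rw [← h1] at h2 h3
      obtain ⟨c1, c2, c3⟩ := hcmp d.1 e.1 d.2 e.2 h1
      obtain ⟨u1, u2, u3⟩ := hcmp d.1 _ d.2 (rep (outs OP d.1)).2 (hrep d).symm
      obtain ⟨v1, v2, v3⟩ := hcmp e.1 (rep (outs OP d.1)).1 e.2 (rep (outs OP d.1)).2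
        (h1.symm.trans (hrep d).symm)
      apply Subtype.ext
      apply Prod.ext
      · apply eq_of_dvd _ _ d.2.1 e.2.1 c1
        intro p hp
        have k1 := (hdat d.1.1 _ d.2.1 (rep (outs OP d.1)).2.1 u1
          (fun q hq hqm => (u3 q hq hqm).1) p hp).1
        have k2 := (hdat e.1.1 _ e.2.1 (rep (outs OP d.1)).2.1 v1
          (fun q hq hqm => (v3 q hq hqm).1) p hp).1
        rw [h2, k2] at k1
        revert k1
        generalize dv p d.1.1 = a
        generalize dv p e.1.1 = b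
        generalize dv p (rep (outs OP d.1)).1.1 = c
        cases a <;> cases b <;> cases c <;> simp
      · apply eq_of_dvd _ _ d.2.2.1 e.2.2.1 c2
        intro p hp
        have k1 := (hdat d.1.2 _ d.2.2.1 (rep (outs OP d.1)).2.2.1 u2
          (fun q hq hqm => (u3 q hq hqm).2) p hp).1
        have k2 := (hdat e.1.2 _ e.2.2.1 (rep (outs OP d.1)).2.2.1 v2
          (fun q hq hqm => (v3 q hq hqm).2) p hp).1
        rw [h3, k2] at k1
        revert k1
        generalize dv p d.1.2 = a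
        generalize dv p e.1.2 = b
        generalize dv p (rep (outs OP d.1)).1.2 = c
        cases a <;> cases b <;> cases c <;> simp
    have hfin : Finite (Sel A B) := by
      have hmaps : ∀ d : Sel A B, kk d ∈ (((Finset.univ : Finset (Out OP)) ×ˢ F : Finset _) :
          Set (Out OP × (ℕ × ℕ))) := fun d => Finset.mem_coe.mpr (hmem d)
      exact Finite.of_injective
        (fun d : Sel A B => (⟨kk d, hmem d⟩ :
          {z // z ∈ (Finset.univ : Finset (Out OP)) ×ˢ F}))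
        (fun d e hde => hinj (congrArg Subtype.val hde))
    refine ⟨Set.toFinite _, ?_⟩
    have hcard : (Sel A B).ncard ≤ ((Finset.univ : Finset (Out OP)) ×ˢ F).card := by
      rw [← Nat.card_coe_set_eq]
      have := Fintype.ofFinite (Sel A B)
      rw [Nat.card_eq_fintype_card, ← Finset.card_univ]
      exact Finset.card_le_card_of_injOn kk (fun d _ => hmem d) hinj.injOn
    refine hcard.trans ?_
    rw [Finset.card_product, Finset.card_univ, card_out, hFcard]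
    apply Nat.mul_le_mul_right
    exact Nat.pow_le_pow_right (by norm_num) (by omega)
  · rw [Set.not_nonempty_iff_eq_empty] at hne
    rw [hne]
    exact ⟨Set.finite_empty, by simp⟩


end Pool.Agent.K7.H54.HR
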