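import Mathlib
import Pool.Agent.H474R2.PG.Defs

/-!
# Project HR: sums of the symbols at the roots of a polynomial, the lower bound
-/

set_option autoImplicit false
set_option linter.all false

open Polynomial IntermediateField

namespace Pool.Agent.K7.H54.HR

/-- a field generated by `β (α + t)` -/
theorem exists_gen (α β : ℂ) (hα : IsAlgebraic ℚ α) (hβ : IsAlgebraic ℚ β) (hβ0 : β ≠ 0) :
    ∃ t : ℕ, α + t ≠ 0 ∧ ∃ P : ℚ[X], aeval (β * (α + t)) P = α := by
  have hfd : FiniteDimensional ℚ ↥(adjoin ℚ ({α, β} : Set ℂ)) := by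
    apply IntermediateField.finiteDimensional_adjoin
    intro x hx
    rcases hx with rfl | hx
    · exact hα.isIntegral
    · rw [Set.mem_singleton_iff.1 hx]
      exact hβ.isIntegral
  set E := adjoin ℚ ({α, β} : Set ℂ) with hE
  have hfin : Finite (IntermediateField ℚ E) := by
    rw [← Field.exists_primitive_element_iff_finite_intermediateField]
    exact ⟨inferInstance, Field.exists_primitive_element ℚ E⟩
  have hαE : α ∈ E := subset_adjoin ℚ _ (by simp)
  have hβE : β ∈ E := subset_adjoin ℚ _ (by simp)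
  set α' : E := ⟨α, hαE⟩ with hα'
  set β' : E := ⟨β, hβE⟩ with hβ'
  have hβ'0 : β' ≠ 0 := fun h => hβ0 (congrArg Subtype.val h)
  have hinf : Set.Infinite {t : ℕ | α' + (t : E) ≠ 0} := by
    have h1 : {t : ℕ | α' + (t : E) ≠ 0}ᶜ.Subsingleton := by
      intro t ht t' ht'
      simp only [Set.mem_compl_iff, Set.mem_ofPred_eq, not_not] at ht ht'
      have : (t : E) = (t' : E) := by
        have := ht.trans ht'.symm
        exact add_left_cancel this
      exact_mod_cast this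
    exact h1.finite.infinite_compl |> fun h => by rwa [compl_compl] at h
  have : Infinite {t : ℕ // α' + (t : E) ≠ 0} := hinf.to_subtype
  obtain ⟨⟨t, ht⟩, ⟨t', ht'⟩, hne, heq⟩ := Finite.exists_ne_map_eq_of_infinite
    (fun t : {t : ℕ // α' + (t : E) ≠ 0} => ℚ⟮β' * (α' + ((t : ℕ) : E))⟯)
  simp only at heq
  have hne' : t ≠ t' := fun h => hne (Subtype.ext h)
  set F := ℚ⟮β' * (α' + ((t : ℕ) : E))⟯ with hF
  have m1 : β' * (α' + (t : E)) ∈ F := mem_adjoin_simple_self ℚ _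
  have m2 : β' * (α' + (t' : E)) ∈ F := by rw [heq]; exact mem_adjoin_simple_self ℚ _
  have hc : ((t : E) - (t' : E)) ≠ 0 := by
    rw [sub_ne_zero]
    exact_mod_cast hne'
  have m3 : β' ∈ F := by
    have h1 : β' = (β' * (α' + (t : E)) - β' * (α' + (t' : E))) / ((t : E) - (t' : E)) := by
      field_simp
      ring
    rw [h1]
    exact F.div_mem (F.sub_mem m1 m2) (F.sub_mem (_root_.natCast_mem F t) (_root_.natCast_mem F t'))
  have m4 : α' ∈ F := by
    have h1 : α' = (β' * (α' + (t : E))) / β' - (t : E) := by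
      field_simp
      ring
    rw [h1]
    exact F.sub_mem (F.div_mem m1 m3) (_root_.natCast_mem F t)
  have halg : IsAlgebraic ℚ (β' * (α' + ((t : ℕ) : E))) := Algebra.IsAlgebraic.isAlgebraic _
  have m5 : α' ∈ F.toSubalgebra := m4
  rw [hF, adjoin_simple_toSubalgebra_of_isAlgebraic halg, Algebra.adjoin_singleton_eq_range_aeval] at m5
  obtain ⟨P, hP⟩ := m5
  refine ⟨t, fun h => ht (Subtype.ext (by simpa using h)), P, ?_⟩
  have h2 := congrArg (algebraMap E ℂ) hP
  have h3 : algebraMap E ℂ (aeval (β' * (α' + ((t : ℕ) : E))) P) =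
      aeval (algebraMap E ℂ (β' * (α' + ((t : ℕ) : E)))) P := by
    rw [aeval_algebraMap_apply]
  have h4 : algebraMap E ℂ (β' * (α' + ((t : ℕ) : E))) = β * (α + t) := by
    simp
    rfl
  rw [← h4, ← h3]
  exact h2

open Pool.Agent.H474R2.PG (rho)

/-- clearing the denominators -/
theorem clr (q : ℚ[X]) : ∃ (N : ℤ) (q' : ℤ[X]), N ≠ 0 ∧
    q'.map (Int.castRingHom ℚ) = C (N : ℚ) * q := by
  obtain ⟨N, hN, hN2⟩ := IsLocalization.integerNormalization_spec (nonZeroDivisors ℤ) q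
  refine ⟨N, IsLocalization.integerNormalization (nonZeroDivisors ℤ) q,
    nonZeroDivisors.ne_zero hN, ?_⟩
  have : (Int.castRingHom ℚ) = algebraMap ℤ ℚ := rfl
  rw [this, hN2]
  ext n
  rw [coeff_smul, coeff_C_mul]
  simp

/-- the homogenization in a polynomial -/
noncomputable def hP (n : ℕ) (f P : ℤ[X]) (N : ℤ) : ℤ[X] :=
  ∑ i ∈ Finset.range (n + 1), C (f.coeff i) * P ^ i * C N ^ (n - i)

theorem hP_eval {n : ℕ} {f P : ℤ[X]} (hf : f.natDegree ≤ n) {N s x m : ℤ}
    (h : m ∣ P.eval s - x * N) : m ∣ (hP n f P N).eval s - N ^ n * f.eval x := by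
  have h1 : P.eval s ≡ x * N [ZMOD m] :=
    Int.modEq_iff_dvd.2 (by rw [← neg_sub]; exact h.neg_right)
  have h2 : (hP n f P N).eval s = ∑ i ∈ Finset.range (n + 1),
      f.coeff i * (P.eval s) ^ i * N ^ (n - i) := by
    unfold hP
    rw [eval_finset_sum]
    simp
  have h3 : N ^ n * f.eval x = ∑ i ∈ Finset.range (n + 1),
      f.coeff i * (x * N) ^ i * N ^ (n - i) := by
    rw [eval_eq_sum_range' (Nat.lt_succ_of_le hf), Finset.mul_sum]
    refine Finset.sum_congr rfl fun i hi => ?_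
    have h1 : i ≤ n := Nat.lt_succ_iff.1 (Finset.mem_range.1 hi)
    have h2 : N ^ n = N ^ i * N ^ (n - i) := by rw [← pow_add]; congr 1; omega
    rw [mul_pow, h2]
    ring
  rw [h2, h3]
  have h4 : (∑ i ∈ Finset.range (n + 1), f.coeff i * (P.eval s) ^ i * N ^ (n - i)) ≡
      (∑ i ∈ Finset.range (n + 1), f.coeff i * (x * N) ^ i * N ^ (n - i)) [ZMOD m] :=
    Int.ModEq.sum fun i _ => ((Int.ModEq.refl _).mul (h1.pow _)).mul (Int.ModEq.refl _)
  exact Int.modEq_iff_dvd.1 h4.symm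

theorem hP_aeval {n : ℕ} {f P : ℤ[X]} (hf : f.natDegree ≤ n) {N : ℤ} {θ α : ℂ}
    (h : aeval θ P = N * α) : aeval θ (hP n f P N) = (N : ℂ) ^ n * aeval α f := by
  unfold hP
  rw [map_sum, aeval_eq_sum_range' (Nat.lt_succ_of_le hf), Finset.mul_sum]
  refine Finset.sum_congr rfl fun i hi => ?_
  have h1 : i ≤ n := Nat.lt_succ_iff.1 (Finset.mem_range.1 hi)
  have h2 : (N : ℂ) ^ n = (N : ℂ) ^ i * (N : ℂ) ^ (n - i) := by rw [← pow_add]; congr 1; omega
  rw [map_mul, map_mul, map_pow, map_pow, h, aeval_C, aeval_C, mul_pow, h2]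
  simp only [algebraMap_int_eq, eq_intCast, zsmul_eq_mul]
  ring

theorem aeval_map_Q (P : ℤ[X]) (x : ℂ) : aeval x (P.map (Int.castRingHom ℚ)) = aeval x P := by
  have : (Int.castRingHom ℚ) = algebraMap ℤ ℚ := rfl
  rw [this, aeval_map_algebraMap]

/-- the symbols and the squares -/
theorem sq_le {p : ℕ} (hp : p.Prime) (h2 : p ≠ 2) {b : ℤ} (hb : ¬ (p : ℤ) ∣ b) :
    (((Finset.range p).filter (fun s : ℕ => (p : ℤ) ∣ b - (s : ℤ) ^ 2)).card : ℤ) ≤
      1 + jacobiSym b p := by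
  haveI := Fact.mk hp
  have h := legendreSym.card_sqrts p h2 b
  rw [jacobiSym.legendreSym.to_jacobiSym] at h
  rw [add_comm, ← h]
  have h3 : ((Finset.range p).filter (fun s : ℕ => (p : ℤ) ∣ b - (s : ℤ) ^ 2)).card ≤
      ({x : ZMod p | x ^ 2 = ((b : ℤ) : ZMod p)} : Set (ZMod p)).toFinset.card := by
    apply Finset.card_le_card_of_injOn (fun s : ℕ => (s : ZMod p))
    · intro s hs
      have hs' := (Finset.mem_filter.1 (Finset.mem_coe.1 hs)).2
      simp only [Set.coe_toFinset]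
      have : ((b - (s : ℤ) ^ 2 : ℤ) : ZMod p) = 0 := (ZMod.intCast_zmod_eq_zero_iff_dvd _ p).2 hs'
      push_cast at this
      exact (sub_eq_zero.1 this).symm
    · intro s hs s' hs' hss
      have h4 := Finset.mem_range.1 (Finset.mem_filter.1 (Finset.mem_coe.1 hs)).1
      have h5 := Finset.mem_range.1 (Finset.mem_filter.1 (Finset.mem_coe.1 hs')).1
      have h6 := (ZMod.natCast_eq_natCast_iff' s s' p).1 hss
      rwa [Nat.mod_eq_of_lt h4, Nat.mod_eq_of_lt h5] at h6
  exact_mod_cast h3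

/-- **a polynomial whose roots give the square roots of the values of `g` at the roots of `f`** -/
theorem exists_H (f g : ℤ[X]) (hf : Irreducible f) (hd : 0 < f.natDegree)
    (hg : ¬ f.map (Int.castRingHom ℚ) ∣ g.map (Int.castRingHom ℚ)) :
    ∃ H : ℤ[X], Irreducible H ∧ 0 < H.natDegree ∧ ∃ B : ℕ, ∀ p : ℕ, p.Prime → B < p →
      (∀ x : ℤ, (p : ℤ) ∣ f.eval x → ¬ (p : ℤ) ∣ g.eval x) → 
      (rho H p : ℤ) ≤ ∑ x ∈ (Finset.range p).filter (fun x : ℕ => (p : ℤ) ∣ f.eval (x : ℤ)),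
        (1 + jacobiSym (g.eval (x : ℤ)) p) := by
  classical
  have hprim : f.IsPrimitive := hf.isPrimitive hd.ne'
  have hirr : Irreducible (f.map (Int.castRingHom ℚ)) :=
    (IsPrimitive.Int.irreducible_iff_irreducible_map_cast hprim).1 hf
  have hinj : Function.Injective (Int.castRingHom ℚ) := Int.cast_injective
  -- the root
  obtain ⟨α, hα⟩ : ∃ α : ℂ, aeval α (f.map (Int.castRingHom ℚ)) = 0 := by
    refine IsAlgClosed.exists_aeval_eq_zero ℂ _ ?_
    rw [degree_map_eq_of_injective hinj]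
    exact (natDegree_pos_iff_degree_pos.1 hd).ne'
  have hαf : aeval α f = 0 := by rw [← aeval_map_Q]; exact hα
  have hmin : ∀ q : ℚ[X], aeval α q = 0 → f.map (Int.castRingHom ℚ) ∣ q := by
    intro q hq
    have h1 : minpoly ℚ α ∣ f.map (Int.castRingHom ℚ) := minpoly.dvd ℚ α hα
    have h2 : minpoly ℚ α ∣ q := minpoly.dvd ℚ α hq
    have hint : IsIntegral ℚ α := by
      rw [← isAlgebraic_iff_isIntegral]
      exact ⟨_, hirr.ne_zero, hα⟩
    have h3 : ¬ IsUnit (minpoly ℚ α) := minpoly.not_isUnit ℚ α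
    have h4 := (hirr.dvd_iff.1 h1).resolve_left h3
    exact h4.dvd.trans h2
  have hgα : aeval α g ≠ 0 := by
    intro h
    apply hg
    apply hmin
    rw [aeval_map_Q]
    exact h
  have hαalg : IsAlgebraic ℚ α := ⟨_, hirr.ne_zero, hα⟩
  obtain ⟨β, hβ⟩ : ∃ β : ℂ, β ^ 2 = aeval α g := IsAlgClosed.exists_pow_nat_eq _ (by norm_num)
  have hβ0 : β ≠ 0 := by
    rintro rfl
    apply hgα
    rw [← hβ]
    norm_num
  have hβalg : IsAlgebraic ℚ β := by
    rw [isAlgebraic_iff_isIntegral]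
    refine IsIntegral.of_pow (n := 2) (by norm_num) ?_
    rw [hβ, ← aeval_map_Q]
    have h1 : IsIntegral ℚ α := hαalg.isIntegral
    exact adjoin_le_integralClosure h1 (aeval_mem_adjoin_singleton ℚ α)
  obtain ⟨t, ht, P, hPe⟩ := exists_gen α β hαalg hβalg hβ0
  set θ : ℂ := β * (α + t) with hθ
  have hθ0 : θ ≠ 0 := mul_ne_zero hβ0 ht
  have hθalg : IsAlgebraic ℚ θ := hβalg.mul (hαalg.add (isAlgebraic_nat t))
  -- the polynomial
  obtain ⟨N1, H1, hN1, hH1⟩ := clr (minpoly ℚ θ)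
  have hθint : IsIntegral ℚ θ := hθalg.isIntegral
  have hH1m : Associated (H1.map (Int.castRingHom ℚ)) (minpoly ℚ θ) := by
    rw [hH1]
    have : IsUnit (C (N1 : ℚ)) := by
      rw [isUnit_C, isUnit_iff_ne_zero]
      exact_mod_cast hN1
    exact (associated_unit_mul_left _ _ this)
  have hH10 : H1 ≠ 0 := by
    rintro rfl
    rw [Polynomial.map_zero] at hH1m
    exact minpoly.ne_zero hθint ((associated_zero_iff_eq_zero _).1 hH1m.symm)
  set H := H1.primPart with hH
  have hHp : H.IsPrimitive := H1.isPrimitive_primPart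
  have hHm : Associated (H.map (Int.castRingHom ℚ)) (minpoly ℚ θ) := by
    refine Associated.trans ?_ hH1m
    have h1 := H1.eq_C_content_mul_primPart
    have h2 : H1.map (Int.castRingHom ℚ) = C ((H1.content : ℤ) : ℚ) * H.map (Int.castRingHom ℚ) := by
      conv_lhs => rw [h1]
      rw [Polynomial.map_mul, Polynomial.map_C]
      rfl
    rw [h2]
    have : IsUnit (C ((H1.content : ℤ) : ℚ)) := by
      rw [isUnit_C, isUnit_iff_ne_zero]
      have : H1.content ≠ 0 := by
        rw [Ne, content_eq_zero_iff]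
        exact hH10
      exact_mod_cast this
    exact (associated_unit_mul_left _ _ this).symm
  have hHirr : Irreducible H := by
    rw [IsPrimitive.Int.irreducible_iff_irreducible_map_cast hHp]
    exact hHm.symm.irreducible (minpoly.irreducible hθint)
  have hHdeg : 0 < H.natDegree := by
    have h1 : (H.map (Int.castRingHom ℚ)).natDegree = (minpoly ℚ θ).natDegree :=
      natDegree_eq_of_degree_eq (degree_eq_degree_of_associated hHm)
    rw [natDegree_map_eq_of_injective hinj] at h1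
    rw [h1]
    exact minpoly.natDegree_pos hθint
  have hHdvd : ∀ Q : ℤ[X], aeval θ Q = 0 → H ∣ Q := by
    intro Q hQ
    rw [IsPrimitive.Int.dvd_iff_map_cast_dvd_map_cast _ _ hHp]
    refine hHm.dvd.trans (minpoly.dvd ℚ θ ?_)
    rw [aeval_map_Q]
    exact hQ
  obtain ⟨N, P', hN, hP'⟩ := clr P
  have hP'α : aeval θ P' = (N : ℂ) * α := by
    rw [← aeval_map_Q, hP', map_mul, hPe, aeval_C]
    simp
  have hA1 : H ∣ hP f.natDegree f P' N := by
    apply hHdvd
    rw [hP_aeval le_rfl hP'α, hαf, mul_zero]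
  have hA2 : H ∣ hP g.natDegree g P' N * (P' + C ((t : ℤ) * N)) ^ 2 -
      C (N ^ (g.natDegree + 2)) * X ^ 2 := by
    apply hHdvd
    have e1 : aeval θ (C ((t : ℤ) * N)) = (t : ℂ) * N := by
      rw [aeval_C]
      simp
    have e2 : aeval θ (C (N ^ (g.natDegree + 2))) = (N : ℂ) ^ (g.natDegree + 2) := by
      rw [aeval_C]
      simp
    have e3 : aeval θ (hP g.natDegree g P' N * (P' + C ((t : ℤ) * N)) ^ 2 -
        C (N ^ (g.natDegree + 2)) * X ^ 2) = aeval θ (hP g.natDegree g P' N) *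
          (aeval θ P' + aeval θ (C ((t : ℤ) * N))) ^ 2 -
          aeval θ (C (N ^ (g.natDegree + 2))) * θ ^ 2 := by
      simp only [map_sub, map_mul (aeval θ), map_pow (aeval θ), map_add (aeval θ), aeval_X]
    rw [e3, e1, e2, hP_aeval le_rfl hP'α, hP'α, ← hβ, hθ]
    ring
  have hH0 : H.eval 0 ≠ 0 := by
    intro h0
    have h1 : X ∣ H := by
      rw [X_dvd_iff, coeff_zero_eq_eval_zero]
      exact h0
    have h2 := (hHirr.dvd_iff.1 h1).resolve_left not_isUnit_X
    have h3 : aeval θ H = 0 := by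
      rw [← aeval_map_Q]
      obtain ⟨r, hr⟩ := hHm.symm.dvd
      rw [hr, map_mul, minpoly.aeval, zero_mul]
    obtain ⟨u, hu⟩ := h2
    have h4 := congrArg (aeval θ) hu
    rw [map_mul, h3, zero_mul, aeval_X] at h4
    exact hθ0 h4.symm
  refine ⟨H, hHirr, hHdeg, N.natAbs + (H.eval 0).natAbs + 2, fun p hp hBp hfg => ?_⟩
  have hpi := Nat.prime_iff_prime_int.1 hp
  have hNp : ¬ (p : ℤ) ∣ N := by
    intro hd
    have := Nat.le_of_dvd (Int.natAbs_pos.2 hN) (Int.natCast_dvd.1 hd)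
    omega
  have hp0 : (0 : ℤ) < p := by exact_mod_cast hp.pos
  -- the root of `f` for a root of `H`
  have hroot : ∀ s : ℕ, (p : ℤ) ∣ H.eval (s : ℤ) → ∃ x : ℕ, x < p ∧ (p : ℤ) ∣ f.eval (x : ℤ) ∧
      (p : ℤ) ∣ g.eval (x : ℤ) * ((x : ℤ) + t) ^ 2 - (s : ℤ) ^ 2 ∧ ¬ (p : ℤ) ∣ (s : ℤ) := by
    intro s hs
    have hcop : IsCoprime (p : ℤ) N := (hpi.coprime_iff_not_dvd).2 hNp
    obtain ⟨u, v, huv⟩ := hcop
    set x0 : ℤ := (P'.eval (s : ℤ)) * v with hx0
    have e0 := Int.emod_nonneg x0 hp0.ne'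
    have e1 := Int.emod_lt_of_pos x0 hp0
    have e2 : (((x0 % p).toNat : ℕ) : ℤ) = x0 % p := Int.toNat_of_nonneg e0
    have e3 : (p : ℤ) ∣ P'.eval (s : ℤ) - (x0 % p) * N := by
      have h1 : (p : ℤ) ∣ x0 - x0 % p := ⟨x0 / p, by have := Int.emod_add_mul_ediv x0 p; linarith⟩
      have h2 : P'.eval (s : ℤ) - (x0 % p) * N =
          (x0 - x0 % p) * N + P'.eval (s : ℤ) * (1 - v * N) := by rw [hx0]; ring
      rw [h2]
      refine dvd_add (h1.mul_right _) (Dvd.dvd.mul_left ?_ _)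
      exact ⟨u, by linarith⟩
    refine ⟨(x0 % p).toNat, by omega, ?_, ?_, ?_⟩
    · rw [e2]
      have h1 := hP_eval (f := f) le_rfl e3
      have h2 : (p : ℤ) ∣ (hP f.natDegree f P' N).eval (s : ℤ) := by
        obtain ⟨r, hr⟩ := hA1
        rw [hr, eval_mul]
        exact hs.mul_right _
      have h3 := dvd_sub h2 h1
      rw [sub_sub_cancel] at h3
      exact (hpi.dvd_mul.1 h3).resolve_left fun h4 => hNp (hpi.dvd_of_dvd_pow h4)
    · rw [e2]
      have h1 := hP_eval (f := g) le_rfl e3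
      have h2 : (p : ℤ) ∣ (hP g.natDegree g P' N).eval (s : ℤ) *
          (P'.eval (s : ℤ) + (t : ℤ) * N) ^ 2 - N ^ (g.natDegree + 2) * (s : ℤ) ^ 2 := by
        obtain ⟨r, hr⟩ := hA2
        have h3 := congrArg (Polynomial.eval (s : ℤ)) hr
        simp only [eval_sub, eval_mul, eval_pow, eval_add, eval_C, eval_X] at h3
        rw [h3]
        exact hs.mul_right _
      have h3 : (p : ℤ) ∣ N ^ (g.natDegree + 2) *
          (g.eval (x0 % p) * ((x0 % p) + t) ^ 2 - (s : ℤ) ^ 2) := by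
        have h4 : N ^ (g.natDegree + 2) *
          (g.eval (x0 % p) * ((x0 % p) + t) ^ 2 - (s : ℤ) ^ 2) =
          ((hP g.natDegree g P' N).eval (s : ℤ) *
          (P'.eval (s : ℤ) + (t : ℤ) * N) ^ 2 - N ^ (g.natDegree + 2) * (s : ℤ) ^ 2) -
          ((hP g.natDegree g P' N).eval (s : ℤ) - N ^ g.natDegree * g.eval (x0 % p)) *
            (P'.eval (s : ℤ) + (t : ℤ) * N) ^ 2 -
          N ^ g.natDegree * g.eval (x0 % p) * (P'.eval (s : ℤ) - (x0 % p) * N) *
            (P'.eval (s : ℤ) + (x0 % p) * N + 2 * (t : ℤ) * N) := by ring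
        rw [h4]
        exact dvd_sub (dvd_sub h2 (h1.mul_right _)) ((e3.mul_left _).mul_right _)
      exact (hpi.dvd_mul.1 h3).resolve_left fun h4 => hNp (hpi.dvd_of_dvd_pow h4)
    · intro hd
      have h1 : (p : ℤ) ∣ H.eval (s : ℤ) - H.eval 0 := by
        have := Polynomial.sub_dvd_eval_sub (s : ℤ) 0 H
        rw [sub_zero] at this
        exact hd.trans this
      have h2 := dvd_sub hs h1
      rw [sub_sub_cancel] at h2
      have := Nat.le_of_dvd (Int.natAbs_pos.2 hH0) (Int.natCast_dvd.1 h2)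
      omega
  choose! φ hφ using hroot
  unfold rho
  have hcard : ((Finset.range p).filter (fun s : ℕ => (p : ℤ) ∣ H.eval (s : ℤ))).card =
      ∑ x ∈ (Finset.range p).filter (fun x : ℕ => (p : ℤ) ∣ f.eval (x : ℤ)),
        (((Finset.range p).filter (fun s : ℕ => (p : ℤ) ∣ H.eval (s : ℤ))).filter
          (fun s => φ s = x)).card := by
    apply Finset.card_eq_sum_card_fiberwise
    intro s hs
    have h1 := (Finset.mem_filter.1 (Finset.mem_coe.1 hs)).2
    obtain ⟨h2, h3, -⟩ := hφ s h1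
    exact Finset.mem_coe.2 (Finset.mem_filter.2 ⟨Finset.mem_range.2 h2, h3⟩)
  rw [hcard]
  push_cast
  refine Finset.sum_le_sum fun x hx => ?_
  have hxf := (Finset.mem_filter.1 hx).2
  have hgx := hfg _ hxf
  by_cases hxt : (p : ℤ) ∣ (x : ℤ) + t
  · have h1 : ((Finset.range p).filter (fun s : ℕ => (p : ℤ) ∣ H.eval (s : ℤ))).filter
          (fun s => φ s = x) = ∅ := by
      rw [Finset.filter_eq_empty_iff]
      intro s hs hsx
      obtain ⟨-, -, h3, h4⟩ := hφ s (Finset.mem_filter.1 hs).2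
      rw [hsx] at h3
      apply h4
      have h5 : (p : ℤ) ∣ g.eval (x : ℤ) * ((x : ℤ) + t) ^ 2 :=
        Dvd.dvd.mul_left (hxt.pow two_ne_zero) _
      have h6 := dvd_sub h5 h3
      rw [sub_sub_cancel] at h6
      exact hpi.dvd_of_dvd_pow h6
    rw [h1, Finset.card_empty]
    rcases jacobiSym.trichotomy (g.eval (x : ℤ)) p with h2 | h2 | h2 <;> rw [h2] <;> norm_num
  · have hb : ¬ (p : ℤ) ∣ g.eval (x : ℤ) * ((x : ℤ) + t) ^ 2 := by
      intro h1
      rcases hpi.dvd_mul.1 h1 with h2 | h2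
      · exact hgx h2
      · exact hxt (hpi.dvd_of_dvd_pow h2)
    have h1 := sq_le hp (by omega) hb
    have h2 : jacobiSym (g.eval (x : ℤ) * ((x : ℤ) + t) ^ 2) p = jacobiSym (g.eval (x : ℤ)) p := by
      rw [jacobiSym.mul_left, jacobiSym.pow_left, jacobiSym.sq_one, mul_one]
      rw [← Int.isCoprime_iff_gcd_eq_one, isCoprime_comm]
      exact (hpi.coprime_iff_not_dvd).2 hxt
    rw [h2] at h1
    refine le_trans ?_ h1
    have h3 : (((Finset.range p).filter (fun s : ℕ => (p : ℤ) ∣ H.eval (s : ℤ))).filter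
          (fun s => φ s = x)).card ≤ ((Finset.range p).filter
            (fun s : ℕ => (p : ℤ) ∣ g.eval (x : ℤ) * ((x : ℤ) + t) ^ 2 - (s : ℤ) ^ 2)).card := by
      apply Finset.card_le_card
      intro s hs
      obtain ⟨h3, h4⟩ := Finset.mem_filter.1 hs
      obtain ⟨h5, h6⟩ := Finset.mem_filter.1 h3
      refine Finset.mem_filter.2 ⟨h5, ?_⟩
      rw [← h4]
      exact (hφ s h6).2.2.1
    exact_mod_cast h3

end Pool.Agent.K7.H54.HR
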